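import Mathlib
set_option autoImplicit false

/-!
# F-injectivity, hyperplane sections and the second theorem of Bertini

All the definitions which are used in the statement of the result.
-/

universe u

open AlgebraicGeometry CategoryTheory Limits MvPolynomial

attribute [local instance] MvPolynomial.gradedAlgebra

namespace Pool.Agent.H91

/-! ## F-injectivity -/

/-- The ring `A` as a module over itself through the Frobenius endomorphism, i.e. `F_* A`. -/
noncomputable def frobMod (A : Type u) [CommRing A] (p : ℕ) [ExpChar A p] : ModuleCat.{u} A :=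
  (ModuleCat.restrictScalars (frobenius A p)).obj (ModuleCat.of A A)

/-- The Frobenius `A → F_* A`, `a ↦ a ^ p`, as a homomorphism of `A`-modules. -/
noncomputable def frobHom (A : Type u) [CommRing A] (p : ℕ) [ExpChar A p] :
    ModuleCat.of A A ⟶ frobMod A p :=
  ModuleCat.ofHom (Y := frobMod A p)
    { toFun := fun a => (a ^ p : A)
      map_add' := fun a b => add_pow_expChar a b p
      map_smul' := fun a b => by
        change (a * b) ^ p = a ^ p * b ^ p
        exact mul_pow a b p }

/-- A local ring `(A, 𝔪)` of characteristic exponent `p` is *F-injective* if the map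
`H^i_𝔪(A) → H^i_𝔪(F_* A)` induced by the Frobenius is injective for all `i`. -/
def IsFInjectiveLocalRing (A : Type u) [CommRing A] [IsLocalRing A] (p : ℕ) [ExpChar A p] : Prop :=
  ∀ i : ℕ, Function.Injective
    ((localCohomology (IsLocalRing.maximalIdeal A) i).map (frobHom A p)).hom

/-- A scheme is *F-injective* (of characteristic exponent `p`) if all its local rings have
characteristic exponent `p` and are F-injective. -/
def IsFInjectiveScheme (X : Scheme.{u}) (p : ℕ) : Prop :=
  ∀ x : X, ∃ _ : ExpChar (X.presheaf.stalk x) p, IsFInjectiveLocalRing (X.presheaf.stalk x) p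

/-! ## Varieties -/

/-- `X` is a variety over `k`, with structure morphism `f`: an integral separated scheme of finite
type. -/
structure IsVariety {k : Type u} [Field k] {X : Scheme.{u}} (f : X ⟶ Spec (.of k)) : Prop where
  isIntegral : IsIntegral X
  isSeparated : IsSeparated f
  locallyOfFiniteType : LocallyOfFiniteType f
  quasiCompact : QuasiCompact f

/-- A scheme is *normal* if all its local rings are integrally closed domains. -/
def IsNormalScheme (X : Scheme.{u}) : Prop :=
  ∀ x : X, IsDomain (X.presheaf.stalk x) ∧ IsIntegrallyClosed (X.presheaf.stalk x)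

/-! ## Separably generated residue field extensions -/

/-- The field extension `L / K` is *separably generated*: it has a transcendence basis `s` such
that `L` is separable algebraic over `K(s)`. -/
def IsSeparablyGenerated (K L : Type u) [Field K] [Field L] [Algebra K L] : Prop :=
  ∃ s : Set L, IsTranscendenceBasis K ((↑) : s → L) ∧
    Algebra.IsSeparable (IntermediateField.adjoin K s) L

/-- A morphism has *separably generated residue field extensions* if, for every point `x` of the
source, the extension of residue fields `κ(φ(x)) ⊆ κ(x)` is separably generated. -/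
def HasSeparablyGeneratedResidueFieldExtensions {X Y : Scheme.{u}} (φ : X ⟶ Y) : Prop :=
  ∀ x : X, letI := (φ.residueFieldMap x).hom.toAlgebra
    IsSeparablyGenerated (Y.residueField (φ x)) (X.residueField x)

/-! ## Projective space and hyperplanes -/

/-- Projective `n`-space over `k`. -/
noncomputable def projSpace (n : ℕ) (k : Type u) [Field k] : Scheme.{u} :=
  Proj (homogeneousSubmodule (Fin (n + 1)) k)

/-- The structure morphism of projective `n`-space over `k`. -/
noncomputable def projSpaceToSpec (n : ℕ) (k : Type u) [Field k] :
    projSpace n k ⟶ Spec (.of k) :=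
  Proj.toSpecZero (homogeneousSubmodule (Fin (n + 1)) k) ≫
    Spec.map (CommRingCat.ofHom (algebraMap k (homogeneousSubmodule (Fin (n + 1)) k 0)))

/-- The linear form `a₀ X₀ + ⋯ + aₙ Xₙ`. -/
noncomputable def linearForm {n : ℕ} {k : Type u} [Field k] (a : Fin (n + 1) → k) :
    MvPolynomial (Fin (n + 1)) k :=
  ∑ i, C (a i) * X i

/-- The hyperplane `a₀ X₀ + ⋯ + aₙ Xₙ = 0` of `ℙⁿ`, as a closed subscheme with the reduced scheme
structure (given by its ideal sheaf). -/
noncomputable def hyperplane {n : ℕ} {k : Type u} [Field k] (a : Fin (n + 1) → k) :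
    (projSpace n k).IdealSheafData :=
  Scheme.IdealSheafData.vanishingIdeal
    (Proj.basicOpen (homogeneousSubmodule (Fin (n + 1)) k) (linearForm a)).compl

/-- The hyperplane section `φ⁻¹(H)`, `H` the hyperplane `a₀ X₀ + ⋯ + aₙ Xₙ = 0`: the scheme
theoretic preimage. -/
noncomputable def hyperplaneSection {n : ℕ} {k : Type u} [Field k] {X : Scheme.{u}}
    (φ : X ⟶ projSpace n k) (a : Fin (n + 1) → k) : Scheme.{u} :=
  pullback φ (hyperplane a).subschemeι

/-- A property of the hyperplanes `a₀ X₀ + ⋯ + aₙ Xₙ = 0`, `a ≠ 0`, of `ℙⁿ` *holds for a general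
hyperplane*: it holds for all hyperplanes in a nonempty open subset of the dual projective space,
which one can take to be the complement of a hypersurface `G = 0`. -/
def HoldsForGeneralHyperplane (n : ℕ) (k : Type u) [Field k] (P : (Fin (n + 1) → k) → Prop) :
    Prop :=
  ∃ (d : ℕ) (G : MvPolynomial (Fin (n + 1)) k), G.IsHomogeneous d ∧ G ≠ 0 ∧
    ∀ a : Fin (n + 1) → k, a ≠ 0 → eval a G ≠ 0 → P a

end Pool.Agent.H91
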