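import Mathlib
import Pool.Agent.helper91.Defs
set_option autoImplicit false
universe u
open MvPolynomial HomogeneousLocalization

attribute [local instance] MvPolynomial.gradedAlgebra

namespace Pool.Agent.H91

section
variable {k : Type u} [Field k] {n : ℕ}

lemma X_mem_grd (i : Fin (n + 1)) :
    (X i : MvPolynomial (Fin (n + 1)) k) ∈ homogeneousSubmodule (Fin (n + 1)) k 1 :=
  isHomogeneous_X k i

/-- the coordinate ring of the chart `X 0 ≠ 0` -/
abbrev BB (k : Type u) [Field k] (n : ℕ) : Type u :=
  HomogeneousLocalization.Away (homogeneousSubmodule (Fin (n + 1)) k)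
    (X 0 : MvPolynomial (Fin (n + 1)) k)

/-- dehomogenisation -/
noncomputable def awayHom {S : Type u} [CommRing S] (ev : MvPolynomial (Fin (n + 1)) k →+* S)
    (h : ev (X 0) = 1) : BB k n →+* S :=
  (Localization.awayLift ev (X 0) (by rw [h]; exact isUnit_one)).comp
    (algebraMap (BB k n) (Localization.Away (X 0 : MvPolynomial (Fin (n + 1)) k)))

/-- the fraction `x / X₀ ^ m`. -/
noncomputable def frac (m : ℕ) (x : MvPolynomial (Fin (n + 1)) k) (hx : x.IsHomogeneous m) : BB k n :=
  HomogeneousLocalization.Away.mk (homogeneousSubmodule (Fin (n + 1)) k) (X_mem_grd 0) m x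
    (by rw [smul_eq_mul, mul_one]; exact hx)

lemma val_frac (m : ℕ) (x : MvPolynomial (Fin (n + 1)) k) (hx : x.IsHomogeneous m) :
    (frac m x hx).val = Localization.mk x
      (⟨X 0 ^ m, ⟨m, rfl⟩⟩ : Submonoid.powers (X 0 : MvPolynomial (Fin (n + 1)) k)) := by
  rw [frac, HomogeneousLocalization.Away.val_mk]

lemma frac_surjective (c : BB k n) : ∃ m x hx, frac m x hx = c := by
  obtain ⟨m, x, hx, rfl⟩ := HomogeneousLocalization.Away.mk_surjective
    (homogeneousSubmodule (Fin (n + 1)) k) (X_mem_grd (0 : Fin (n + 1))) c
  exact ⟨m, x, by rw [smul_eq_mul, mul_one] at hx; exact hx, rfl⟩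

lemma awayHom_frac {S : Type u} [CommRing S] (ev : MvPolynomial (Fin (n + 1)) k →+* S)
    (h : ev (X 0) = 1) (m : ℕ) (x : MvPolynomial (Fin (n + 1)) k) (hx : x.IsHomogeneous m) :
    awayHom ev h (frac m x hx) = ev x := by
  rw [awayHom, RingHom.comp_apply, HomogeneousLocalization.algebraMap_apply, val_frac,
    Localization.awayLift_mk (v := 1)]
  · simp
  · rw [h, one_mul]

/-- homogeneous polynomials evaluated at multiples -/
lemma eval₂_mul_homogeneous {S : Type u} [CommRing S] (f : k →+* S) (c : S) (y : Fin (n + 1) → S)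
    (x : MvPolynomial (Fin (n + 1)) k) (m : ℕ) (hx : x.IsHomogeneous m) :
    eval₂ f (fun i => c * y i) x = c ^ m * eval₂ f y x := by
  rw [eval₂_eq, eval₂_eq, Finset.mul_sum]
  apply Finset.sum_congr rfl
  intro d hd
  have hdeg : ∑ i ∈ d.support, d i = m := by
    have := hx (mem_support_iff.mp hd)
    rw [← this, Finsupp.weight_apply]
    simp [Finsupp.sum]
  rw [← hdeg]
  simp only [mul_pow]
  rw [Finset.prod_mul_distrib, Finset.prod_pow_eq_pow_sum]
  ring

/-- constants -/
noncomputable def constBB (k : Type u) [Field k] (n : ℕ) : k →+* BB k n :=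
  (HomogeneousLocalization.fromZeroRingHom (homogeneousSubmodule (Fin (n + 1)) k) _).comp
    (algebraMap k (homogeneousSubmodule (Fin (n + 1)) k 0))

lemma val_constBB (c : k) : (constBB k n c).val =
    algebraMap (MvPolynomial (Fin (n + 1)) k) _ (C c) := by
  rw [constBB, RingHom.comp_apply]
  rfl

/-- the coordinate `Xᵢ / X₀` -/
noncomputable def coord (i : Fin (n + 1)) : BB k n := frac 1 (X i) (isHomogeneous_X k i)

/-- evaluation at the coordinates -/
noncomputable def evBB (k : Type u) [Field k] (n : ℕ) : MvPolynomial (Fin (n + 1)) k →+* BB k n :=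
  eval₂Hom (constBB k n) coord

lemma frac_eq_evBB (m : ℕ) (x : MvPolynomial (Fin (n + 1)) k) (hx : x.IsHomogeneous m) :
    frac m x hx = evBB k n x := by
  apply HomogeneousLocalization.val_injective
  rw [val_frac, evBB, coe_eval₂Hom]
  let T := Localization.Away (X 0 : MvPolynomial (Fin (n + 1)) k)
  let v : BB k n →+* T := algebraMap (BB k n) T
  have hv : ∀ c, v c = c.val := fun c => rfl
  rw [← hv, hom_eval₂]
  let q : T := Localization.mk 1
    (⟨X 0, ⟨1, pow_one _⟩⟩ : Submonoid.powers (X 0 : MvPolynomial (Fin (n + 1)) k))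
  have h1 : (fun i => v ((coord : Fin (n + 1) → BB k n) i)) =
      fun i => q * algebraMap (MvPolynomial (Fin (n + 1)) k) T (X i) := by
    funext i
    change (frac 1 (X i) (isHomogeneous_X k i)).val = _
    rw [val_frac, ← Localization.mk_one_eq_algebraMap, Localization.mk_mul]
    simp
  have h2 : v.comp (constBB k n) = (algebraMap (MvPolynomial (Fin (n + 1)) k) T).comp C := by
    ext c
    exact val_constBB c
  rw [h1, h2, eval₂_mul_homogeneous _ _ _ _ m hx]
  have h3 : eval₂ ((algebraMap (MvPolynomial (Fin (n + 1)) k) T).comp C)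
      (fun i => algebraMap (MvPolynomial (Fin (n + 1)) k) T (X i)) x =
        algebraMap (MvPolynomial (Fin (n + 1)) k) T x := by
    conv_rhs => rw [← eval₂_eta x, hom_eval₂]
  rw [h3, ← Localization.mk_one_eq_algebraMap, Localization.mk_pow, Localization.mk_mul]
  simp only [one_pow, one_mul, mul_one]
  rfl

lemma awayHom_comp_evBB {S : Type u} [CommRing S] (ev : MvPolynomial (Fin (n + 1)) k →+* S)
    (h : ev (X 0) = 1) : (awayHom ev h).comp (evBB k n) = ev := by
  apply MvPolynomial.ringHom_ext
  · intro c
    rw [RingHom.comp_apply, ← frac_eq_evBB 0 (C c) (isHomogeneous_C _ c), awayHom_frac]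
  · intro i
    rw [RingHom.comp_apply, ← frac_eq_evBB 1 (X i) (isHomogeneous_X _ i), awayHom_frac]

lemma evBB_surjective : Function.Surjective (evBB k n) := fun c => by
  obtain ⟨m, x, hx, rfl⟩ := frac_surjective c
  exact ⟨x, (frac_eq_evBB m x hx).symm⟩

lemma evBB_X_zero : evBB k n (X 0) = 1 := by
  rw [← frac_eq_evBB 1 (X 0) (isHomogeneous_X _ 0)]
  apply HomogeneousLocalization.val_injective
  rw [val_frac, HomogeneousLocalization.val_one, ← Localization.mk_one,
    Localization.mk_eq_mk_iff, Localization.r_iff_exists]
  exact ⟨1, by simp⟩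

lemma linearForm_isHomogeneous (a : Fin (n + 1) → k) : (linearForm a).IsHomogeneous 1 := by
  apply IsHomogeneous.sum
  intro i _
  have := (isHomogeneous_C (Fin (n + 1)) (a i)).mul (isHomogeneous_X k i)
  simpa using this

/-- Key lemma: the linear form generates a prime ideal on the chart. -/
theorem span_evBB_linearForm_isPrime (a : Fin (n + 1) → k) (j : Fin (n + 1)) (hj : j ≠ 0)
    (ha : a j ≠ 0) : (Ideal.span {evBB k n (linearForm a)}).IsPrime := by
  let S := MvPolynomial (Fin (n + 1)) k
  -- the retraction
  let y : Fin (n + 1) → S := fun i => if i = 0 then 1 else X i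
  let w : S := X j - C (a j)⁻¹ * ∑ i, C (a i) * y i
  let ev : S →+* S := eval₂Hom C (Function.update y j w)
  have hev0 : ev (X 0) = 1 := by
    change eval₂Hom C (Function.update y j w) (X 0) = 1
    rw [eval₂Hom_X', Function.update_of_ne hj.symm]
    simp [y]
  have hker : RingHom.ker (awayHom ev hev0) = Ideal.span {evBB k n (linearForm a)} := by
    apply le_antisymm
    · intro c hc
      obtain ⟨x, rfl⟩ := evBB_surjective c
      have hx : ev x = 0 := by
        rw [← awayHom_comp_evBB ev hev0]
        exact hc
      -- modulo the ideal, `evBB ∘ ev = evBB`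
      let π := Ideal.Quotient.mk (Ideal.span {evBB k n (linearForm a)})
      have hy : ∀ i, evBB k n (y i) = evBB k n (X i) := by
        intro i
        by_cases hi : i = 0
        · subst hi
          simp only [y, if_pos, map_one, evBB_X_zero]
        · simp only [y, if_neg hi]
      have h1 : (π.comp (evBB k n)).comp ev = π.comp (evBB k n) := by
        apply MvPolynomial.ringHom_ext
        · intro c
          simp only [RingHom.comp_apply, ev, coe_eval₂Hom, eval₂_C]
        · intro i
          simp only [RingHom.comp_apply, ev, coe_eval₂Hom, eval₂_X]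
          by_cases hi : i = j
          · subst hi
            rw [Function.update_self]
            have h3 : evBB k n (∑ i, C (a i) * y i) = evBB k n (linearForm a) := by
              rw [linearForm, map_sum, map_sum]
              exact Finset.sum_congr rfl fun i _ => by rw [map_mul, map_mul, hy]
            have h4 : π (evBB k n (linearForm a)) = 0 :=
              Ideal.Quotient.eq_zero_iff_mem.mpr (Ideal.mem_span_singleton_self _)
            simp only [w]
            rw [map_sub, map_mul, h3, map_sub, map_mul, h4, mul_zero, sub_zero]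
          · rw [Function.update_of_ne hi, hy]
      have h2 : π (evBB k n x) = 0 := by
        change (π.comp (evBB k n)) x = 0
        rw [← h1, RingHom.comp_apply, hx, map_zero]
      exact Ideal.Quotient.eq_zero_iff_mem.mp h2
    · rw [Ideal.span_singleton_le_iff_mem, RingHom.mem_ker]
      change ((awayHom ev hev0).comp (evBB k n)) _ = 0
      rw [awayHom_comp_evBB]
      have h5 : ev (linearForm a) = ∑ i, C (a i) * Function.update y j w i := by
        rw [linearForm, map_sum]
        exact Finset.sum_congr rfl fun i _ => by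
          rw [map_mul]
          exact congrArg₂ (· * ·) (eval₂Hom_C _ _ _) (eval₂Hom_X' _ _ _)
      have h6 : ∑ i, C (a i) * Function.update y j w i =
          ∑ i, C (a i) * y i + C (a j) * (w - y j) := by
        rw [← sub_eq_iff_eq_add', ← Finset.sum_sub_distrib, Finset.sum_eq_single j]
        · rw [Function.update_self]; ring
        · intro i _ hi
          rw [Function.update_of_ne hi, sub_self]
        · intro h; exact absurd (Finset.mem_univ j) h
      have h7 : w - y j = - (C (a j)⁻¹ * ∑ i, C (a i) * y i) := by
        simp only [w, y, if_neg hj]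
        ring
      have h8 : (C (a j) : S) * C (a j)⁻¹ = 1 := by
        rw [← C_mul, mul_inv_cancel₀ ha, C_1]
      rw [h5, h6, h7, mul_neg, ← mul_assoc, h8, one_mul, add_neg_cancel]
  rw [← hker]
  exact RingHom.ker_isPrime _

end
end Pool.Agent.H91
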