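import Mathlib
set_option autoImplicit false
universe u
open AlgebraicGeometry CategoryTheory Limits TopologicalSpace Opposite
open Scheme.IdealSheafData

namespace Pool.Agent.H91

lemma support_vanishingIdeal' {X : Scheme.{u}} (Z : Closeds X) :
    (vanishingIdeal Z).support = Z := by
  ext1
  exact coe_support_vanishingIdeal Z

lemma radical_vanishingIdeal' {X : Scheme.{u}} (Z : Closeds X) :
    (vanishingIdeal Z).radical = vanishingIdeal Z := by
  rw [← vanishingIdeal_support, support_vanishingIdeal']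

lemma comap_vanishingIdeal {X Y : Scheme.{u}} (f : X ⟶ Y) [IsOpenImmersion f] (Z : Closeds Y) :
    (vanishingIdeal Z).comap f = vanishingIdeal (Z.preimage f.continuous) := by
  have h1 : ((vanishingIdeal Z).comap f).support = Z.preimage f.continuous := by
    rw [support_comap, support_vanishingIdeal']
  rw [← h1, vanishingIdeal_support]
  ext1
  funext U
  rw [radical_ideal, ideal_comap_of_isOpenImmersion, ← Ideal.comap_radical, ← radical_ideal,
    radical_vanishingIdeal']

/-- the ideal sheaf generated by a global section of an affine scheme is the vanishing ideal of the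
zero locus, if the ideal is radical. -/
lemma ofIdealTop_eq_vanishingIdeal {B : CommRingCat.{u}} (b : B) (hb : (Ideal.span {b}).IsRadical)
    (W : (Spec B).Opens) (hW : W = PrimeSpectrum.basicOpen b) :
    vanishingIdeal W.compl = ofIdealTop (Ideal.span {(Scheme.ΓSpecIso B).inv b}) := by
  have h1 : (ofIdealTop (Ideal.span {(Scheme.ΓSpecIso B).inv b}) :
      (Spec B).IdealSheafData).support = W.compl := by
    ext1
    rw [coe_support_ofIdealTop, Scheme.zeroLocus_span, Scheme.zeroLocus_singleton, hW,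
      basicOpen_eq_of_affine]
    rfl
  have h2 : (Ideal.span {(Scheme.ΓSpecIso B).inv b}).IsRadical := by
    have h3 : Ideal.span {(Scheme.ΓSpecIso B).inv b} =
        (Ideal.span {b}).comap (Scheme.ΓSpecIso B).hom.hom := by
      ext x
      rw [Ideal.mem_comap, Ideal.mem_span_singleton, Ideal.mem_span_singleton]
      constructor
      · rintro ⟨c, rfl⟩
        rw [map_mul]
        exact ⟨_, congrArg (· * _) (Iso.inv_hom_id_apply _ _)⟩
      · rintro ⟨c, hc⟩
        refine ⟨(Scheme.ΓSpecIso B).inv c, ?_⟩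
        have := congrArg (Scheme.ΓSpecIso B).inv hc
        rw [map_mul] at this
        rw [← this]
        exact (Iso.hom_inv_id_apply _ _).symm
    rw [h3]
    exact hb.comap _
  rw [← h1, vanishingIdeal_support]
  apply Scheme.IdealSheafData.ext_of_isAffine
  rw [radical_ideal]
  have h4 : (ofIdealTop (Ideal.span {(Scheme.ΓSpecIso B).inv b}) :
      (Spec B).IdealSheafData).ideal ⟨⊤, isAffineOpen_top _⟩ =
        Ideal.span {(Scheme.ΓSpecIso B).inv b} := by
    simp
  rw [h4, h2.radical]

lemma comap_ofIdealTop_span {X Y : Scheme.{u}} [IsAffine X] [IsAffine Y] (f : X ⟶ Y)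
    (b : Γ(Y, ⊤)) : (ofIdealTop (Ideal.span {b})).comap f =
      ofIdealTop (Ideal.span {f.appTop b}) := by
  have key : ∀ L : X.IdealSheafData, (ofIdealTop (Ideal.span {b})).comap f ≤ L ↔
      ofIdealTop (Ideal.span {f.appTop b}) ≤ L := by
    intro L
    rw [← le_map_iff_comap_le]
    have h1 : ∀ (W : Scheme.{u}) [IsAffine W] (I : Ideal Γ(W, ⊤)) (L : W.IdealSheafData),
        ofIdealTop I ≤ L ↔ I ≤ L.ideal ⟨⊤, isAffineOpen_top W⟩ := by
      intro W _ I L
      constructor
      · intro h
        have := h ⟨⊤, isAffineOpen_top W⟩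
        simpa using this
      · intro h
        apply le_of_isAffine
        simpa using h
    rw [h1, h1, ideal_map_of_isAffineHom, Ideal.span_singleton_le_iff_mem,
      Ideal.span_singleton_le_iff_mem, Ideal.mem_comap]
    rfl
  exact le_antisymm ((key _).mpr le_rfl) ((key _).mp le_rfl)

lemma comap_chart {P : Scheme.{u}} {B R : CommRingCat.{u}} (j : Spec B ⟶ P) [IsOpenImmersion j]
    (W : P.Opens) (b : B) (hW : j ⁻¹ᵁ W = PrimeSpectrum.basicOpen b)
    (hb : (Ideal.span {b}).IsRadical) (ψ : B ⟶ R) :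
    (vanishingIdeal W.compl).comap (Spec.map ψ ≫ j) =
      ofIdealTop (Ideal.span {(Scheme.ΓSpecIso R).inv (ψ b)}) := by
  have h1 : W.compl.preimage j.continuous = (j ⁻¹ᵁ W).compl := rfl
  rw [comap_comp, comap_vanishingIdeal, h1, ofIdealTop_eq_vanishingIdeal b hb _ hW,
    comap_ofIdealTop_span]
  have h2 := congrArg (fun g => g.hom b) (Scheme.ΓSpecIso_inv_naturality ψ)
  change (Scheme.ΓSpecIso R).inv (ψ b) = (Spec.map ψ).appTop ((Scheme.ΓSpecIso B).inv b) at h2
  rw [h2]

/-- The global sections of a hyperplane section of an affine scheme. -/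
theorem exists_sections {P : Scheme.{u}} {B R : CommRingCat.{u}} (j : Spec B ⟶ P)
    [IsOpenImmersion j] (W : P.Opens) (b : B) (hW : j ⁻¹ᵁ W = PrimeSpectrum.basicOpen b)
    (hb : (Ideal.span {b}).IsRadical) (ψ : B ⟶ R) :
    IsAffine (pullback (Spec.map ψ ≫ j) (vanishingIdeal W.compl).subschemeι) ∧
    ∃ π : R →+* Γ(pullback (Spec.map ψ ≫ j) (vanishingIdeal W.compl).subschemeι, ⊤),
      Function.Surjective π ∧ RingHom.ker π = Ideal.span {ψ b} := by
  let g := pullback.fst (Spec.map ψ ≫ j) (vanishingIdeal W.compl).subschemeι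
  have hg : IsClosedImmersion g := inferInstance
  obtain ⟨h1, h2⟩ := IsClosedImmersion.isAffine_surjective_of_isAffine g
  refine ⟨h1, g.appTop.hom.comp (Scheme.ΓSpecIso R).inv.hom, ?_, ?_⟩
  · rw [RingHom.coe_comp]
    exact h2.comp (Scheme.ΓSpecIso R).symm.commRingCatIsoToRingEquiv.surjective
  · have h3 : (g.ker).ideal ⟨⊤, isAffineOpen_top _⟩ = RingHom.ker g.appTop.hom :=
      Scheme.Hom.ker_apply g ⟨⊤, isAffineOpen_top _⟩
    have h4 : g.ker = ofIdealTop (Ideal.span {(Scheme.ΓSpecIso R).inv (ψ b)}) :=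
      comap_chart j W b hW hb ψ
    rw [h4] at h3
    have h5 : RingHom.ker g.appTop.hom = Ideal.span {(Scheme.ΓSpecIso R).inv (ψ b)} := by
      rw [← h3]
      simp
    ext x
    rw [RingHom.mem_ker, RingHom.comp_apply, ← RingHom.mem_ker, h5, Ideal.mem_span_singleton,
      Ideal.mem_span_singleton]
    constructor
    · rintro ⟨c, hc⟩
      refine ⟨(Scheme.ΓSpecIso R).hom c, ?_⟩
      have := congrArg (Scheme.ΓSpecIso R).hom hc
      rw [map_mul] at this
      exact ((Iso.inv_hom_id_apply (Scheme.ΓSpecIso R) x).symm.trans this).trans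
        (congrArg (· * _) (Iso.inv_hom_id_apply (Scheme.ΓSpecIso R) _))
    · rintro ⟨c, rfl⟩
      exact ⟨(Scheme.ΓSpecIso R).inv c, map_mul _ _ _⟩

/-- Points of an affine scheme. -/
theorem exists_point {Y : Scheme.{u}} [IsAffine Y] (p : Ideal Γ(Y, ⊤)) [hp : p.IsPrime] :
    ∃ (y : Y) (_ : Algebra Γ(Y, ⊤) (Y.presheaf.stalk y)),
      IsLocalization.AtPrime (Y.presheaf.stalk y) p :=
  ⟨(isAffineOpen_top Y).fromSpec ⟨p, hp⟩, TopCat.Presheaf.algebra_section_stalk Y.presheaf
    (⟨(isAffineOpen_top Y).fromSpec ⟨p, hp⟩, Opens.mem_top _⟩ : (⊤ : Y.Opens)),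
    (isAffineOpen_top Y).isLocalization_stalk' ⟨p, hp⟩ (Opens.mem_top _)⟩

end Pool.Agent.H91
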