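import Mathlib
set_option autoImplicit false
universe u
open CategoryTheory Opposite
variable {A : Type u} [CommRing A] {T T' M N : ModuleCat.{u} A}

noncomputable section
namespace Pool.Agent.H91

/-- the cochain complex Hom(P, M) -/
abbrev homCx (P : ProjectiveResolution T) (M : ModuleCat.{u} A) : CochainComplex (ModuleCat.{u} A) ℕ :=
  P.complex.linearYonedaObj A M

/-- map of complexes induced by φ -/
def homCxMap (P : ProjectiveResolution T) {M N : ModuleCat.{u} A} (φ : M ⟶ N) :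
    homCx P M ⟶ homCx P N :=
  ((HomologicalComplex.unopFunctor _ _).map
    ((NatTrans.mapHomologicalComplex (NatTrans.rightOp ((linearYoneda A (ModuleCat.{u} A)).map φ)) (ComplexShape.down ℕ)).app P.complex).op)

/-- map of complexes induced by a chain map -/
def homCxPre (P : ProjectiveResolution T) (P' : ProjectiveResolution T') (c : P.complex ⟶ P'.complex)
    (M : ModuleCat.{u} A) :
    homCx P' M ⟶ homCx P M :=
  ((HomologicalComplex.unopFunctor _ _).map
    (((((linearYoneda A (ModuleCat.{u} A)).obj M).rightOp.mapHomologicalComplex (ComplexShape.down ℕ)).map c).op))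

lemma homCxMap_f (P : ProjectiveResolution T) {M N : ModuleCat.{u} A} (φ : M ⟶ N) (n : ℕ)
    (f : P.complex.X n ⟶ M) : ((homCxMap P φ).f n).hom f = f ≫ φ := rfl

lemma homCxPre_f (P : ProjectiveResolution T) (P' : ProjectiveResolution T') (c : P.complex ⟶ P'.complex)
    (M : ModuleCat.{u} A) (n : ℕ)
    (f : P'.complex.X n ⟶ M) : ((homCxPre P P' c M).f n).hom f = c.f n ≫ f := rfl

lemma homCx_d (P : ProjectiveResolution T) (M : ModuleCat.{u} A) (m n : ℕ)
    (f : P.complex.X n ⟶ M) : ((homCx P M).d n m).hom f = P.complex.d m n ≫ f := rfl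

lemma abs_comp {C : Type*} [Category C] {X1 X2 X3 X4 X5 X6 : C} (aM : X1 ⟶ X2) (bM : X2 ⟶ X3)
    (bMi : X3 ⟶ X2) (L : X2 ⟶ X4) (bN : X4 ⟶ X5) (H : X1 ⟶ X6) (aN : X6 ⟶ X4)
    (h1 : bM ≫ bMi = 𝟙 _) (h2 : aM ≫ L = H ≫ aN) :
    (aM ≫ bM) ≫ ((bMi ≫ L) ≫ bN) = H ≫ aN ≫ bN := by
  rw [Category.assoc, Category.assoc, ← Category.assoc bM, h1, Category.id_comp,
    ← Category.assoc, h2, Category.assoc]

lemma abs_comp2 {C : Type*} [Category C] {X1 X2 X3 X4 X5 X6 : C} (aM : X1 ⟶ X2) (bM : X2 ⟶ X3)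
    (E : X3 ⟶ X5) (L : X2 ⟶ X4) (bN : X4 ⟶ X5) (H : X1 ⟶ X6) (aN : X6 ⟶ X4)
    (h1 : bM ≫ E = L ≫ bN) (h2 : aM ≫ L = H ≫ aN) :
    (aM ≫ bM) ≫ E = H ≫ aN ≫ bN := by
  rw [Category.assoc, h1, ← Category.assoc, h2, Category.assoc]

lemma isoExt_inv_naturality (P : ProjectiveResolution T) {M N : ModuleCat.{u} A} (φ : M ⟶ N) (n : ℕ) :
    (P.isoExt n M).inv ≫ ((Ext A (ModuleCat.{u} A) n).obj (op T)).map φ =
      HomologicalComplex.homologyMap (homCxMap P φ) n ≫ (P.isoExt n N).inv := by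
  have h1 : ((Ext A (ModuleCat.{u} A) n).obj (op T)).map φ =
    ((NatTrans.leftDerived (NatTrans.rightOp ((linearYoneda A (ModuleCat.{u} A)).map φ)) n).app T).unop := rfl
  rw [h1, ProjectiveResolution.leftDerived_app_eq _ P]
  have h2 := HomologicalComplex.homologyOp_hom_naturality (homCxMap P φ) n
  have h3 := congrArg Quiver.Hom.unop h2
  exact abs_comp ((homCx P M).homologyOp n).hom.unop
    (P.isoLeftDerivedObj ((linearYoneda A (ModuleCat.{u} A)).obj M).rightOp n).hom.unop
    (P.isoLeftDerivedObj ((linearYoneda A (ModuleCat.{u} A)).obj M).rightOp n).inv.unop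
    _
    (P.isoLeftDerivedObj ((linearYoneda A (ModuleCat.{u} A)).obj N).rightOp n).hom.unop
    (HomologicalComplex.homologyMap (homCxMap P φ) n) ((homCx P N).homologyOp n).hom.unop
    (congrArg Quiver.Hom.unop (P.isoLeftDerivedObj ((linearYoneda A (ModuleCat.{u} A)).obj M).rightOp n).inv_hom_id) h3

lemma isoExt_inv_naturality' (P : ProjectiveResolution T) (P' : ProjectiveResolution T')
    (ψ : T ⟶ T') (c : P.complex ⟶ P'.complex) (comm : c.f 0 ≫ P'.π.f 0 = P.π.f 0 ≫ ψ)
    (M : ModuleCat.{u} A) (n : ℕ) :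
    (P'.isoExt n M).inv ≫ ((Ext A (ModuleCat.{u} A) n).map ψ.op).app M =
      HomologicalComplex.homologyMap (homCxPre P P' c M) n ≫ (P.isoExt n M).inv := by
  have h1 : ((Ext A (ModuleCat.{u} A) n).map ψ.op).app M =
    ((((linearYoneda A (ModuleCat.{u} A)).obj M).rightOp.leftDerived n).map ψ).unop := rfl
  rw [h1]
  have h0 := ProjectiveResolution.isoLeftDerivedObj_hom_naturality ψ P P' c comm
    ((linearYoneda A (ModuleCat.{u} A)).obj M).rightOp n
  have h0' := congrArg Quiver.Hom.unop h0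
  have h2 := HomologicalComplex.homologyOp_hom_naturality (homCxPre P P' c M) n
  have h3 := congrArg Quiver.Hom.unop h2
  exact abs_comp2 ((homCx P' M).homologyOp n).hom.unop
    (P'.isoLeftDerivedObj ((linearYoneda A (ModuleCat.{u} A)).obj M).rightOp n).hom.unop
    ((((linearYoneda A (ModuleCat.{u} A)).obj M).rightOp.leftDerived n).map ψ).unop
    _
    (P.isoLeftDerivedObj ((linearYoneda A (ModuleCat.{u} A)).obj M).rightOp n).hom.unop
    (HomologicalComplex.homologyMap (homCxPre P P' c M) n) ((homCx P M).homologyOp n).hom.unop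
    h0' h3

/-- The value at `M` of the `n`-th derived functor of `Hom` of Mathlib, on the object `T`. -/
abbrev oldExt (T M : ModuleCat.{u} A) (n : ℕ) : ModuleCat.{u} A :=
  ((Ext A (ModuleCat.{u} A) n).obj (op T)).obj M

/-- The element `x` of `Ext` is represented by the cocycle `f`. -/
def Rep (P : ProjectiveResolution T) (M : ModuleCat.{u} A) (n : ℕ)
    (x : oldExt T M n) (f : P.complex.X n ⟶ M) : Prop :=
  ∃ z : (homCx P M).cycles n, ((homCx P M).iCycles n).hom z = f ∧
    x = (P.isoExt n M).inv.hom (((homCx P M).homologyπ n).hom z)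

lemma Rep.cocycle {P : ProjectiveResolution T} {M : ModuleCat.{u} A} {n : ℕ}
    {x : oldExt T M n} {f : P.complex.X n ⟶ M} (h : Rep P M n x f) :
    P.complex.d (n + 1) n ≫ f = 0 := by
  obtain ⟨z, rfl, -⟩ := h
  have := (homCx P M).iCycles_d n (n + 1)
  have h2 := congrArg (fun g => g.hom z) this
  exact h2

lemma exists_rep (P : ProjectiveResolution T) (M : ModuleCat.{u} A) (n : ℕ)
    (x : oldExt T M n) : ∃ f, Rep P M n x f := by
  obtain ⟨y, hy⟩ : ∃ y, (P.isoExt n M).inv.hom y = x :=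
    ⟨(P.isoExt n M).hom.hom x, by simp⟩
  have hs : Function.Surjective ((homCx P M).homologyπ n).hom :=
    (ModuleCat.epi_iff_surjective _).mp inferInstance
  obtain ⟨z, hz⟩ := hs y
  exact ⟨_, z, rfl, by rw [hz, hy]⟩

lemma exists_rep_of_cocycle (P : ProjectiveResolution T) (M : ModuleCat.{u} A) (n : ℕ)
    (f : P.complex.X n ⟶ M) (hf : P.complex.d (n + 1) n ≫ f = 0) :
    ∃ x, Rep P M n x f := by
  let k : ModuleCat.of A A ⟶ (homCx P M).X n :=
    ModuleCat.ofHom (LinearMap.toSpanSingleton A ((homCx P M).X n) f)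
  have hk : k ≫ (homCx P M).d n (n + 1) = 0 := by
    ext
    change ((homCx P M).d n (n + 1)).hom ((1 : A) • f) = 0
    rw [one_smul]
    exact hf
  refine ⟨_, ((homCx P M).liftCycles k (n + 1) (by simp) hk).hom (1 : A), ?_, rfl⟩
  have h := (homCx P M).liftCycles_i k (n + 1) (by simp) hk
  have h2 := congrArg (fun g => g.hom (1 : A)) h
  refine h2.trans ?_
  exact one_smul A f

lemma iCycles_inj (P : ProjectiveResolution T) (M : ModuleCat.{u} A) (n : ℕ) :
    Function.Injective ((homCx P M).iCycles n).hom :=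
  (ModuleCat.mono_iff_injective _).mp inferInstance

lemma Rep.unique {P : ProjectiveResolution T} {M : ModuleCat.{u} A} {n : ℕ}
    {x y : oldExt T M n} {f : P.complex.X n ⟶ M} (h : Rep P M n x f) (h' : Rep P M n y f) :
    x = y := by
  obtain ⟨z, hz, rfl⟩ := h
  obtain ⟨z', hz', rfl⟩ := h'
  have : z = z' := iCycles_inj P M n (hz.trans hz'.symm)
  rw [this]

lemma Rep.zero {P : ProjectiveResolution T} {M : ModuleCat.{u} A} {n : ℕ} :
    Rep P M n (0 : oldExt T M n) 0 := ⟨0, map_zero _, by rw [map_zero, map_zero]⟩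

lemma Rep.eq_zero_of_succ {P : ProjectiveResolution T} {M : ModuleCat.{u} A} {n : ℕ}
    {x : oldExt T M (n + 1)} {f : P.complex.X (n + 1) ⟶ M} (h : Rep P M (n + 1) x f)
    (g : P.complex.X n ⟶ M) (hg : P.complex.d (n + 1) n ≫ g = f) : x = 0 := by
  obtain ⟨z, hz, rfl⟩ := h
  have h1 : z = ((homCx P M).toCycles n (n + 1)).hom g := by
    apply iCycles_inj
    rw [hz, ← hg]
    have := (homCx P M).toCycles_i n (n + 1)
    exact (congrArg (fun k => k.hom g) this).symm
  rw [h1]
  have h2 := (homCx P M).toCycles_comp_homologyπ n (n + 1)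
  have h3 := congrArg (fun k => k.hom g) h2
  have h4 : ((homCx P M).homologyπ (n + 1)).hom (((homCx P M).toCycles n (n + 1)).hom g) = 0 := h3
  rw [h4, map_zero]

lemma Rep.exists_of_eq_zero {P : ProjectiveResolution T} {M : ModuleCat.{u} A} {n : ℕ}
    {f : P.complex.X (n + 1) ⟶ M} (h : Rep P M (n + 1) (0 : oldExt T M (n + 1)) f) :
    ∃ g : P.complex.X n ⟶ M, P.complex.d (n + 1) n ≫ g = f := by
  obtain ⟨z, hz, h0⟩ := h
  have hinj : Function.Injective
      (P.isoExt (R := A) (C := ModuleCat.{u} A) (n + 1) M).inv.hom :=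
    (ModuleCat.mono_iff_injective _).mp inferInstance
  have h1 : ((homCx P M).homologyπ (n + 1)).hom z = 0 := by
    apply hinj
    rw [← h0, map_zero]
  have hex : (ShortComplex.mk ((homCx P M).toCycles n (n + 1)) ((homCx P M).homologyπ (n + 1))
    ((homCx P M).toCycles_comp_homologyπ n (n + 1))).Exact :=
    ShortComplex.exact_of_g_is_cokernel _ ((homCx P M).homologyIsCokernel n (n + 1) (by simp))
  rw [ShortComplex.moduleCat_exact_iff] at hex
  obtain ⟨g, hg⟩ := hex z h1
  refine ⟨g, ?_⟩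
  rw [← hz]
  have hg' : ((homCx P M).toCycles n (n + 1)).hom g = z := hg
  rw [← hg']
  have := (homCx P M).toCycles_i n (n + 1)
  exact (congrArg (fun k => k.hom g) this).symm

lemma Rep.eq_zero_of_zero {P : ProjectiveResolution T} {M : ModuleCat.{u} A} {n : ℕ}
    {x : oldExt T M n} (h : Rep P M n x 0) : x = 0 := h.unique Rep.zero

lemma Rep.map {P : ProjectiveResolution T} {M N : ModuleCat.{u} A} {n : ℕ}
    {x : oldExt T M n} {f : P.complex.X n ⟶ M} (h : Rep P M n x f) (φ : M ⟶ N) :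
    Rep P N n ((((Ext A (ModuleCat.{u} A) n).obj (op T)).map φ).hom x) (f ≫ φ) := by
  obtain ⟨z, hz, rfl⟩ := h
  refine ⟨(HomologicalComplex.cyclesMap (homCxMap P φ) n).hom z, ?_, ?_⟩
  · have := HomologicalComplex.cyclesMap_i (homCxMap P φ) n
    refine (congrArg (fun k => k.hom z) this).trans ?_
    change ((homCxMap P φ).f n).hom (((homCx P M).iCycles n).hom z) = _
    rw [hz]
    rfl
  · have h1 := isoExt_inv_naturality P φ n
    have h2 := congrArg (fun k => k.hom (((homCx P M).homologyπ n).hom z)) h1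
    refine h2.trans ?_
    have h3 := HomologicalComplex.homologyπ_naturality (homCxMap P φ) n
    have h4 := congrArg (fun k => k.hom z) h3
    have h5 : (HomologicalComplex.homologyMap (homCxMap P φ) n).hom
      (((homCx P M).homologyπ n).hom z) = ((homCx P N).homologyπ n).hom
        ((HomologicalComplex.cyclesMap (homCxMap P φ) n).hom z) := h4
    rw [← h5]
    rfl

lemma Rep.restrict {P : ProjectiveResolution T} {P' : ProjectiveResolution T'}
    {M : ModuleCat.{u} A} {n : ℕ}
    {x : oldExt T' M n} {f : P'.complex.X n ⟶ M} (h : Rep P' M n x f)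
    (ψ : T ⟶ T') (c : P.complex ⟶ P'.complex) (comm : c.f 0 ≫ P'.π.f 0 = P.π.f 0 ≫ ψ) :
    Rep P M n ((((Ext A (ModuleCat.{u} A) n).map ψ.op).app M).hom x) (c.f n ≫ f) := by
  obtain ⟨z, hz, rfl⟩ := h
  refine ⟨(HomologicalComplex.cyclesMap (homCxPre P P' c M) n).hom z, ?_, ?_⟩
  · have := HomologicalComplex.cyclesMap_i (homCxPre P P' c M) n
    refine (congrArg (fun k => k.hom z) this).trans ?_
    change ((homCxPre P P' c M).f n).hom (((homCx P' M).iCycles n).hom z) = _
    rw [hz]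
    rfl
  · have h1 := isoExt_inv_naturality' P P' ψ c comm M n
    have h2 := congrArg (fun k => k.hom (((homCx P' M).homologyπ n).hom z)) h1
    refine h2.trans ?_
    have h3 := HomologicalComplex.homologyπ_naturality (homCxPre P P' c M) n
    have h4 := congrArg (fun k => k.hom z) h3
    have h5 : (HomologicalComplex.homologyMap (homCxPre P P' c M) n).hom
      (((homCx P' M).homologyπ n).hom z) = ((homCx P M).homologyπ n).hom
        ((HomologicalComplex.cyclesMap (homCxPre P P' c M) n).hom z) := h4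
    rw [← h5]
    rfl

/-- The element `e` of the derived-category `Ext` and the element `x` of the derived-functor `Ext`
are represented by the same cocycle. -/
def Link (T M : ModuleCat.{u} A) (n : ℕ) (e : Abelian.Ext.{u} T M n) (x : oldExt T M n) : Prop :=
  ∃ (P : ProjectiveResolution T) (f : P.complex.X n ⟶ M) (hf : P.complex.d (n + 1) n ≫ f = 0),
    e = P.extMk f (n + 1) rfl hf ∧ Rep P M n x f

lemma exists_link_new {T M : ModuleCat.{u} A} {n : ℕ} (e : Abelian.Ext.{u} T M n) :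
    ∃ x, Link T M n e x := by
  let P := projectiveResolution T
  obtain ⟨f, hf, rfl⟩ := P.extMk_surjective e (n + 1) rfl
  obtain ⟨x, hx⟩ := exists_rep_of_cocycle P M n f hf
  exact ⟨x, P, f, hf, rfl, hx⟩

lemma exists_link_old {T M : ModuleCat.{u} A} {n : ℕ} (x : oldExt T M n) :
    ∃ e, Link T M n e x := by
  let P := projectiveResolution T
  obtain ⟨f, hf⟩ := exists_rep P M n x
  exact ⟨_, P, f, hf.cocycle, rfl, hf⟩

lemma Link.map {T M N : ModuleCat.{u} A} {n : ℕ} {e : Abelian.Ext.{u} T M n} {x : oldExt T M n}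
    (h : Link T M n e x) (φ : M ⟶ N) :
    Link T N n (e.comp (Abelian.Ext.mk₀ φ) (add_zero n))
      ((((Ext A (ModuleCat.{u} A) n).obj (op T)).map φ).hom x) := by
  obtain ⟨P, f, hf, rfl, hr⟩ := h
  refine ⟨P, f ≫ φ, (hr.map φ).cocycle, ?_, hr.map φ⟩
  exact P.extMk_comp_mk₀ f (n + 1) rfl hf φ

lemma Link.eq_zero_iff {T M : ModuleCat.{u} A} {n : ℕ} {e : Abelian.Ext.{u} T M (n + 1)}
    {x : oldExt T M (n + 1)} (h : Link T M (n + 1) e x) : e = 0 ↔ x = 0 := by
  obtain ⟨P, f, hf, rfl, hr⟩ := h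
  rw [P.extMk_eq_zero_iff f (n + 1 + 1) rfl hf n rfl]
  constructor
  · rintro ⟨g, hg⟩
    exact hr.eq_zero_of_succ g hg
  · rintro rfl
    exact hr.exists_of_eq_zero

lemma Link.restrict {T T' M : ModuleCat.{u} A} {n : ℕ} {e : Abelian.Ext.{u} T' M n}
    {x : oldExt T' M n} (h : Link T' M n e x) (ψ : T ⟶ T') :
    Link T M n ((Abelian.Ext.mk₀ ψ).comp e (zero_add n))
      ((((Ext A (ModuleCat.{u} A) n).map ψ.op).app M).hom x) := by
  obtain ⟨P', f, hf, rfl, hr⟩ := h
  let P := projectiveResolution T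
  let c : P.complex ⟶ P'.complex := ProjectiveResolution.lift ψ P P'
  have hc : c.f 0 ≫ P'.π.f 0 = P.π.f 0 ≫ ψ := ProjectiveResolution.lift_commutes_zero ψ P P'
  have hc' : c.f 0 ≫ P'.π.f 0 =
      P.π.f 0 ≫ ((ChainComplex.single₀ (ModuleCat.{u} A)).map ψ).f 0 := by
    rw [hc]
    simp
  have hr' := hr.restrict ψ c hc
  refine ⟨P, c.f n ≫ f, hr'.cocycle, ?_, hr'⟩
  exact ProjectiveResolution.mk₀_comp_extMk f (n + 1) rfl hf (⟨c, hc'⟩ : ProjectiveResolution.Hom P P' ψ)

end Pool.Agent.H91
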