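import Mathlib

set_option autoImplicit false

universe u

open CategoryTheory Abelian RingTheory.Sequence Pointwise

namespace Pool.Agent.H91

variable {A : Type u} [CommRing A]

/-- the module `M/aM` as an object of the module category -/
abbrev qMod (a : A) (M : ModuleCat.{u} A) : ModuleCat.{u} A := ModuleCat.of A (QuotSMulTop a M)

/-- the map `M/aM → N/aN` induced by a morphism -/
noncomputable def quotMap (a : A) {M N : ModuleCat.{u} A} (φ : M ⟶ N) :
    qMod a M ⟶ qMod a N :=
  ModuleCat.ofHom (QuotSMulTop.map a φ.hom)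

/-- the map of short complexes `(M → M → M/aM) ⟶ (N → N → N/aN)` -/
noncomputable def smulShortComplexMap (a : A) {M N : ModuleCat.{u} A} (φ : M ⟶ N) :
    M.smulShortComplex a ⟶ N.smulShortComplex a where
  τ₁ := φ
  τ₂ := φ
  τ₃ := quotMap a φ
  comm₁₂ := by
    ext x
    exact ((φ.hom).map_smul a x).symm
  comm₂₃ := by
    ext x
    rfl

/-- the connecting class of `0 → M → M → M/aM → 0` -/
noncomputable def dcl {M : ModuleCat.{u} A} {a : A} (hM : IsSMulRegular M a) :
    Ext (qMod a M) M 1 := hM.smulShortComplex_shortExact.extClass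

/-- Naturality of the connecting class for multiplication by `a`. -/
lemma dcl_quotMap {a : A} {M N : ModuleCat.{u} A} (φ : M ⟶ N)
    (hM : IsSMulRegular M a) (hN : IsSMulRegular N a) :
    (dcl hM).comp (Ext.mk₀ φ) (add_zero 1) =
      (Ext.mk₀ (quotMap a φ)).comp (dcl hN) (zero_add 1) :=
  ShortComplex.ShortExact.extClass_naturality hM.smulShortComplex_shortExact
    hN.smulShortComplex_shortExact (smulShortComplexMap a φ)

lemma comp_smul_eq_zero {T M : ModuleCat.{u} A} {a : A} (ha : a ∈ Module.annihilator A T) {n : ℕ}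
    (e : Ext T M n) : e.comp (Ext.mk₀ (M.smulShortComplex a).f) (add_zero n) = 0 := by
  have h := Ext.postcomp_smul_id_eq_zero_of_mem_annihilator (N := T) (M := M) ha n
  have := congrArg (fun f => f.hom e) h
  exact this

/-- Every class in `Ext^{n+1}(T, M)` comes from `Ext^n(T, M/aM)` if `a` kills `T`. -/
lemma exists_lift {T M : ModuleCat.{u} A} {a : A} (ha : a ∈ Module.annihilator A T)
    (hM : IsSMulRegular M a) {n : ℕ} (e : Ext T M (n + 1)) :
    ∃ e' : Ext T (qMod a M) n, e'.comp (dcl hM) rfl = e :=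
  Ext.covariant_sequence_exact₁ T hM.smulShortComplex_shortExact e (comp_smul_eq_zero ha e) rfl

lemma lift_zero_imp {T M : ModuleCat.{u} A} {a : A}
    (hM : IsSMulRegular M a) {n : ℕ} (hsub : Subsingleton (Ext T M n))
    (e' : Ext T (qMod a M) n)
    (h : e'.comp (dcl hM) rfl = 0) : e' = 0 := by
  obtain ⟨y, hy⟩ := Ext.covariant_sequence_exact₃ T hM.smulShortComplex_shortExact e' rfl h
  have hy0 : y = 0 := @Subsingleton.elim _ hsub y 0
  rw [← hy, hy0]
  simp only [Ext.zero_comp]
  rfl

lemma lift_comp {T M N : ModuleCat.{u} A} {a : A} (φ : M ⟶ N)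
    (hM : IsSMulRegular M a) (hN : IsSMulRegular N a) {n : ℕ}
    (e' : Ext T (qMod a M) n) :
    (e'.comp (dcl hM) rfl).comp (Ext.mk₀ φ) (add_zero (n + 1)) =
      (e'.comp (Ext.mk₀ (quotMap a φ)) (add_zero n)).comp (dcl hN) rfl := by
  rw [Ext.comp_assoc (a₁₂ := n + 1) (a₂₃ := 1) (a := n + 1) e' _ _ rfl (add_zero 1) (by lia),
    dcl_quotMap φ hM hN,
    ← Ext.comp_assoc (a₁₂ := n) (a₂₃ := 1) (a := n + 1) e' _ _ (add_zero n) (zero_add 1) (by lia)]

lemma hom_subsingleton {T M : ModuleCat.{u} A} {a : A} (ha : a ∈ Module.annihilator A T)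
    (hM : IsSMulRegular M a) : Subsingleton (T →ₗ[A] M) := by
  refine ⟨fun f g => ?_⟩
  ext x
  apply hM
  change a • f x = a • g x
  rw [← map_smul, ← map_smul, Module.mem_annihilator.mp ha x, map_zero, map_zero]

/-- Vanishing of `Ext^i(T, M)` for `i` less than the length of an `M`-weakly regular sequence
killing `T`. -/
lemma ext_subsingleton {T : ModuleCat.{u} A} (rs : List A) :
    ∀ (M : ModuleCat.{u} A), (∀ r ∈ rs, r ∈ Module.annihilator A T) → IsWeaklyRegular M rs →
      ∀ i < rs.length, Subsingleton (Ext T M i) := by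
  induction rs with
  | nil => intro M _ _ i hi; simp at hi
  | cons a rs ih =>
    intro M hT hM i hi
    rw [isWeaklyRegular_cons_iff] at hM
    have haT := hT a List.mem_cons_self
    cases i with
    | zero =>
      have : Subsingleton (T →ₗ[A] M) := hom_subsingleton haT hM.1
      exact (Ext.addEquiv₀.trans ModuleCat.homAddEquiv).subsingleton
    | succ i =>
      have hs := ih (qMod a M) (fun r hr => hT r (List.mem_cons_of_mem _ hr))
        hM.2 i (by simpa using hi)
      refine ⟨fun x y => ?_⟩
      obtain ⟨x', rfl⟩ := exists_lift haT hM.1 x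
      obtain ⟨y', rfl⟩ := exists_lift haT hM.1 y
      rw [hs.elim x' y']

/-- The submodule `(rs) M`. -/
abbrev lsub (rs : List A) (M : ModuleCat.{u} A) : Submodule A M :=
  Ideal.ofList rs • (⊤ : Submodule A M)

lemma mem_lsub_cons_iff (a : A) (rs : List A) (M : ModuleCat.{u} A) (m : M) :
    m ∈ lsub (a :: rs) M ↔
      (Submodule.Quotient.mk m : QuotSMulTop a M) ∈ lsub rs (qMod a M) := by
  rw [lsub, Ideal.ofList_cons_smul]
  have hmap : lsub rs (qMod a M) =
      Submodule.map (Submodule.mkQ (a • (⊤ : Submodule A M))) (Ideal.ofList rs • ⊤) := by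
    rw [Submodule.map_smul'', Submodule.map_top, Submodule.range_mkQ]
  rw [hmap]
  constructor
  · intro h
    obtain ⟨y, hy, z, hz, rfl⟩ := Submodule.mem_sup.mp h
    refine ⟨z, hz, ?_⟩
    rw [Submodule.mkQ_apply]
    refine (Submodule.Quotient.eq _).mpr ?_
    have : z - (y + z) = -y := by abel
    rw [this]
    exact neg_mem hy
  · rintro ⟨z, hz, hz'⟩
    rw [Submodule.mkQ_apply] at hz'
    have := (Submodule.Quotient.eq _).mp hz'
    have h2 : m = -(z - m) + z := by abel
    rw [h2]
    exact Submodule.add_mem_sup (neg_mem this) hz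

/-- Injectivity of `Ext^d(T, M) → Ext^d(T, N)` when `rs` has length `d`, is weakly regular on
`M` and `N`, kills `T`, and `M/(rs)M → N/(rs)N` is injective. -/
lemma ext_map_injective {T : ModuleCat.{u} A} (rs : List A) :
    ∀ (M N : ModuleCat.{u} A) (φ : M ⟶ N), (∀ r ∈ rs, r ∈ Module.annihilator A T) →
      IsWeaklyRegular M rs → IsWeaklyRegular N rs →
      (∀ m : M, φ.hom m ∈ lsub rs N → m ∈ lsub rs M) →
      ∀ e : Ext T M rs.length, e.comp (Ext.mk₀ φ) (add_zero _) = 0 → e = 0 := by
  induction rs with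
  | nil =>
    intro M N φ _ _ _ hinj e he
    have hmono : Mono φ := by
      rw [ModuleCat.mono_iff_injective]
      intro x y hxy
      have := hinj (x - y) (by
        rw [map_sub, sub_eq_zero.mpr hxy]; exact zero_mem _)
      simpa [lsub, sub_eq_zero] using this
    exact (injective_iff_map_eq_zero _).mp (Ext.postcomp_mk₀_injective_of_mono T φ) e he
  | cons a rs ih =>
    intro M N φ hT hM hN hinj e he
    have hM' := hM
    have hN' := hN
    rw [isWeaklyRegular_cons_iff] at hM hN
    have haT := hT a List.mem_cons_self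
    obtain ⟨e', rfl⟩ := exists_lift haT hM.1 e
    rw [lift_comp φ hM.1 hN.1] at he
    have h1 := lift_zero_imp hN.1
      (ext_subsingleton (a :: rs) N hT hN' rs.length (by simp)) _ he
    have h2 := ih (qMod a M) (qMod a N) (quotMap a φ)
      (fun r hr => hT r (List.mem_cons_of_mem _ hr)) hM.2 hN.2 (by
        intro m hm
        obtain ⟨m, rfl⟩ := Submodule.Quotient.mk_surjective _ m
        rw [← mem_lsub_cons_iff]
        apply hinj
        rw [mem_lsub_cons_iff]
        exact hm) e' h1
    rw [h2]
    simp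

/-- Existence of a nonzero class killed by `φ`. -/
lemma exists_ext_ne_zero {T : ModuleCat.{u} A} (rs : List A) :
    ∀ (M N : ModuleCat.{u} A) (φ : M ⟶ N), (∀ r ∈ rs, r ∈ Module.annihilator A T) →
      IsWeaklyRegular M rs → IsWeaklyRegular N rs →
      (f : T →ₗ[A] (M ⧸ lsub rs M)) → f ≠ 0 →
      (∀ (t : T) (m : M), Submodule.Quotient.mk m = f t → φ.hom m ∈ lsub rs N) →
      ∃ e : Ext T M rs.length, e ≠ 0 ∧ e.comp (Ext.mk₀ φ) (add_zero _) = 0 := by
  induction rs with
  | nil =>
    intro M N φ _ _ _ f hf hker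
    have hbot : lsub ([] : List A) M = ⊥ := by simp [lsub]
    have hbotN : lsub ([] : List A) N = ⊥ := by simp [lsub]
    let g : T ⟶ M := ModuleCat.ofHom ((Submodule.quotEquivOfEqBot _ hbot).toLinearMap ∘ₗ f)
    refine ⟨Ext.mk₀ g, ?_, ?_⟩
    · intro h
      have h0 : g = 0 := by
        apply (Ext.mk₀_bijective T M).1
        rw [h]
        simp
      apply hf
      ext t
      have h2 : g.hom t = 0 := by rw [h0]; rfl
      exact (LinearEquiv.map_eq_zero_iff (Submodule.quotEquivOfEqBot _ hbot)).mp h2
    · rw [Ext.mk₀_comp_mk₀]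
      have : g ≫ φ = 0 := by
        ext t
        have h3 := hker t (g.hom t) (by
          change Submodule.Quotient.mk ((Submodule.quotEquivOfEqBot _ hbot) (f t)) = f t
          obtain ⟨y, hy⟩ := Submodule.Quotient.mk_surjective _ (f t)
          rw [← hy]
          rfl)
        rw [hbotN] at h3
        exact (Submodule.mem_bot A).mp h3
      rw [this]
      simp
  | cons a rs ih =>
    intro M N φ hT hM hN f hf hker
    have hM' := hM
    have hN' := hN
    rw [isWeaklyRegular_cons_iff] at hM hN
    have haT := hT a List.mem_cons_self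
    -- the natural map `M/(a::rs)M → (M/aM)/(rs)`
    let p : (M ⧸ lsub (a :: rs) M) →ₗ[A] ((qMod a M) ⧸ lsub rs (qMod a M)) :=
      Submodule.mapQ _ _ (Submodule.mkQ (a • (⊤ : Submodule A M))) (by
        intro m hm
        exact (mem_lsub_cons_iff a rs M m).mp hm)
    have hp : Function.Injective p := by
      rw [injective_iff_map_eq_zero]
      intro x hx
      obtain ⟨m, rfl⟩ := Submodule.Quotient.mk_surjective _ x
      have : (Submodule.Quotient.mk m : QuotSMulTop a M) ∈ lsub rs (qMod a M) := by
        have hx' : (Submodule.Quotient.mk (Submodule.Quotient.mk m : QuotSMulTop a M) :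
          (qMod a M) ⧸ lsub rs (qMod a M)) = 0 := hx
        exact (Submodule.Quotient.mk_eq_zero _).mp hx'
      exact (Submodule.Quotient.mk_eq_zero _).mpr ((mem_lsub_cons_iff a rs M m).mpr this)
    obtain ⟨e', he', hφ⟩ := ih (qMod a M) (qMod a N) (quotMap a φ)
      (fun r hr => hT r (List.mem_cons_of_mem _ hr)) hM.2 hN.2 (p ∘ₗ f) (by
        intro h
        apply hf
        ext t
        apply hp
        have := LinearMap.congr_fun h t
        simpa using this) (by
        intro t m hm
        obtain ⟨m, rfl⟩ := Submodule.Quotient.mk_surjective _ m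
        have hm2 : (Submodule.Quotient.mk m : M ⧸ lsub (a :: rs) M) = f t := by
          apply hp
          exact hm
        have := hker t m hm2
        exact (mem_lsub_cons_iff a rs N _).mp this)
    refine ⟨e'.comp (dcl hM.1) rfl, ?_, ?_⟩
    · intro h
      exact he' (lift_zero_imp hM.1 (ext_subsingleton (a :: rs) M hT hM' rs.length (by simp)) _ h)
    · rw [lift_comp φ hM.1 hN.1, hφ]
      simp

end Pool.Agent.H91
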