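import Mathlib
import Pool.Agent.helper91.ExtBridge
import Pool.Agent.helper91.ExtLemmas
set_option autoImplicit false
universe u
open CategoryTheory Opposite Limits localCohomology
variable {A : Type u} [CommRing A]

namespace Pool.Agent.H91

lemma preservesColimitsOfShape_forget (J : Type) [SmallCategory J] [IsFiltered J] :
    PreservesColimitsOfShape J (forget (ModuleCat.{u} A)) := by
  have : PreservesFilteredColimitsOfSize.{u, u} (forget (ModuleCat.{u} A)) := inferInstance
  have := preservesFilteredColimitsOfSize_shrink.{0, u, 0, u} (forget (ModuleCat.{u} A))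
  infer_instance

lemma colim_exists_rep {J : Type} [SmallCategory J] [IsFiltered J]
    (F : J ⥤ ModuleCat.{u} A ⥤ ModuleCat.{u} A) (M : ModuleCat.{u} A)
    (x : (colimit F).obj M) : ∃ (j : J) (y : (F.obj j).obj M), ((colimit.ι F j).app M).hom y = x := by
  have := preservesColimitsOfShape_forget (A := A) J
  have hc := isColimitOfPreserves ((evaluation (ModuleCat.{u} A) (ModuleCat.{u} A)).obj M)
    (colimit.isColimit F)
  obtain ⟨j, y, hy⟩ := Concrete.isColimit_exists_rep _ hc x
  exact ⟨j, y, hy⟩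

lemma colim_eq_zero {J : Type} [SmallCategory J] [IsFiltered J]
    (F : J ⥤ ModuleCat.{u} A ⥤ ModuleCat.{u} A) (M : ModuleCat.{u} A) (j : J)
    (y : (F.obj j).obj M) (h : ((colimit.ι F j).app M).hom y = 0) :
    ∃ (j' : J) (f : j ⟶ j'), ((F.map f).app M).hom y = 0 := by
  have := preservesColimitsOfShape_forget (A := A) J
  have hc := isColimitOfPreserves ((evaluation (ModuleCat.{u} A) (ModuleCat.{u} A)).obj M)
    (colimit.isColimit F)
  obtain ⟨j', f, g, hfg⟩ := Concrete.isColimit_exists_of_rep_eq (F ⋙ ((evaluation (ModuleCat.{u} A) (ModuleCat.{u} A)).obj M)) hc y (0 : (F.obj j).obj M) (h.trans (map_zero _).symm)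
  exact ⟨j', f, hfg.trans (map_zero _)⟩

lemma ofList_pow_le (xs : List A) {m n : ℕ} (h : m ≤ n) :
    Ideal.ofList (xs.map (· ^ n)) ≤ Ideal.ofList (xs.map (· ^ m)) := by
  rw [Ideal.ofList, Ideal.span_le]
  intro y hy
  obtain ⟨x, hx, rfl⟩ := List.mem_map.mp hy
  have h2 : x ^ m ∈ Ideal.ofList (xs.map (· ^ m)) :=
    Ideal.subset_span (List.mem_map.mpr ⟨x, hx, rfl⟩)
  change x ^ n ∈ Ideal.ofList (xs.map (· ^ m))
  rw [← Nat.sub_add_cancel h, pow_add]
  exact Ideal.mul_mem_left _ _ h2

lemma ofList_radical (xs : List A) (n : ℕ) :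
    Ideal.ofList xs ≤ (Ideal.ofList (xs.map (· ^ (n + 1)))).radical := by
  rw [Ideal.ofList, Ideal.span_le]
  intro y hy
  exact ⟨n + 1, Ideal.subset_span (List.mem_map.mpr ⟨y, hy, rfl⟩)⟩

/-- the diagram `N ↦ (x_1^{N+1}, ..., x_d^{N+1})` -/
def xDiagram (xs : List A) : ℕᵒᵖ ⥤ Ideal A where
  obj t := Ideal.ofList (xs.map (· ^ (unop t + 1)))
  map w := homOfLE (ofList_pow_le xs (Nat.add_le_add_right (leOfHom w.unop) 1))

/-- lift to the diagram of all ideals whose radical contains `J` -/
def xDiagramLift (J : Ideal A) (xs : List A) (h : J ≤ (Ideal.ofList xs).radical) :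
    ℕᵒᵖ ⥤ SelfLERadical J :=
  ObjectProperty.lift _ (xDiagram xs) fun t => by
    change J ≤ (Ideal.ofList (xs.map (· ^ (unop t + 1)))).radical
    exact h.trans ((Ideal.radical_mono (ofList_radical xs _)).trans (by rw [Ideal.radical_idem]))

lemma xDiagramLift_initial [IsNoetherianRing A] (J : Ideal A) (xs : List A)
    (hxs : ∀ x ∈ xs, x ∈ J)
    (h : J ≤ (Ideal.ofList xs).radical) : Functor.Initial (xDiagramLift J xs h) where
  out J' := by
    apply +allowSynthFailures zigzag_isConnected
    · obtain ⟨k, hk⟩ := Ideal.exists_pow_le_of_le_radical_of_fg J'.2 ((isNoetherianRing_iff_ideal_fg A).mp inferInstance J)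
      have hk' : Ideal.ofList (xs.map (· ^ (k + 1))) ≤ J'.1 := by
        rw [Ideal.ofList, Ideal.span_le]
        intro y hy
        obtain ⟨x, hx, rfl⟩ := List.mem_map.mp hy
        apply hk
        have : x ^ (k + 1) ∈ J ^ (k + 1) := Ideal.pow_mem_pow (hxs x hx) _
        exact Ideal.pow_le_pow_right (Nat.le_succ k) this
      exact ⟨CostructuredArrow.mk (⟨⟨⟨hk'⟩⟩⟩ : (xDiagramLift J xs h).obj (op k) ⟶ J')⟩
    · intro j1 j2
      apply Relation.ReflTransGen.single
      rcases le_total (unop j1.left) (unop j2.left) with h | h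
      · right; exact ⟨CostructuredArrow.homMk (homOfLE h).op rfl⟩
      · left; exact ⟨CostructuredArrow.homMk (homOfLE h).op rfl⟩

/-- the local cohomology computed by the diagram of powers of parameters -/
noncomputable def lcIso [IsNoetherianRing A] (J : Ideal A) (xs : List A) (hxs : ∀ x ∈ xs, x ∈ J)
    (h : J ≤ (Ideal.ofList xs).radical) (i : ℕ) :
    localCohomology.{u} J i ≅ ofDiagram.{u, 0} (xDiagram xs) i :=
  have := xDiagramLift_initial J xs hxs h
  have : IsNoetherian A A := inferInstance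
  (isoSelfLERadical J i).symm ≪≫
    (localCohomology.isoOfFinal.{u, u, 0} (xDiagramLift J xs h)
    (selfLERadicalDiagram.{u} J) i).symm ≪≫
      HasColimit.isoOfNatIso.{0, 0, u + 1, u + 1} (Iso.refl.{u + 1, u + 1} _)

/-- the quotient by the `t`-th power of the parameters -/
abbrev xQuot (xs : List A) (t : ℕ) : ModuleCat.{u} A :=
  ModuleCat.of A (A ⧸ Ideal.ofList (xs.map (· ^ (t + 1))))

/-- the projection between two such quotients -/
noncomputable def xProj (xs : List A) {t t' : ℕ} (h : t ≤ t') : xQuot xs t' ⟶ xQuot xs t :=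
  ModuleCat.ofHom (Submodule.mapQ _ _ LinearMap.id
    (ofList_pow_le xs (Nat.add_le_add_right h 1)))

lemma map_injective_of_natIso {F G : ModuleCat.{u} A ⥤ ModuleCat.{u} A} (e : F ≅ G)
    {M N : ModuleCat.{u} A} (φ : M ⟶ N) (h : Function.Injective (G.map φ).hom) :
    Function.Injective (F.map φ).hom := by
  have key : ∀ x, (G.map φ).hom ((e.hom.app M).hom x) = (e.hom.app N).hom ((F.map φ).hom x) := by
    intro x
    have h1 := congrArg (fun k => k.hom x) (e.hom.naturality φ)
    exact h1.symm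
  have key2 : ∀ x, (e.inv.app M).hom ((e.hom.app M).hom x) = x := by
    intro x
    have h1 := congrArg (fun k => k.hom x) (e.hom_inv_id_app M)
    exact h1
  intro x y hxy
  have h2 : (e.hom.app M).hom x = (e.hom.app M).hom y := by
    apply h
    rw [key, key, hxy]
  rw [← key2 x, h2, key2]

lemma lc_map_injective_iff [IsNoetherianRing A] (J : Ideal A) (xs : List A) (hxs : ∀ x ∈ xs, x ∈ J)
    (h : J ≤ (Ideal.ofList xs).radical) (i : ℕ) {M N : ModuleCat.{u} A} (φ : M ⟶ N) :
    Function.Injective ((localCohomology.{u} J i).map φ).hom ↔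
      Function.Injective ((ofDiagram.{u, 0} (xDiagram xs) i).map φ).hom :=
  ⟨map_injective_of_natIso (lcIso J xs hxs h i).symm φ,
    map_injective_of_natIso (lcIso J xs hxs h i) φ⟩

lemma lc_map_injective_of [IsNoetherianRing A] (J : Ideal A) (xs : List A) (hxs : ∀ x ∈ xs, x ∈ J)
    (h : J ≤ (Ideal.ofList xs).radical) (i : ℕ) {M N : ModuleCat.{u} A} (φ : M ⟶ N)
    (H : ∀ (t : ℕ) (y : oldExt (xQuot xs t) M i),
      (((Ext A (ModuleCat.{u} A) i).obj (op (xQuot xs t))).map φ).hom y = 0 → y = 0) :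
    Function.Injective ((localCohomology.{u} J i).map φ).hom := by
  rw [lc_map_injective_iff J xs hxs h, injective_iff_map_eq_zero]
  intro x hx
  let F := diagram (xDiagram xs) i
  obtain ⟨j, y, rfl⟩ := colim_exists_rep F M x
  have h1 : ((colimit.ι F j).app N).hom (((F.obj j).map φ).hom y) = 0 := by
    have := (colimit.ι F j).naturality φ
    have h2 := congrArg (fun k => k.hom y) this
    exact h2.trans hx
  obtain ⟨j', f, hf⟩ := colim_eq_zero F N j _ h1
  have h3 : ((F.obj j').map φ).hom (((F.map f).app M).hom y) = 0 := by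
    have := (F.map f).naturality φ
    have h2 := congrArg (fun k => k.hom y) this
    exact h2.symm.trans hf
  have h4 : ((F.map f).app M).hom y = 0 := H (unop (unop j')) _ h3
  have h5 := colimit.w F f
  have h6 := congrArg (fun k => (k.app M).hom y) h5
  rw [← h6]
  change ((colimit.ι F j').app M).hom (((F.map f).app M).hom y) = 0
  rw [h4, map_zero]

lemma lc_map_not_injective_of [IsNoetherianRing A] (J : Ideal A) (xs : List A)
    (hxs : ∀ x ∈ xs, x ∈ J)
    (h : J ≤ (Ideal.ofList xs).radical) (i : ℕ) {M N : ModuleCat.{u} A} (φ : M ⟶ N)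
    (t : ℕ) (y : oldExt (xQuot xs t) M i)
    (H0 : (((Ext A (ModuleCat.{u} A) i).obj (op (xQuot xs t))).map φ).hom y = 0)
    (H : ∀ (t' : ℕ) (htt' : t ≤ t'),
      (((Ext A (ModuleCat.{u} A) i).map (xProj xs htt').op).app M).hom y ≠ 0) :
    ¬ Function.Injective ((localCohomology.{u} J i).map φ).hom := by
  rw [lc_map_injective_iff J xs hxs h, injective_iff_map_eq_zero]
  intro hinj
  let F := diagram (xDiagram xs) i
  let j : (ℕᵒᵖ)ᵒᵖ := op (op t)
  have h1 : ((colimit.ι F j).app M).hom y = 0 := by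
    apply hinj
    have := (colimit.ι F j).naturality φ
    have h2 := congrArg (fun k => k.hom y) this
    refine h2.symm.trans ?_
    exact (congrArg ((colimit.ι F j).app N).hom H0).trans (map_zero _)
  obtain ⟨j', f, hf⟩ := colim_eq_zero F M j _ h1
  exact H (unop (unop j')) (leOfHom f.unop.unop) hf

end Pool.Agent.H91
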