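import Mathlib
import Pool.Agent.helper91.LocalCoh
import Pool.Agent.helper91.Defs
set_option autoImplicit false
universe u
open CategoryTheory Opposite Limits localCohomology IsLocalRing RingTheory.Sequence

namespace Pool.Agent.H91

variable {A : Type u} [CommRing A]

/-- Lemma A: a Frobenius splitting gives F-injectivity. -/
theorem isFInjective_of_splitting [IsLocalRing A] (p : ℕ) [ExpChar A p] (σ : A → A)
    (hadd : ∀ a b, σ (a + b) = σ a + σ b) (hmul : ∀ a b, σ (a ^ p * b) = a * σ b)
    (h1 : σ 1 = 1) : IsFInjectiveLocalRing A p := by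
  intro i
  let s : frobMod A p ⟶ ModuleCat.of A A :=
    ModuleCat.ofHom (X := frobMod A p)
      { toFun := fun a => σ a
        map_add' := hadd
        map_smul' := fun a b => hmul a b }
  have hs : frobHom A p ≫ s = 𝟙 _ := by
    ext
    change σ ((1 : A) ^ p) = 1
    rw [one_pow, h1]
  have h2 : (localCohomology (maximalIdeal A) i).map (frobHom A p) ≫
      (localCohomology (maximalIdeal A) i).map s = 𝟙 _ := by
    rw [← Functor.map_comp, hs, CategoryTheory.Functor.map_id]
  intro x y hxy
  have h3 : ∀ z, ((localCohomology (maximalIdeal A) i).map s).hom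
    (((localCohomology (maximalIdeal A) i).map (frobHom A p)).hom z) = z := fun z =>
    congrArg (fun k => k.hom z) h2
  rw [← h3 x, hxy, h3]

lemma frobMod_isWeaklyRegular_iff (p : ℕ) [ExpChar A p] (rs : List A) :
    IsWeaklyRegular (frobMod A p) rs ↔ IsWeaklyRegular A (rs.map (· ^ p)) := by
  let e : (frobMod A p) ≃+ A := AddEquiv.refl A
  refine e.isWeaklyRegular_congr ?_
  rw [List.forall₂_map_right_iff, List.forall₂_same]
  intro r _ x
  rfl

lemma mem_lsub_self (rs : List A) (a : A) :
    a ∈ lsub rs (ModuleCat.of A A) ↔ a ∈ Ideal.ofList rs := by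
  have : lsub rs (ModuleCat.of A A) = Ideal.ofList rs := by
    change (Ideal.ofList rs : Ideal A) • (⊤ : Ideal A) = _
    rw [smul_eq_mul, Ideal.mul_top]
  rw [this]

lemma mem_lsub_frob (p : ℕ) [ExpChar A p] (rs : List A) (a : A) :
    (show frobMod A p from a) ∈ lsub rs (frobMod A p) ↔ a ∈ Ideal.ofList (rs.map (· ^ p)) := by
  constructor
  · intro h
    refine Submodule.smul_induction_on (p := fun (x : frobMod A p) => (show A from x) ∈ Ideal.ofList (rs.map (· ^ p))) h ?_ ?_
    · intro r hr n _
      change r ^ p * (show A from n) ∈ _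
      refine Ideal.mul_mem_right _ _ ?_
      refine Submodule.span_induction (p := fun x _ => x ^ p ∈ Ideal.ofList (rs.map (· ^ p))) ?_ ?_ ?_ ?_ hr
      · intro x hx
        exact Ideal.subset_span (List.mem_map.mpr ⟨x, hx, rfl⟩)
      · change (0 : A) ^ p ∈ _
        rw [zero_pow (expChar_ne_zero A p)]
        exact zero_mem _
      · intro x y _ _ hx hy
        rw [add_pow_expChar]
        exact add_mem hx hy
      · intro b x _ hx
        rw [smul_eq_mul, mul_pow]
        exact Ideal.mul_mem_left _ _ hx
    · intro x y hx hy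
      exact add_mem hx hy
  · intro h
    refine Submodule.span_induction (p := fun (x : A) _ => (show frobMod A p from x) ∈ lsub rs (frobMod A p)) ?_ ?_ ?_ ?_ h
    · intro x hx
      obtain ⟨y, hy, rfl⟩ := List.mem_map.mp hx
      have h1 : y • (show frobMod A p from (1 : A)) ∈ lsub rs (frobMod A p) :=
        Submodule.smul_mem_smul (Ideal.subset_span hy) trivial
      have h2 : y • (show frobMod A p from (1 : A)) = (show frobMod A p from (y ^ p : A)) :=
        mul_one (y ^ p)
      rw [h2] at h1
      exact h1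
    · exact zero_mem _
    · intro x y _ _ hx hy
      exact add_mem hx hy
    · intro b x _ hx
      change (show frobMod A p from (b * x : A)) ∈ lsub rs (frobMod A p)
      refine Submodule.smul_induction_on
        (p := fun (y : frobMod A p) => (show frobMod A p from (b * (show A from y) : A)) ∈
          lsub rs (frobMod A p)) hx ?_ ?_
      · intro r hr n _
        have h3 : (show frobMod A p from (b * (show A from (r • n)) : A)) =
            r • (show frobMod A p from (b * (show A from n) : A)) := mul_left_comm b (r ^ p) _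
        change (show frobMod A p from (b * (show A from (r • n)) : A)) ∈ lsub rs (frobMod A p)
        rw [h3]
        exact Submodule.smul_mem_smul hr trivial
      · intro y z hy hz
        have h3 : (show frobMod A p from (b * (show A from (y + z)) : A)) =
          (show frobMod A p from (b * (show A from y) : A)) +
          (show frobMod A p from (b * (show A from z) : A)) := mul_add b _ _
        change (show frobMod A p from (b * (show A from (y + z)) : A)) ∈ lsub rs (frobMod A p)
        rw [h3]
        exact add_mem hy hz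

/-- The kernel restriction lemma. -/
lemma restrict_ne_zero {T T' M : ModuleCat.{u} A} (ψ : T' ⟶ T) [Epi ψ] (rs : List A) (n : ℕ)
    (hn : n < rs.length)
    (hT : ∀ r ∈ rs, r ∈ Module.annihilator A T') (hM : IsWeaklyRegular M rs)
    (e : Abelian.Ext.{u} T M (n + 1)) (he : (Abelian.Ext.mk₀ ψ).comp e (zero_add (n + 1)) = 0) :
    e = 0 := by
  let S : ShortComplex (ModuleCat.{u} A) := ShortComplex.mk (kernel.ι ψ) ψ (kernel.condition ψ)
  have hS : S.ShortExact :=
    { exact := ShortComplex.exact_of_f_is_kernel _ (kernelIsKernel ψ)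
      mono_f := inferInstanceAs (Mono (kernel.ι ψ))
      epi_g := inferInstanceAs (Epi ψ) }
  obtain ⟨x, hx⟩ := Abelian.Ext.contravariant_sequence_exact₃ hS M e he (n₀ := n) (by lia)
  have hinj : Function.Injective (kernel.ι ψ).hom := (ModuleCat.mono_iff_injective _).mp inferInstance
  have hK : ∀ r ∈ rs, r ∈ Module.annihilator A (kernel ψ : ModuleCat.{u} A) := by
    intro r hr
    rw [Module.mem_annihilator]
    intro m
    apply hinj
    rw [map_smul, map_zero]
    exact Module.mem_annihilator.mp (hT r hr) _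
  have hsub := ext_subsingleton rs M hK hM n hn
  have hx0 : x = 0 := @Subsingleton.elim _ hsub x 0
  rw [← hx, hx0, Abelian.Ext.comp_zero]


lemma mem_annihilator_xQuot (xs : List A) (t : ℕ) :
    ∀ r ∈ xs.map (· ^ (t + 1)), r ∈ Module.annihilator A (xQuot xs t) := by
  intro r hr
  rw [Module.mem_annihilator]
  intro m
  obtain ⟨a, rfl⟩ := Ideal.Quotient.mk_surjective m
  change Ideal.Quotient.mk (Ideal.ofList (xs.map (· ^ (t + 1)))) (r * a) = 0
  rw [Ideal.Quotient.eq_zero_iff_mem]
  exact Ideal.mul_mem_right _ _ (Ideal.subset_span hr)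

lemma xProj_epi (xs : List A) {t t' : ℕ} (h : t ≤ t') : Epi (xProj xs h) := by
  rw [ModuleCat.epi_iff_surjective]
  intro m
  obtain ⟨a, rfl⟩ := Submodule.Quotient.mk_surjective _ m
  exact ⟨Submodule.Quotient.mk a, rfl⟩

/-- Lemma C: the failure of F-injectivity. -/
theorem not_isFInjective_of [IsLocalRing A] [IsNoetherianRing A] (p : ℕ) [ExpChar A p]
    (xs : List A) (hne : xs ≠ []) (hxs : ∀ x ∈ xs, x ∈ maximalIdeal A)
    (hrad : maximalIdeal A ≤ (Ideal.ofList xs).radical)
    (hreg : ∀ n : ℕ, IsWeaklyRegular A (xs.map (· ^ (n + 1))))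
    (g : A) (hg : g ∉ Ideal.ofList xs) (hgp : g ^ p ∈ Ideal.ofList (xs.map (· ^ p))) :
    ¬ IsFInjectiveLocalRing A p := by
  intro H
  obtain ⟨m, hm⟩ : ∃ m, xs.length = m + 1 := by
    cases xs with
    | nil => exact absurd rfl hne
    | cons a l => exact ⟨l.length, rfl⟩
  -- the class
  have h01 : xs.map (· ^ (0 + 1)) = xs := by simp
  let rs := xs.map (· ^ (0 + 1))
  have hlen : rs.length = m + 1 := by rw [List.length_map, hm]
  let f : xQuot xs 0 →ₗ[A] ((ModuleCat.of A A : ModuleCat.{u} A) ⧸ lsub rs (ModuleCat.of A A)) :=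
    Submodule.mapQ (Ideal.ofList rs) (lsub rs (ModuleCat.of A A)) (LinearMap.mulRight A g) (by
      intro a ha
      change a * g ∈ lsub rs (ModuleCat.of A A)
      rw [mem_lsub_self]
      exact Ideal.mul_mem_right _ _ ha)
  have hf : f ≠ 0 := by
    intro h0
    apply hg
    have h1 := LinearMap.congr_fun h0 (Submodule.Quotient.mk (1 : A))
    have h2 : (Submodule.Quotient.mk ((1 : A) * g) :
      (ModuleCat.of A A : ModuleCat.{u} A) ⧸ lsub rs (ModuleCat.of A A)) = 0 := h1
    rw [Submodule.Quotient.mk_eq_zero, one_mul, mem_lsub_self] at h2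
    have h01' : rs = xs := h01
    rwa [h01'] at h2
  have hker : ∀ (t : xQuot xs 0) (a : (ModuleCat.of A A : ModuleCat.{u} A)),
      Submodule.Quotient.mk a = f t → (frobHom A p).hom a ∈ lsub rs (frobMod A p) := by
    intro t a hta
    obtain ⟨b, rfl⟩ := Submodule.Quotient.mk_surjective _ t
    have h2 : (Submodule.Quotient.mk a :
      (ModuleCat.of A A : ModuleCat.{u} A) ⧸ lsub rs (ModuleCat.of A A)) =
      Submodule.Quotient.mk (b * g) := hta
    rw [Submodule.Quotient.eq, mem_lsub_self] at h2
    change (show frobMod A p from (show A from a) ^ p) ∈ lsub rs (frobMod A p)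
    rw [mem_lsub_frob]
    have h3 : (show A from a) ^ p = ((show A from a) - b * g) ^ p + b ^ p * g ^ p := by
      rw [sub_pow_expChar, mul_pow]
      ring
    rw [h3]
    have h4 : Ideal.ofList (rs.map (· ^ p)) = Ideal.ofList (xs.map (· ^ p)) := by
      change Ideal.ofList ((xs.map (· ^ (0 + 1))).map (· ^ p)) = _
      rw [h01]
    refine add_mem ?_ ?_
    · have h5 := (mem_lsub_frob p rs (((show A from a) - b * g) ^ p)).mp (by
        have h6 : ∀ c ∈ Ideal.ofList rs, (show frobMod A p from c ^ p) ∈ lsub rs (frobMod A p) := by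
          intro c hc
          have h7 : (show frobMod A p from c ^ p) = c • (show frobMod A p from (1 : A)) :=
            (mul_one (c ^ p)).symm
          rw [h7]
          exact Submodule.smul_mem_smul hc trivial
        exact h6 _ h2)
      exact h5
    · rw [h4]
      exact Ideal.mul_mem_left _ _ hgp
  have hreg0 : IsWeaklyRegular (ModuleCat.of A A : ModuleCat.{u} A) rs := hreg 0
  have hregF : ∀ n : ℕ, IsWeaklyRegular (frobMod A p) (xs.map (· ^ (n + 1))) := by
    intro n
    rw [frobMod_isWeaklyRegular_iff, List.map_map]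
    have h8 := hreg ((n + 1) * p - 1)
    have h9 : ∀ x : A, (fun y => y ^ ((n + 1) * p - 1 + 1)) x =
        ((fun y => y ^ p) ∘ (fun y => y ^ (n + 1))) x := by
      intro x
      have hp : 0 < p := expChar_pos A p
      have : (n + 1) * p - 1 + 1 = (n + 1) * p :=
        Nat.sub_add_cancel (Nat.mul_pos (Nat.succ_pos n) hp)
      simp only [Function.comp]
      rw [this, pow_mul]
    rw [show ((fun y : A => y ^ p) ∘ (fun y => y ^ (n + 1))) =
      (fun y => y ^ ((n + 1) * p - 1 + 1)) from (funext h9).symm]
    exact h8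
  obtain ⟨e, he0, heφ⟩ := exists_ext_ne_zero (T := xQuot xs 0) rs (ModuleCat.of A A) (frobMod A p)
    (frobHom A p) (mem_annihilator_xQuot xs 0) hreg0 (hregF 0) f hf hker
  have key : ∀ (d : ℕ) (hd : d = m + 1) (e : Abelian.Ext.{u} (xQuot xs 0) (ModuleCat.of A A) d),
      e ≠ 0 → e.comp (Abelian.Ext.mk₀ (frobHom A p)) (add_zero _) = 0 → False := by
    rintro d rfl e he0 heφ
    obtain ⟨y, hy⟩ := exists_link_new e
    refine lc_map_not_injective_of (maximalIdeal A) xs hxs hrad (m + 1) (frobHom A p) 0 y ?_ ?_
      (H (m + 1))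
    · exact ((hy.map (frobHom A p)).eq_zero_iff).mp heφ
    · intro t' ht' h0
      apply he0
      have := xProj_epi xs ht'
      refine restrict_ne_zero (xProj xs ht') (xs.map (· ^ (t' + 1))) m
        (by rw [List.length_map, hm]; exact Nat.lt_succ_self m)
        (mem_annihilator_xQuot xs t') (hreg t') e ?_
      exact ((hy.restrict (xProj xs ht')).eq_zero_iff).mpr h0
  exact key rs.length hlen e he0 heφ

lemma oldExt_zero_of_hom {T M : ModuleCat.{u} A} (h : ∀ g : T ⟶ M, g = 0) (x : oldExt T M 0) :
    x = 0 := by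
  let P := projectiveResolution T
  obtain ⟨f, hf⟩ := exists_rep P M 0 x
  have hd : P.complex.d 1 0 ≫ f = 0 := hf.cocycle
  obtain ⟨g, hg⟩ : ∃ g : T ⟶ M, P.π.f 0 ≫ g = f := by
    have hex := P.exact₀
    exact ⟨hex.desc f hd, hex.g_desc f hd⟩
  have hg0 : g = 0 := h g
  have hf0 : f = 0 := by
    rw [← hg, hg0]
    simp
  rw [hf0] at hf
  exact hf.eq_zero_of_zero

/-- Lemma B: F-injectivity of Cohen-Macaulay local rings. -/
theorem isFInjective_of [IsLocalRing A] [IsNoetherianRing A] (p : ℕ) [ExpChar A p]
    (xs : List A) (hne : xs ≠ []) (hxs : ∀ x ∈ xs, x ∈ maximalIdeal A)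
    (hrad : maximalIdeal A ≤ (Ideal.ofList xs).radical)
    (hreg : ∀ n : ℕ, IsWeaklyRegular A (xs.map (· ^ (n + 1))))
    (hcl : ∀ (n : ℕ) (a : A), a ^ p ∈ Ideal.ofList (xs.map (· ^ ((n + 1) * p))) →
      a ∈ Ideal.ofList (xs.map (· ^ (n + 1)))) :
    IsFInjectiveLocalRing A p := by
  have hreg' : ∀ n : ℕ, IsWeaklyRegular (ModuleCat.of A A : ModuleCat.{u} A) (xs.map (· ^ (n + 1))) :=
    hreg
  have hregF : ∀ n : ℕ, IsWeaklyRegular (frobMod A p) (xs.map (· ^ (n + 1))) := by
    intro n
    rw [frobMod_isWeaklyRegular_iff, List.map_map]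
    have h8 := hreg ((n + 1) * p - 1)
    have h9 : ∀ x : A, (fun y => y ^ ((n + 1) * p - 1 + 1)) x =
        ((fun y => y ^ p) ∘ (fun y => y ^ (n + 1))) x := by
      intro x
      have hp : 0 < p := expChar_pos A p
      have : (n + 1) * p - 1 + 1 = (n + 1) * p :=
        Nat.sub_add_cancel (Nat.mul_pos (Nat.succ_pos n) hp)
      simp only [Function.comp]
      rw [this, pow_mul]
    rw [show ((fun y : A => y ^ p) ∘ (fun y => y ^ (n + 1))) =
      (fun y => y ^ ((n + 1) * p - 1 + 1)) from (funext h9).symm]
    exact h8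
  have hpd : ∀ t : ℕ, HasProjectiveDimensionLT (xQuot xs t) (xs.length + 1) := by
    intro t
    have h1 := ModuleCat.projectiveDimension_quotient_eq_add_length_of_isWeaklyRegular
      (ModuleCat.of A A) (xs.map (· ^ (t + 1))) (hreg' t) (by
        intro r hr
        obtain ⟨x, hx, rfl⟩ := List.mem_map.mp hr
        exact Ideal.pow_mem_of_mem _ (hxs x hx) _ (Nat.succ_pos t))
    have h0 : projectiveDimension (ModuleCat.of A A : ModuleCat.{u} A) = 0 :=
      ModuleCat.projectiveDimension_eq_zero_of_projective (ModuleCat.of A A)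
    rw [h0, zero_add, List.length_map] at h1
    have h2 : Ideal.ofList (xs.map (· ^ (t + 1))) • (⊤ : Submodule A A) =
        Ideal.ofList (xs.map (· ^ (t + 1))) := by
      rw [smul_eq_mul, Ideal.mul_top]
    have e : xQuot xs t ≅ ModuleCat.of A ((ModuleCat.of A A : ModuleCat.{u} A) ⧸
        Ideal.ofList (xs.map (· ^ (t + 1))) • (⊤ : Submodule A (ModuleCat.of A A : ModuleCat.{u} A))) :=
      (Submodule.quotEquivOfEq _ _ h2.symm).toModuleIso
    rw [← projectiveDimension_lt_iff, projectiveDimension_eq_of_iso e, h1]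
    exact_mod_cast Nat.lt_succ_self xs.length
  intro i
  apply lc_map_injective_of (maximalIdeal A) xs hxs hrad i (frobHom A p)
  intro t y hy
  cases i with
  | zero =>
    apply oldExt_zero_of_hom
    intro g
    obtain ⟨x, l, rfl⟩ : ∃ x l, xs = x :: l := by
      cases xs with
      | nil => exact absurd rfl hne
      | cons a l => exact ⟨a, l, rfl⟩
    have hr := hreg t
    rw [List.map_cons, isWeaklyRegular_cons_iff] at hr
    have hs := hom_subsingleton (T := xQuot (x :: l) t) (M := ModuleCat.of A A) (a := x ^ (t + 1))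
      (mem_annihilator_xQuot (x :: l) t _ (by simp)) hr.1
    ext1
    exact hs.elim _ _
  | succ i =>
    obtain ⟨e, he⟩ := exists_link_old y
    apply he.eq_zero_iff.mp
    rcases lt_trichotomy (i + 1) xs.length with hlt | heq | hgt
    · have := ext_subsingleton (T := xQuot xs t) (xs.map (· ^ (t + 1))) (ModuleCat.of A A)
        (mem_annihilator_xQuot xs t) (hreg' t) (i + 1) (by rwa [List.length_map])
      exact this.elim _ _
    · have hφ : e.comp (Abelian.Ext.mk₀ (frobHom A p)) (add_zero _) = 0 :=
        ((he.map (frobHom A p)).eq_zero_iff).mpr hy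
      have key : ∀ (d : ℕ) (hd : d = (xs.map (· ^ (t + 1))).length)
          (e : Abelian.Ext.{u} (xQuot xs t) (ModuleCat.of A A) d),
          e.comp (Abelian.Ext.mk₀ (frobHom A p)) (add_zero _) = 0 → e = 0 := by
        rintro d rfl e heφ
        refine ext_map_injective (T := xQuot xs t) (xs.map (· ^ (t + 1))) (ModuleCat.of A A)
          (frobMod A p) (frobHom A p) (mem_annihilator_xQuot xs t) (hreg' t) (hregF t) ?_ e heφ
        intro a ha
        rw [mem_lsub_self]
        apply hcl t
        have h1 := (mem_lsub_frob p (xs.map (· ^ (t + 1))) ((show A from a) ^ p)).mp ha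
        rw [List.map_map] at h1
        rw [show ((fun y : A => y ^ p) ∘ (fun y => y ^ (t + 1))) =
          (fun y => y ^ ((t + 1) * p)) from by
            funext y
            simp only [Function.comp]
            rw [pow_mul]] at h1
        exact h1
      exact key (i + 1) (by rw [List.length_map, heq]) e hφ
    · have := hpd t
      exact HasProjectiveDimensionLT.subsingleton (xQuot xs t) (xs.length + 1) (i + 1) hgt
        (ModuleCat.of A A) |>.elim _ _

end Pool.Agent.H91
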