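import Mathlib
import Pool.Agent.helper91.FInj
set_option autoImplicit false
universe u
open IsLocalRing RingTheory.Sequence

namespace Pool.Agent.H91

variable {R : Type u} [CommRing R]

lemma ofList_map_map {S : Type u} [CommRing S] (f : R →+* S) (xs : List R) :
    Ideal.ofList (xs.map f) = (Ideal.ofList xs).map f := by
  rw [Ideal.ofList, Ideal.ofList, Ideal.map_span]
  congr 1
  ext y
  simp

/-- Lemma B for localizations. -/
theorem isFInjective_localization [IsNoetherianRing R] (p : ℕ) [ExpChar R p]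
    (𝔭 : Ideal R) [𝔭.IsPrime] (L : Type u) [CommRing L] [Algebra R L] [IsLocalization.AtPrime L 𝔭]
    [IsLocalRing L] [ExpChar L p]
    (xs : List R) (hne : xs ≠ []) (hxs : ∀ x ∈ xs, x ∈ 𝔭)
    (hrad : 𝔭 ≤ (Ideal.ofList xs).radical)
    (hreg : ∀ n : ℕ, IsWeaklyRegular R (xs.map (· ^ (n + 1))))
    (hcl : ∀ (n : ℕ) (a : R), a ^ p ∈ Ideal.ofList (xs.map (· ^ ((n + 1) * p))) →
      a ∈ Ideal.ofList (xs.map (· ^ (n + 1)))) :
    IsFInjectiveLocalRing L p := by
  have hN : IsNoetherianRing L := IsLocalization.isNoetherianRing 𝔭.primeCompl L inferInstance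
  have hpow : ∀ n : ℕ, (xs.map (algebraMap R L)).map (· ^ n) =
      (xs.map (· ^ n)).map (algebraMap R L) := by
    intro n
    rw [List.map_map, List.map_map]
    congr 1
    funext x
    simp
  have hp : 0 < p := expChar_pos R p
  refine isFInjective_of p (xs.map (algebraMap R L)) ?_ ?_ ?_ ?_ ?_
  · intro h
    exact hne (List.map_eq_nil_iff.mp h)
  · intro x hx
    obtain ⟨y, hy, rfl⟩ := List.mem_map.mp hx
    rw [IsLocalization.AtPrime.to_map_mem_maximal_iff L 𝔭]
    exact hxs y hy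
  · intro y hy
    obtain ⟨a, s, rfl⟩ := IsLocalization.exists_mk'_eq 𝔭.primeCompl y
    have ha : a ∈ 𝔭 := (IsLocalization.AtPrime.mk'_mem_maximal_iff L 𝔭 a s).mp hy
    obtain ⟨n, hn⟩ := hrad ha
    refine ⟨n, ?_⟩
    rw [ofList_map_map, ← IsLocalization.mk'_pow]
    rw [IsLocalization.mem_map_algebraMap_iff 𝔭.primeCompl]
    refine ⟨⟨⟨a ^ n, hn⟩, s ^ n⟩, ?_⟩
    exact IsLocalization.mk'_spec L (a ^ n) (s ^ n)
  · intro n
    rw [hpow]
    exact IsWeaklyRegular.of_isLocalization L 𝔭.primeCompl (hreg n)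
  · intro n y hy
    rw [hpow, ofList_map_map] at hy ⊢
    obtain ⟨a, s, rfl⟩ := IsLocalization.exists_mk'_eq 𝔭.primeCompl y
    rw [← IsLocalization.mk'_pow, IsLocalization.mem_map_algebraMap_iff 𝔭.primeCompl] at hy
    obtain ⟨⟨⟨b, hb⟩, t⟩, hbt⟩ := hy
    simp only at hbt
    -- `a^p t = b s^p` after multiplying
    have h1 : algebraMap R L (a ^ p * t) = algebraMap R L (b * s ^ p) := by
      have h2 := IsLocalization.mk'_spec L (a ^ p) (s ^ p)
      rw [map_mul, map_mul, ← h2, ← hbt]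
      simp only [SubmonoidClass.coe_pow]
      ring
    obtain ⟨c, hc⟩ := (IsLocalization.eq_iff_exists 𝔭.primeCompl L).mp h1
    have h3 : (c * t * a) ^ p ∈ Ideal.ofList (xs.map (· ^ ((n + 1) * p))) := by
      have h4 : ((c : R) * t * a) ^ p = ((c : R) ^ (p - 1) * t ^ (p - 1) * c * s ^ p) * b := by
        have h5 : ((c : R) * t * a) ^ p = ((c : R) ^ (p - 1) * t ^ (p - 1)) * (c * (a ^ p * t)) := by
          obtain ⟨q, rfl⟩ : ∃ q, p = q + 1 := ⟨p - 1, by omega⟩
          simp only [Nat.add_sub_cancel]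
          ring
        rw [h5, hc]
        ring
      rw [h4]
      exact Ideal.mul_mem_left _ _ hb
    have h6 := hcl n _ h3
    rw [IsLocalization.mem_map_algebraMap_iff 𝔭.primeCompl]
    refine ⟨⟨⟨_, h6⟩, c * t * s⟩, ?_⟩
    simp only [Submonoid.coe_mul, map_mul]
    have h7 := IsLocalization.mk'_spec L a s
    rw [← h7]
    ring

/-- Lemma A for localizations. -/
theorem isFInjective_localization_of_map (p : ℕ) [ExpChar R p]
    (𝔭 : Ideal R) [𝔭.IsPrime] (L : Type u) [CommRing L] [Algebra R L] [IsLocalization.AtPrime L 𝔭]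
    [IsLocalRing L] [ExpChar L p] (σ : R → R)
    (hadd : ∀ a b, σ (a + b) = σ a + σ b) (hmul : ∀ a b, σ (a ^ p * b) = a * σ b)
    (h1 : σ 1 ∉ 𝔭) : IsFInjectiveLocalRing L p := by
  have hp : 0 < p := expChar_pos R p
  -- the extension to `L`
  have hwd : ∀ y : L, ∃ z : L, ∀ (a : R) (s : 𝔭.primeCompl), IsLocalization.mk' L a s = y →
      z = IsLocalization.mk' L (σ ((s : R) ^ (p - 1) * a)) s := by
    intro y
    obtain ⟨a, s, rfl⟩ := IsLocalization.exists_mk'_eq 𝔭.primeCompl y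
    refine ⟨IsLocalization.mk' L (σ ((s : R) ^ (p - 1) * a)) s, ?_⟩
    intro b t hbt
    rw [IsLocalization.mk'_eq_iff_eq'] at hbt ⊢
    obtain ⟨c, hc⟩ := (IsLocalization.eq_iff_exists 𝔭.primeCompl L).mp hbt
    rw [IsLocalization.eq_iff_exists 𝔭.primeCompl L]
    refine ⟨c, ?_⟩
    obtain ⟨q, rfl⟩ : ∃ q, p = q + 1 := ⟨p - 1, by omega⟩
    simp only [Nat.add_sub_cancel]
    have e1 : (c : R) * (σ ((s : R) ^ q * a) * t) = σ (((c * t : R)) ^ (q + 1) * ((s : R) ^ q * a)) := by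
      rw [hmul]; ring
    have e2 : (c : R) * (σ ((t : R) ^ q * b) * s) = σ (((c * s : R)) ^ (q + 1) * ((t : R) ^ q * b)) := by
      rw [hmul]; ring
    rw [e1, e2]
    congr 1
    calc ((c * t : R)) ^ (q + 1) * ((s : R) ^ q * a) = (c : R) ^ q * t ^ q * s ^ q * (c * (a * t)) := by ring
      _ = (c : R) ^ q * t ^ q * s ^ q * (c * (b * s)) := by rw [hc]
      _ = _ := by ring
  choose τ hτ using hwd
  have hτ' : ∀ (a : R) (s : 𝔭.primeCompl), τ (IsLocalization.mk' L a s) =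
      IsLocalization.mk' L (σ ((s : R) ^ (p - 1) * a)) s := fun a s => hτ _ a s rfl
  -- the splitting
  have hu : IsUnit (algebraMap R L (σ 1)) := IsLocalization.map_units L (⟨σ 1, h1⟩ : 𝔭.primeCompl)
  obtain ⟨u, hu⟩ := hu
  obtain ⟨q, rfl⟩ : ∃ q, p = q + 1 := ⟨p - 1, by omega⟩
  simp only [Nat.add_sub_cancel] at hτ'
  have hτadd : ∀ y y', τ (y + y') = τ y + τ y' := by
    intro y y'
    obtain ⟨a, s, rfl⟩ := IsLocalization.exists_mk'_eq 𝔭.primeCompl y
    obtain ⟨b, t, rfl⟩ := IsLocalization.exists_mk'_eq 𝔭.primeCompl y'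
    rw [← IsLocalization.mk'_add, hτ', hτ', hτ', ← IsLocalization.mk'_add]
    congr 1
    have e1 : ((s * t : 𝔭.primeCompl) : R) ^ q * (a * t + b * s) =
        (t : R) ^ (q + 1) * ((s : R) ^ q * a) + (s : R) ^ (q + 1) * ((t : R) ^ q * b) := by
      simp only [Submonoid.coe_mul]
      ring
    rw [e1, hadd, hmul, hmul]
    ring
  have hτmul : ∀ y y', τ (y ^ (q + 1) * y') = y * τ y' := by
    intro y y'
    obtain ⟨a, s, rfl⟩ := IsLocalization.exists_mk'_eq 𝔭.primeCompl y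
    obtain ⟨b, t, rfl⟩ := IsLocalization.exists_mk'_eq 𝔭.primeCompl y'
    rw [← IsLocalization.mk'_pow, ← IsLocalization.mk'_mul, hτ', hτ', ← IsLocalization.mk'_mul]
    have e1 : ((s ^ (q + 1) * t : 𝔭.primeCompl) : R) ^ q * (a ^ (q + 1) * b) =
        ((s : R) ^ q * a) ^ (q + 1) * ((t : R) ^ q * b) := by
      simp only [Submonoid.coe_mul, SubmonoidClass.coe_pow]
      ring
    rw [e1, hmul, IsLocalization.mk'_eq_iff_eq']
    congr 1
    simp only [Submonoid.coe_mul, SubmonoidClass.coe_pow]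
    ring
  refine isFInjective_of_splitting (q + 1) (fun y => (u⁻¹ : Lˣ) * τ y) ?_ ?_ ?_
  · intro a b
    rw [hτadd, mul_add]
  · intro a b
    rw [hτmul]
    ring
  · have e1 : (1 : L) = IsLocalization.mk' L (1 : R) (1 : 𝔭.primeCompl) := by
      rw [IsLocalization.mk'_one, map_one]
    have e2 : τ 1 = u := by
      rw [e1, hτ', IsLocalization.mk'_one, hu]
      congr 1
      simp
    rw [e2, Units.inv_mul]

end Pool.Agent.H91
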