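import Mathlib
set_option autoImplicit false
universe u
open MvPolynomial

namespace Pool.Agent.H91

/-- the weights of `t, x, z` -/
def wt : Fin 3 → ZMod 2 := ![0, 1, 1]

section
variable (k : Type u) [Field k]

/-- the polynomial ring `k[t, x, z]` -/
abbrev PP : Type u := MvPolynomial (Fin 3) k

/-- the polynomial `h = z (x^2 + t z^2)` -/
noncomputable def hh : PP k := X 2 * (X 1 ^ 2 + X 0 * X 2 ^ 2)

/-- the double cover `k[t, x, z][Y]/(Y^2 - h (Y + x))` -/
abbrev AA : Type u := QuadraticAlgebra (PP k) (hh k * X 1) (hh k)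

variable {k}

lemma weight_eq (d : Fin 3 →₀ ℕ) : Finsupp.weight wt d = ((d 1 + d 2 : ℕ) : ZMod 2) := by
  rw [Finsupp.weight_apply, Finsupp.sum_fintype _ _ (by simp)]
  simp [Fin.sum_univ_three, wt]

lemma isWH_X0 : IsWeightedHomogeneous wt (X 0 : PP k) 0 := isWeightedHomogeneous_X k wt 0
lemma isWH_X1 : IsWeightedHomogeneous wt (X 1 : PP k) 1 := isWeightedHomogeneous_X k wt 1
lemma isWH_X2 : IsWeightedHomogeneous wt (X 2 : PP k) 1 := isWeightedHomogeneous_X k wt 2

lemma zmod2_add_self (a : ZMod 2) : a + a = 0 := by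
  revert a; decide

lemma isWH_hh : IsWeightedHomogeneous wt (hh k) 1 := by
  have h1 : IsWeightedHomogeneous wt (X 1 ^ 2 : PP k) 0 := by
    have := (isWH_X1 (k := k)).pow 2
    rwa [show (2 • (1 : ZMod 2)) = 0 from rfl] at this
  have h2 : IsWeightedHomogeneous wt (X 2 ^ 2 : PP k) 0 := by
    have := (isWH_X2 (k := k)).pow 2
    rwa [show (2 • (1 : ZMod 2)) = 0 from rfl] at this
  have h3 : IsWeightedHomogeneous wt (X 0 * X 2 ^ 2 : PP k) 0 := by
    have := (isWH_X0 (k := k)).mul h2
    rwa [add_zero] at this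
  have := (isWH_X2 (k := k)).mul (h1.add h3)
  rwa [add_zero] at this

/-- the even part of `AA k`, for the grading with `x, z, Y` odd and `t` even -/
noncomputable def RR (k : Type u) [Field k] : Subalgebra k (AA k) where
  carrier := {a | IsWeightedHomogeneous wt a.re 0 ∧ IsWeightedHomogeneous wt a.im 1}
  mul_mem' := by
    rintro a b ⟨ha, ha'⟩ ⟨hb, hb'⟩
    refine ⟨?_, ?_⟩
    · rw [QuadraticAlgebra.re_mul]
      have h1 := ha.mul hb
      have h2 := ((isWH_hh.mul (isWH_X1 (k := k))).mul ha').mul hb'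
      have h1' : (0 : ZMod 2) + 0 = 0 := rfl
      have h2' : (1 : ZMod 2) + 1 + 1 + 1 = 0 := rfl
      rw [h1'] at h1
      rw [h2'] at h2
      exact h1.add h2
    · rw [QuadraticAlgebra.im_mul]
      have h1 := ha.mul hb'
      have h2 := ha'.mul hb
      have h3 := (isWH_hh.mul ha').mul hb'
      rw [show (0 : ZMod 2) + 1 = 1 from rfl] at h1
      rw [show (1 : ZMod 2) + 0 = 1 from rfl] at h2
      rw [show (1 : ZMod 2) + 1 + 1 = 1 from rfl] at h3
      exact (h1.add h2).add h3
  add_mem' := by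
    rintro a b ⟨ha, ha'⟩ ⟨hb, hb'⟩
    exact ⟨ha.add hb, ha'.add hb'⟩
  algebraMap_mem' := by
    intro r
    refine ⟨?_, ?_⟩
    · exact isWeightedHomogeneous_C wt r
    · exact isWeightedHomogeneous_zero k wt 1

/-- The component of parity `e`. -/
noncomputable abbrev cmp (e : ZMod 2) : PP k →ₗ[k] PP k := weightedHomogeneousComponent wt e

lemma cmp_add_cmp (e : ZMod 2) (f : PP k) : cmp e f + cmp (e + 1) f = f := by
  ext d
  rw [coeff_add, coeff_weightedHomogeneousComponent, coeff_weightedHomogeneousComponent]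
  have h2 : ∀ a e : ZMod 2, a = e ∨ a = e + 1 := by decide
  have h3 : ∀ e : ZMod 2, e ≠ e + 1 := by decide
  rcases h2 (Finsupp.weight wt d) e with h | h
  · rw [if_pos h, if_neg (by rw [h]; exact h3 e), add_zero]
  · rw [if_neg (by rw [h]; exact (h3 e).symm), if_pos h, zero_add]

lemma cmp_mul {f : PP k} {m : ZMod 2} (hf : IsWeightedHomogeneous wt f m) (e : ZMod 2) (g : PP k) :
    cmp e (f * g) = f * cmp (e + m) g := by
  have h1 : f * g = f * cmp (e + m) g + f * cmp (e + m + 1) g := by
    rw [← mul_add, cmp_add_cmp]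
  have h2 : IsWeightedHomogeneous wt (f * cmp (e + m) g) e := by
    have := hf.mul (weightedHomogeneousComponent_isWeightedHomogeneous (w := wt) (e + m) g)
    have h : m + (e + m) = e := by
      rw [add_left_comm, zmod2_add_self, add_zero]
    rwa [h] at this
  have h3 : IsWeightedHomogeneous wt (f * cmp (e + m + 1) g) (e + 1) := by
    have := hf.mul (weightedHomogeneousComponent_isWeightedHomogeneous (w := wt) (e + m + 1) g)
    have h : m + (e + m + 1) = e + 1 := by
      rw [← add_assoc, add_left_comm, zmod2_add_self, add_zero]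
    rwa [h] at this
  have h4 : ∀ e : ZMod 2, e ≠ e + 1 := by decide
  conv_lhs => rw [h1]
  rw [map_add, h2.weightedHomogeneousComponent_same,
    h3.weightedHomogeneousComponent_ne (n := e) (h4 e), add_zero]

/-- The projection of `AA k` onto its even part. -/
noncomputable def prj (a : AA k) : AA k := ⟨cmp 0 a.re, cmp 1 a.im⟩

lemma prj_mem (a : AA k) : prj a ∈ RR k :=
  ⟨weightedHomogeneousComponent_isWeightedHomogeneous (w := wt) 0 a.re,
    weightedHomogeneousComponent_isWeightedHomogeneous (w := wt) 1 a.im⟩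

lemma prj_eq_self {a : AA k} (ha : a ∈ RR k) : prj a = a := by
  ext1
  · exact ha.1.weightedHomogeneousComponent_same
  · exact ha.2.weightedHomogeneousComponent_same

lemma prj_add (a b : AA k) : prj (a + b) = prj a + prj b := by
  ext1
  · exact map_add _ _ _
  · exact map_add _ _ _

lemma prj_mul {a : AA k} (ha : a ∈ RR k) (b : AA k) : prj (a * b) = a * prj b := by
  obtain ⟨ha, ha'⟩ := ha
  ext1
  · change cmp 0 (a * b).re = (a * prj b).re
    rw [QuadraticAlgebra.re_mul, QuadraticAlgebra.re_mul, map_add, cmp_mul ha,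
      cmp_mul ((isWH_hh.mul isWH_X1).mul ha')]
    rfl
  · change cmp 1 (a * b).im = (a * prj b).im
    rw [QuadraticAlgebra.im_mul, QuadraticAlgebra.im_mul, map_add, map_add, cmp_mul ha,
      mul_comm a.im b.re, mul_comm (b.re), cmp_mul ha', cmp_mul (isWH_hh.mul ha')]
    rfl

lemma mem_RR_of_mul_mem [NoZeroDivisors (AA k)] {b c : AA k} (hb : b ∈ RR k) (hb0 : b ≠ 0)
    (hbc : b * c ∈ RR k) : c ∈ RR k := by
  have h1 := prj_eq_self hbc
  rw [prj_mul hb] at h1
  have h2 := mul_left_cancel₀ hb0 h1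
  rw [← h2]
  exact prj_mem c

end
end Pool.Agent.H91
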