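import Mathlib
import Pool.Agent.helper91.Ring1
set_option autoImplicit false
universe u
open MvPolynomial

namespace Pool.Agent.H91
section
variable {k : Type u} [Field k] [CharP k 2] [PerfectRing k 2]

/-- halve an exponent -/
noncomputable def half (m : Fin 3 →₀ ℕ) : Fin 3 →₀ ℕ := m.mapRange (· / 2) (by simp)

/-- all exponents odd -/
def AllOdd (m : Fin 3 →₀ ℕ) : Prop := ∀ i, m i % 2 = 1

instance (m : Fin 3 →₀ ℕ) : Decidable (AllOdd m) := by unfold AllOdd; infer_instance

/-- the trace of a monomial -/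
noncomputable def trMon (m : Fin 3 →₀ ℕ) : k →+ PP k :=
  if AllOdd m then (monomial (half m)).toAddMonoidHom.comp (frobeniusEquiv k 2).symm.toAddMonoidHom
  else 0

/-- the trace -/
noncomputable def tr : PP k →+ PP k :=
  (Finsupp.liftAddHom trMon).comp AddMonoidAlgebra.coeffAddEquiv.toAddMonoidHom

lemma tr_monomial (m : Fin 3 →₀ ℕ) (c : k) : tr (monomial m c) = trMon m c := by
  change Finsupp.liftAddHom trMon (Finsupp.single m c) = trMon m c
  simp

lemma tr_mul_sq_monomial (n m : Fin 3 →₀ ℕ) (b c : k) :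
    tr ((monomial n b) ^ 2 * monomial m c) = monomial n b * tr (monomial m c) := by
  rw [monomial_pow, monomial_mul, tr_monomial, tr_monomial]
  have hodd : AllOdd (2 • n + m) ↔ AllOdd m := by
    unfold AllOdd
    refine forall_congr' fun i => ?_
    simp only [Finsupp.add_apply, Finsupp.smul_apply, smul_eq_mul]
    omega
  unfold trMon
  by_cases h : AllOdd m
  · rw [if_pos h, if_pos (hodd.mpr h)]
    have h1 : half (2 • n + m) = n + half m := by
      ext i
      simp only [half, Finsupp.mapRange_apply, Finsupp.add_apply, Finsupp.smul_apply, smul_eq_mul]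
      omega
    change monomial (half (2 • n + m)) ((frobeniusEquiv k 2).symm (b ^ 2 * c)) =
      monomial n b * monomial (half m) ((frobeniusEquiv k 2).symm c)
    rw [monomial_mul, h1, map_mul, frobeniusEquiv_symm_pow]
  · rw [if_neg h, if_neg (fun h' => h (hodd.mp h'))]
    simp

lemma tr_mul_sq (g f : PP k) : tr (g ^ 2 * f) = g * tr f := by
  induction g using MvPolynomial.induction_on' with
  | monomial n b =>
    induction f using MvPolynomial.induction_on' with
    | monomial m c => exact tr_mul_sq_monomial n m b c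
    | add p q hp hq => rw [mul_add, map_add, map_add, hp, hq, mul_add]
  | add p q hp hq =>
    rw [CharTwo.add_sq, add_mul, map_add, hp, hq, add_mul]

/-- the Cartier type map of the double cover -/
noncomputable def phi (g : PP k) (a : AA k) : AA k :=
  ⟨tr (g * (hh k * a.re + hh k * X 1 * a.im)), tr (g * a.im)⟩

lemma phi_add (g : PP k) (a b : AA k) : phi g (a + b) = phi g a + phi g b := by
  ext1
  · change tr _ = tr _ + tr _
    rw [← map_add]
    congr 1
    simp only [QuadraticAlgebra.re_add, QuadraticAlgebra.im_add]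
    ring
  · change tr _ = tr _ + tr _
    rw [← map_add]
    congr 1
    simp only [QuadraticAlgebra.im_add]
    ring

lemma phi_mul_sq (g : PP k) (c a : AA k) : phi g (c ^ 2 * a) = c * phi g a := by
  have h2 : (2 : PP k) = 0 := CharTwo.two_eq_zero
  ext1
  · change tr (g * (hh k * (c ^ 2 * a).re + hh k * X 1 * (c ^ 2 * a).im)) =
      c.re * tr (g * (hh k * a.re + hh k * X 1 * a.im)) + hh k * X 1 * c.im * tr (g * a.im)
    rw [← tr_mul_sq, ← tr_mul_sq, ← map_add]
    congr 1
    rw [sq]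
    simp only [QuadraticAlgebra.re_mul, QuadraticAlgebra.im_mul]
    linear_combination (g * hh k ^ 2 * X 1 * c.im ^ 2 * a.re + g * hh k ^ 3 * X 1 * c.im ^ 2 * a.im +
      g * hh k * X 1 * c.re * c.im * a.re + 2 * g * hh k ^ 2 * X 1 * c.re * c.im * a.im) * h2
  · change tr (g * (c ^ 2 * a).im) = c.re * tr (g * a.im) +
      c.im * tr (g * (hh k * a.re + hh k * X 1 * a.im)) + hh k * c.im * tr (g * a.im)
    rw [← tr_mul_sq, ← tr_mul_sq, ← tr_mul_sq, ← map_add, ← map_add]
    congr 1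
    rw [sq]
    simp only [QuadraticAlgebra.re_mul, QuadraticAlgebra.im_mul]
    linear_combination (g * c.re * c.im * a.re + g * hh k * c.re * c.im * a.im) * h2

/-- the induced maps on the even part -/
noncomputable def sig (l g : PP k) (a : RR k) : RR k :=
  ⟨prj ((⟨l, 0⟩ : AA k) * phi g (a : AA k)), prj_mem _⟩

lemma sig_add (l g : PP k) (a b : RR k) : sig l g (a + b) = sig l g a + sig l g b := by
  apply Subtype.ext
  change prj ((⟨l, 0⟩ : AA k) * phi g ((a : AA k) + b)) =
    prj ((⟨l, 0⟩ : AA k) * phi g (a : AA k)) + prj ((⟨l, 0⟩ : AA k) * phi g (b : AA k))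
  rw [phi_add, mul_add, prj_add]

lemma sig_mul (l g : PP k) (c a : RR k) : sig l g (c ^ 2 * a) = c * sig l g a := by
  apply Subtype.ext
  change prj ((⟨l, 0⟩ : AA k) * phi g ((c : AA k) ^ 2 * a)) =
    c * prj ((⟨l, 0⟩ : AA k) * phi g (a : AA k))
  rw [phi_mul_sq, mul_left_comm, prj_mul c.2]

/-- the generator `u = x^2` -/
noncomputable def gU (k : Type u) [Field k] : RR k :=
  ⟨⟨X 1 ^ 2, 0⟩, by
    have := (isWH_X1 (k := k)).pow 2
    rw [show (2 • (1 : ZMod 2)) = 0 from rfl] at this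
    exact ⟨this, isWeightedHomogeneous_zero k wt 1⟩⟩

/-- the generator `v = z^2` -/
noncomputable def gV (k : Type u) [Field k] : RR k :=
  ⟨⟨X 2 ^ 2, 0⟩, by
    have := (isWH_X2 (k := k)).pow 2
    rw [show (2 • (1 : ZMod 2)) = 0 from rfl] at this
    exact ⟨this, isWeightedHomogeneous_zero k wt 1⟩⟩

lemma tr_X1X2 : tr (X 1 * X 2 : PP k) = 0 := by
  have e1 : (monomial (Finsupp.single 1 1 + Finsupp.single 2 1) 1 : PP k) = X 1 * X 2 := by
    simp [X, monomial_mul]
  rw [← e1, tr_monomial]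
  unfold trMon
  rw [if_neg]
  · rfl
  · intro h
    have := h 0
    simp at this

lemma tr_all : tr (X 0 * X 1 * X 2 : PP k) = 1 := by
  have e1 : (monomial (Finsupp.single 0 1 + Finsupp.single 1 1 + Finsupp.single 2 1) 1 : PP k) =
      X 0 * X 1 * X 2 := by
    simp [X, monomial_mul]
  rw [← e1, tr_monomial]
  unfold trMon
  rw [if_pos]
  · change monomial (half _) ((frobeniusEquiv k 2).symm 1) = 1
    rw [map_one]
    have : half (Finsupp.single 0 1 + Finsupp.single 1 1 + Finsupp.single 2 1) = 0 := by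
      ext i
      fin_cases i <;> simp [half]
    rw [this]
    rfl
  · intro i
    fin_cases i <;> simp

lemma tr_X1_hh : tr (X 1 * hh k) = X 2 := by
  have e : (X 1 * hh k : PP k) = (X 1) ^ 2 * (X 1 * X 2) + (X 2) ^ 2 * (X 0 * X 1 * X 2) := by
    rw [hh]
    ring
  rw [e, map_add, tr_mul_sq, tr_mul_sq, tr_X1X2, tr_all, mul_zero, zero_add, mul_one]

lemma tr_tx_hh : tr (X 0 * X 1 * hh k) = X 1 := by
  have e : (X 0 * X 1 * hh k : PP k) = (X 1) ^ 2 * (X 0 * X 1 * X 2) +
      (X 0 * X 2) ^ 2 * (X 1 * X 2) := by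
    rw [hh]
    ring
  rw [e, map_add, tr_mul_sq, tr_mul_sq, tr_X1X2, tr_all, mul_zero, add_zero, mul_one]

lemma sig_one_V : sig (X 2) (X 1) (1 : RR k) = gV k := by
  apply Subtype.ext
  change prj ((⟨X 2, 0⟩ : AA k) * phi (X 1) (1 : AA k)) = ⟨X 2 ^ 2, 0⟩
  have h1 : phi (X 1) (1 : AA k) = ⟨X 2, 0⟩ := by
    ext1
    · change tr (X 1 * (hh k * 1 + hh k * X 1 * 0)) = X 2
      rw [mul_zero, add_zero, mul_one, tr_X1_hh]
    · change tr (X 1 * 0) = 0
      rw [mul_zero, map_zero]
  rw [h1]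
  have h2 : (⟨X 2, 0⟩ : AA k) * ⟨X 2, 0⟩ = gV k := by
    ext1
    · change (X 2 * X 2 + hh k * X 1 * 0 * 0 : PP k) = X 2 ^ 2
      ring
    · change (X 2 * 0 + 0 * X 2 + hh k * 0 * 0 : PP k) = 0
      ring
  rw [h2, prj_eq_self (gV k).2]
  rfl

lemma sig_one_U : sig (X 1) (X 0 * X 1) (1 : RR k) = gU k := by
  apply Subtype.ext
  change prj ((⟨X 1, 0⟩ : AA k) * phi (X 0 * X 1) (1 : AA k)) = ⟨X 1 ^ 2, 0⟩
  have h1 : phi (X 0 * X 1) (1 : AA k) = ⟨X 1, 0⟩ := by
    ext1
    · change tr (X 0 * X 1 * (hh k * 1 + hh k * X 1 * 0)) = X 1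
      rw [mul_zero, add_zero, mul_one, tr_tx_hh]
    · change tr (X 0 * X 1 * 0) = 0
      rw [mul_zero, map_zero]
  rw [h1]
  have h2 : (⟨X 1, 0⟩ : AA k) * ⟨X 1, 0⟩ = gU k := by
    ext1
    · change (X 1 * X 1 + hh k * X 1 * 0 * 0 : PP k) = X 1 ^ 2
      ring
    · change (X 1 * 0 + 0 * X 1 + hh k * 0 * 0 : PP k) = 0
      ring
  rw [h2, prj_eq_self (gU k).2]
  rfl

end
end Pool.Agent.H91
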