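import Mathlib
import Pool.Agent.helper91.Trace
set_option autoImplicit false
universe u
open MvPolynomial

namespace Pool.Agent.H91
section
variable {k : Type u} [Field k]

/-- embedding of `k[t,x,z]` in `AA` -/
noncomputable def iota : PP k →+* AA k := algebraMap (PP k) (AA k)

lemma iota_apply (f : PP k) : iota f = ⟨f, 0⟩ := rfl

/-- the element `Y` -/
noncomputable def yy (k : Type u) [Field k] : AA k := ⟨0, 1⟩

lemma iota_mul_yy (f : PP k) : iota f * yy k = ⟨0, f⟩ := by
  ext1
  · change f * 0 + hh k * X 1 * 0 * 1 = 0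
    ring
  · change f * 1 + 0 * 0 + hh k * 0 * 1 = f
    ring

/-- the generator `t` -/
noncomputable def gT (k : Type u) [Field k] : RR k :=
  ⟨⟨X 0, 0⟩, isWH_X0, isWeightedHomogeneous_zero k wt 1⟩

/-- the generator `w = x z` -/
noncomputable def gW (k : Type u) [Field k] : RR k :=
  ⟨⟨X 1 * X 2, 0⟩, by
    have := (isWH_X1 (k := k)).mul isWH_X2
    rw [show ((1 : ZMod 2) + 1) = 0 from rfl] at this
    exact ⟨this, isWeightedHomogeneous_zero k wt 1⟩⟩

/-- the generator `r = x Y` -/
noncomputable def gR (k : Type u) [Field k] : RR k :=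
  ⟨⟨0, X 1⟩, isWeightedHomogeneous_zero k wt 0, isWH_X1⟩

/-- the generator `s = z Y` -/
noncomputable def gS (k : Type u) [Field k] : RR k :=
  ⟨⟨0, X 2⟩, isWeightedHomogeneous_zero k wt 0, isWH_X2⟩

/-- even polynomials as elements of `RR` -/
noncomputable def EE : PP k →ₗ[k] RR k where
  toFun f := ⟨⟨cmp 0 f, 0⟩, weightedHomogeneousComponent_isWeightedHomogeneous (w := wt) 0 f,
    isWeightedHomogeneous_zero k wt 1⟩
  map_add' f g := by
    apply Subtype.ext
    ext1
    · exact map_add _ _ _
    · exact (add_zero 0).symm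
  map_smul' c f := by
    apply Subtype.ext
    ext1
    · exact map_smul _ _ _
    · exact (smul_zero c).symm

/-- odd polynomials times `Y` as elements of `RR` -/
noncomputable def OO : PP k →ₗ[k] RR k where
  toFun f := ⟨⟨0, cmp 1 f⟩, isWeightedHomogeneous_zero k wt 0,
    weightedHomogeneousComponent_isWeightedHomogeneous (w := wt) 1 f⟩
  map_add' f g := by
    apply Subtype.ext
    ext1
    · exact (add_zero 0).symm
    · exact map_add _ _ _
  map_smul' c f := by
    apply Subtype.ext
    ext1
    · exact (smul_zero c).symm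
    · exact map_smul _ _ _

lemma coe_EE (f : PP k) : (EE f : AA k) = iota (cmp 0 f) := rfl

lemma coe_OO (f : PP k) : (OO f : AA k) = iota (cmp 1 f) * yy k := by
  rw [iota_mul_yy]
  rfl

lemma eq_EE_add_OO (a : RR k) : a = EE (a : AA k).re + OO (a : AA k).im := by
  apply Subtype.ext
  ext1
  · change (a : AA k).re = cmp 0 (a : AA k).re + 0
    rw [add_zero]
    exact a.2.1.weightedHomogeneousComponent_same.symm
  · change (a : AA k).im = 0 + cmp 1 (a : AA k).im
    rw [zero_add]
    exact a.2.2.weightedHomogeneousComponent_same.symm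

lemma monomial_eq3 (m : Fin 3 →₀ ℕ) (c : k) :
    (monomial m c : PP k) = C c * X 0 ^ m 0 * X 1 ^ m 1 * X 2 ^ m 2 := by
  rw [monomial_eq, Finsupp.prod_fintype _ _ (by simp), Fin.prod_univ_three]
  ring

lemma cmp_monomial (e : ZMod 2) (m : Fin 3 →₀ ℕ) (c : k) :
    cmp e (monomial m c) = if ((m 1 + m 2 : ℕ) : ZMod 2) = e then monomial m c else 0 := by
  split_ifs with h
  · exact (isWeightedHomogeneous_monomial wt m c (by rw [weight_eq, h])).weightedHomogeneousComponent_same
  · exact (isWeightedHomogeneous_monomial wt m c (weight_eq m)).weightedHomogeneousComponent_ne e (Ne.symm h)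

/-- `RR` is generated by the six elements. -/
theorem adjoin_eq_top : Algebra.adjoin k {gT k, gU k, gW k, gV k, gR k, gS k} = ⊤ := by
  rw [eq_top_iff]
  rintro a -
  have hT : gT k ∈ Algebra.adjoin k {gT k, gU k, gW k, gV k, gR k, gS k} :=
    Algebra.subset_adjoin (by simp)
  have hU : gU k ∈ Algebra.adjoin k {gT k, gU k, gW k, gV k, gR k, gS k} :=
    Algebra.subset_adjoin (by simp)
  have hW : gW k ∈ Algebra.adjoin k {gT k, gU k, gW k, gV k, gR k, gS k} :=
    Algebra.subset_adjoin (by simp)
  have hV : gV k ∈ Algebra.adjoin k {gT k, gU k, gW k, gV k, gR k, gS k} :=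
    Algebra.subset_adjoin (by simp)
  have hR : gR k ∈ Algebra.adjoin k {gT k, gU k, gW k, gV k, gR k, gS k} :=
    Algebra.subset_adjoin (by simp)
  have hS : gS k ∈ Algebra.adjoin k {gT k, gU k, gW k, gV k, gR k, gS k} :=
    Algebra.subset_adjoin (by simp)
  set S := Algebra.adjoin k {gT k, gU k, gW k, gV k, gR k, gS k} with hSdef
  have hE : ∀ f : PP k, EE f ∈ S := by
    intro f
    induction f using MvPolynomial.induction_on' with
    | monomial m c =>
      by_cases h : ((m 1 + m 2 : ℕ) : ZMod 2) = 0
      · rw [ZMod.natCast_eq_zero_iff] at h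
        rcases Nat.even_or_odd' (m 1) with ⟨a, ha | ha⟩
        · obtain ⟨b, hb⟩ : ∃ b, m 2 = 2 * b := ⟨m 2 / 2, by omega⟩
          have : EE (monomial m c) = algebraMap k (RR k) c * gT k ^ m 0 * gU k ^ a * gV k ^ b := by
            apply Subtype.ext
            rw [coe_EE, cmp_monomial, if_pos (by rw [ZMod.natCast_eq_zero_iff]; exact h),
              monomial_eq3]
            change _ = iota (C c) * iota (X 0) ^ m 0 * iota (X 1 ^ 2) ^ a * iota (X 2 ^ 2) ^ b
            rw [← map_pow, ← map_pow, ← map_pow, ← map_mul, ← map_mul, ← map_mul, ha, hb]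
            congr 1
            ring
          rw [this]
          exact mul_mem (mul_mem (mul_mem (S.algebraMap_mem c) (pow_mem hT _)) (pow_mem hU _))
            (pow_mem hV _)
        · obtain ⟨b, hb⟩ : ∃ b, m 2 = 2 * b + 1 := ⟨m 2 / 2, by omega⟩
          have : EE (monomial m c) = algebraMap k (RR k) c * gT k ^ m 0 * gU k ^ a * gV k ^ b * gW k := by
            apply Subtype.ext
            rw [coe_EE, cmp_monomial, if_pos (by rw [ZMod.natCast_eq_zero_iff]; exact h),
              monomial_eq3]
            change _ = iota (C c) * iota (X 0) ^ m 0 * iota (X 1 ^ 2) ^ a * iota (X 2 ^ 2) ^ b *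
              iota (X 1 * X 2)
            rw [← map_pow, ← map_pow, ← map_pow, ← map_mul, ← map_mul, ← map_mul, ← map_mul, ha, hb]
            congr 1
            ring
          rw [this]
          exact mul_mem (mul_mem (mul_mem (mul_mem (S.algebraMap_mem c) (pow_mem hT _))
            (pow_mem hU _)) (pow_mem hV _)) hW
      · have : EE (monomial m c) = 0 := by
          apply Subtype.ext
          rw [coe_EE, cmp_monomial, if_neg h]
          rfl
        rw [this]
        exact zero_mem _
    | add p q hp hq =>
      rw [map_add]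
      exact add_mem hp hq
  have hO : ∀ f : PP k, OO f ∈ S := by
    intro f
    induction f using MvPolynomial.induction_on' with
    | monomial m c =>
      by_cases h : ((m 1 + m 2 : ℕ) : ZMod 2) = 1
      · have h' : (m 1 + m 2) % 2 = 1 := by
          have := (ZMod.natCast_eq_natCast_iff (m 1 + m 2) 1 2).mp (by rw [h]; rfl)
          exact this
        rcases Nat.even_or_odd' (m 1) with ⟨a, ha | ha⟩
        · obtain ⟨b, hb⟩ : ∃ b, m 2 = 2 * b + 1 := ⟨m 2 / 2, by omega⟩
          have : OO (monomial m c) = algebraMap k (RR k) c * gT k ^ m 0 * gU k ^ a * gV k ^ b * gS k := by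
            apply Subtype.ext
            rw [coe_OO, cmp_monomial, if_pos h, monomial_eq3]
            change _ = iota (C c) * iota (X 0) ^ m 0 * iota (X 1 ^ 2) ^ a * iota (X 2 ^ 2) ^ b *
              ⟨0, X 2⟩
            rw [← iota_mul_yy, ← mul_assoc, ← map_pow, ← map_pow, ← map_pow, ← map_mul, ← map_mul,
              ← map_mul, ← map_mul, ha, hb]
            congr 2
            ring
          rw [this]
          exact mul_mem (mul_mem (mul_mem (mul_mem (S.algebraMap_mem c) (pow_mem hT _))
            (pow_mem hU _)) (pow_mem hV _)) hS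
        · obtain ⟨b, hb⟩ : ∃ b, m 2 = 2 * b := ⟨m 2 / 2, by omega⟩
          have : OO (monomial m c) = algebraMap k (RR k) c * gT k ^ m 0 * gU k ^ a * gV k ^ b * gR k := by
            apply Subtype.ext
            rw [coe_OO, cmp_monomial, if_pos h, monomial_eq3]
            change _ = iota (C c) * iota (X 0) ^ m 0 * iota (X 1 ^ 2) ^ a * iota (X 2 ^ 2) ^ b *
              ⟨0, X 1⟩
            rw [← iota_mul_yy, ← mul_assoc, ← map_pow, ← map_pow, ← map_pow, ← map_mul, ← map_mul,
              ← map_mul, ← map_mul, ha, hb]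
            congr 2
            ring
          rw [this]
          exact mul_mem (mul_mem (mul_mem (mul_mem (S.algebraMap_mem c) (pow_mem hT _))
            (pow_mem hU _)) (pow_mem hV _)) hR
      · have : OO (monomial m c) = 0 := by
          apply Subtype.ext
          rw [coe_OO, cmp_monomial, if_neg h, map_zero, zero_mul]
          rfl
        rw [this]
        exact zero_mem _
    | add p q hp hq =>
      rw [map_add]
      exact add_mem hp hq
  rw [eq_EE_add_OO a]
  exact add_mem (hE _) (hO _)

end
end Pool.Agent.H91
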