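import Mathlib
import Pool.Agent.helper91.Gens
set_option autoImplicit false
universe u
open MvPolynomial

namespace Pool.Agent.H91
section
variable {k : Type u} [Field k] [CharP k 2]

/-- coefficients of squares -/
lemma coeff_sq_two (f : PP k) (m : Fin 3 →₀ ℕ) : coeff (2 • m) (f ^ 2) = (coeff m f) ^ 2 := by
  induction f using MvPolynomial.induction_on' with
  | monomial n b =>
    rw [monomial_pow, coeff_monomial, coeff_monomial]
    have : 2 • n = 2 • m ↔ n = m := by
      constructor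
      · intro h
        ext i
        have := DFunLike.congr_fun h i
        simp only [Finsupp.smul_apply, smul_eq_mul] at this
        omega
      · rintro rfl; rfl
    by_cases h : n = m
    · rw [if_pos h, if_pos (this.mpr h)]
    · rw [if_neg h, if_neg (fun h' => h (this.mp h'))]
      simp
  | add p q hp hq =>
    rw [CharTwo.add_sq, coeff_add, hp, hq, coeff_add, CharTwo.add_sq]

lemma coeff_sq_odd (f : PP k) (m : Fin 3 →₀ ℕ) (i : Fin 3) (hi : m i % 2 = 1) :
    coeff m (f ^ 2) = 0 := by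
  induction f using MvPolynomial.induction_on' with
  | monomial n b =>
    rw [monomial_pow, coeff_monomial, if_neg]
    rintro rfl
    simp at hi
  | add p q hp hq =>
    rw [CharTwo.add_sq, coeff_add, hp, hq, add_zero]

/-- the exponent `(a, b, c)` -/
noncomputable def ex (a b c : ℕ) : Fin 3 →₀ ℕ := Finsupp.equivFunOnFinite.symm ![a, b, c]

@[simp] lemma ex_zero (a b c : ℕ) : ex a b c 0 = a := rfl
@[simp] lemma ex_one (a b c : ℕ) : ex a b c 1 = b := rfl
@[simp] lemma ex_two (a b c : ℕ) : ex a b c 2 = c := rfl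

lemma ext3 {m n : Fin 3 →₀ ℕ} (h0 : m 0 = n 0) (h1 : m 1 = n 1) (h2 : m 2 = n 2) : m = n := by
  ext i
  fin_cases i
  · exact h0
  · exact h1
  · exact h2

lemma le3 {m n : Fin 3 →₀ ℕ} : m ≤ n ↔ m 0 ≤ n 0 ∧ m 1 ≤ n 1 ∧ m 2 ≤ n 2 := by
  rw [Finsupp.le_def]
  constructor
  · intro h; exact ⟨h 0, h 1, h 2⟩
  · rintro ⟨h0, h1, h2⟩ i
    fin_cases i
    · exact h0
    · exact h1
    · exact h2

omit [CharP k 2] in
lemma monomial_ex (a b c : ℕ) : (monomial (ex a b c) 1 : PP k) = X 0 ^ a * X 1 ^ b * X 2 ^ c := by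
  rw [monomial_eq3]
  simp

/-- the shifted polynomial `h` -/
noncomputable def hc (c : k) : PP k := X 2 * (X 1 ^ 2 + (X 0 + C c) * X 2 ^ 2)

lemma hc_eq (c : k) (f : PP k) : f * hc c = f * monomial (ex 0 2 1) 1 + f * monomial (ex 1 0 3) 1 +
    f * monomial (ex 0 0 3) c := by
  have h3 : (monomial (ex 0 0 3) c : PP k) = C c * monomial (ex 0 0 3) 1 := by
    rw [C_mul_monomial, mul_one]
  rw [h3, monomial_ex, monomial_ex, monomial_ex, hc]
  ring

/-- the core computation: the case where `β ^ 2 h` lies in the big box ideal -/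
lemma core_beta (c : k) (S S' : ℕ → Prop) (hS : ∀ i, S i → S' (2 * i) ∧ S' (2 * i + 1)) (n : ℕ)
    (β : PP k) (hβ : IsWeightedHomogeneous wt β 1)
    (h1 : ∀ m : Fin 3 →₀ ℕ, S' (m 0) → m 1 < 4 * n → m 2 < 4 * n → coeff m (β ^ 2 * hc c) = 0) :
    ∀ m : Fin 3 →₀ ℕ, S (m 0) → m 1 < 2 * n → m 2 < 2 * n → coeff m β = 0 := by
  -- first case
  have first : ∀ m : Fin 3 →₀ ℕ, S (m 0) → m 1 < 2 * n → m 2 + 1 < 2 * n → coeff m β = 0 := by
    intro m hm0 hm1 hm2
    have h2 := h1 (2 • m + ex 1 0 3) (by simpa using (hS _ hm0).2)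
      (by simp; omega) (by simp; omega)
    rw [hc_eq, coeff_add, coeff_add, coeff_mul_monomial', coeff_mul_monomial] at h2
    have e1 : (if ex 0 2 1 ≤ 2 • m + ex 1 0 3 then
        coeff (2 • m + ex 1 0 3 - ex 0 2 1) (β ^ 2) * 1 else 0) = 0 := by
      split_ifs with hle
      · rw [coeff_sq_odd β _ 0 (by simp), zero_mul]
      · rfl
    have e3 : coeff (2 • m + ex 1 0 3) (β ^ 2 * monomial (ex 0 0 3) c) = 0 := by
      rw [coeff_mul_monomial']
      split_ifs with hle
      · rw [coeff_sq_odd β _ 0 (by simp), zero_mul]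
      · rfl
    rw [e1, e3, coeff_sq_two, zero_add, add_zero, mul_one] at h2
    exact pow_eq_zero_iff two_ne_zero |>.mp h2
  intro m hm0 hm1 hm2
  by_contra hne
  have hodd : ((m 1 + m 2 : ℕ) : ZMod 2) = 1 := by
    rw [← weight_eq]
    exact hβ hne
  have hodd' : (m 1 + m 2) % 2 = 1 := (ZMod.natCast_eq_natCast_iff (m 1 + m 2) 1 2).mp (by rw [hodd]; rfl)
  have hm2' : ¬ (m 2 + 1 < 2 * n) := fun h => hne (first m hm0 hm1 h)
  apply hne
  have h2 := h1 (2 • m + ex 0 2 1) (by simpa using (hS _ hm0).1)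
    (by simp; omega) (by simp; omega)
  rw [hc_eq, coeff_add, coeff_add, coeff_mul_monomial, coeff_sq_two, mul_one] at h2
  have e2 : coeff (2 • m + ex 0 2 1) (β ^ 2 * monomial (ex 1 0 3) 1) = 0 := by
    rw [coeff_mul_monomial']
    split_ifs with hle
    · rw [coeff_sq_odd β _ 0 ?_, zero_mul]
      rw [le3] at hle
      simp at hle
      simp
      omega
    · rfl
  have e3 : coeff (2 • m + ex 0 2 1) (β ^ 2 * monomial (ex 0 0 3) c) = 0 := by
    rw [coeff_mul_monomial']
    split_ifs with hle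
    · have e4 : 2 • m + ex 0 2 1 - ex 0 0 3 = 2 • (ex (m 0) (m 1 + 1) (m 2 - 1)) := by
        rw [le3] at hle
        simp at hle
        apply ext3 <;> simp <;> omega
      rw [e4, coeff_sq_two, first _ (by simpa using hm0) (by simp; omega) (by simp; omega)]
      simp
    · rfl
  rw [e2, e3, add_zero, add_zero] at h2
  exact pow_eq_zero_iff two_ne_zero |>.mp h2

lemma core_alpha (c : k) (S S' : ℕ → Prop) (hS : ∀ i, S i → S' (2 * i) ∧ S' (2 * i + 1)) (n : ℕ)
    (α β : PP k)
    (h1 : ∀ m : Fin 3 →₀ ℕ, S' (m 0) → m 1 < 4 * n → m 2 < 4 * n →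
      coeff m (α ^ 2 + β ^ 2 * hc c * X 1) = 0) :
    ∀ m : Fin 3 →₀ ℕ, S (m 0) → m 1 < 2 * n → m 2 < 2 * n → coeff m α = 0 := by
  intro m hm0 hm1 hm2
  have h2 := h1 (2 • m) (by simpa using (hS _ hm0).1) (by simp; omega) (by simp; omega)
  rw [coeff_add, coeff_sq_two] at h2
  have e1 : coeff (2 • m) (β ^ 2 * hc c * X 1) = 0 := by
    have e0 : β ^ 2 * hc c * X 1 = β ^ 2 * monomial (ex 0 3 1) 1 + β ^ 2 * monomial (ex 1 1 3) 1 +
        β ^ 2 * monomial (ex 0 1 3) c := by
      have h3 : (monomial (ex 0 1 3) c : PP k) = C c * monomial (ex 0 1 3) 1 := by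
        rw [C_mul_monomial, mul_one]
      rw [h3, monomial_ex, monomial_ex, monomial_ex, hc]
      ring
    rw [e0, coeff_add, coeff_add, coeff_mul_monomial', coeff_mul_monomial', coeff_mul_monomial']
    have e2 : ∀ (m' : Fin 3 →₀ ℕ) (r : k), m' 1 % 2 = 1 →
        (if m' ≤ 2 • m then coeff (2 • m - m') (β ^ 2) * r else 0) = 0 := by
      intro m' r hm'
      split_ifs with hle
      · rw [coeff_sq_odd β _ 1 ?_, zero_mul]
        rw [le3] at hle
        simp at hle
        simp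
        omega
      · rfl
    rw [e2 _ _ (by simp), e2 _ _ (by simp), e2 _ _ (by simp)]
    simp
  rw [e1, add_zero] at h2
  exact pow_eq_zero_iff two_ne_zero |>.mp h2

end
end Pool.Agent.H91
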