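import Mathlib
import Pool.Agent.helper91.Core
set_option autoImplicit false
universe u
open MvPolynomial RingTheory.Sequence

namespace Pool.Agent.H91
section
variable {k : Type u} [Field k]

/-- the shift `t ↦ t + c` -/
noncomputable def theta (c : k) : PP k →ₐ[k] PP k := aeval ![X 0 + C c, X 1, X 2]

@[simp] lemma theta_X0 (c : k) : theta c (X 0) = X 0 + C c := by simp [theta]
@[simp] lemma theta_X1 (c : k) : theta c (X 1) = X 1 := by simp [theta]
@[simp] lemma theta_X2 (c : k) : theta c (X 2) = X 2 := by simp [theta]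
@[simp] lemma theta_C (c b : k) : theta c (C b) = C b := by simp [theta]

lemma theta_theta [CharP k 2] (c : k) (f : PP k) : theta c (theta c f) = f := by
  have : (theta c).comp (theta c) = AlgHom.id k (PP k) := by
    apply MvPolynomial.algHom_ext
    intro i
    fin_cases i
    · simp [add_assoc, CharTwo.add_self_eq_zero]
    · simp
    · simp
  exact DFunLike.congr_fun this f

lemma theta_zero (f : PP k) : theta 0 f = f := by
  have : theta (0 : k) = AlgHom.id k (PP k) := by
    apply MvPolynomial.algHom_ext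
    intro i
    fin_cases i <;> simp
  rw [this]
  rfl

lemma theta_isWH (c : k) (e : ZMod 2) (f : PP k) (hf : IsWeightedHomogeneous wt f e) :
    IsWeightedHomogeneous wt (theta c f) e := by
  rw [f.as_sum, map_sum]
  refine IsWeightedHomogeneous.sum _ _ _ ?_
  intro m hm
  have hw : Finsupp.weight wt m = e := hf (mem_support_iff.mp hm)
  rw [weight_eq] at hw
  rw [monomial_eq3]
  simp only [map_mul, map_pow, theta_X0, theta_X1, theta_X2, theta_C]
  have h0 : IsWeightedHomogeneous wt ((X 0 + C c : PP k) ^ m 0) 0 := by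
    have := ((isWH_X0 (k := k)).add (isWeightedHomogeneous_C wt c)).pow (m 0)
    rwa [smul_zero] at this
  have h1 := (isWH_X1 (k := k)).pow (m 1)
  have h2 := (isWH_X2 (k := k)).pow (m 2)
  have h3 := (((isWeightedHomogeneous_C wt (coeff m f)).mul h0).mul h1).mul h2
  have h4 : (0 : ZMod 2) + 0 + m 1 • 1 + m 2 • 1 = e := by
    rw [← hw]
    simp
  rwa [h4] at h3

lemma theta_hh (c : k) : theta c (hh k) = hc c := by
  simp [hh, hc]

/-- the parameters -/
noncomputable def xsl : Option k → List (RR k)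
  | none => [gU k, gV k]
  | some c => [gU k, gV k, gT k + algebraMap k (RR k) c]

/-- the corresponding ideals of `k[t,x,z]` -/
noncomputable def JJ : Option k → ℕ → Ideal (PP k)
  | none, n => Ideal.span {X 1 ^ (2 * n), X 2 ^ (2 * n)}
  | some c, n => Ideal.span {(X 0 + C c) ^ n, X 1 ^ (2 * n), X 2 ^ (2 * n)}

lemma mem_JJ_none (n : ℕ) (f : PP k) : f ∈ JJ none n ↔
    ∀ m : Fin 3 →₀ ℕ, m 1 < 2 * n → m 2 < 2 * n → coeff m f = 0 := by
  have h1 : JJ none n = Ideal.span ((fun s => monomial s (1 : k)) '' {ex 0 (2 * n) 0, ex 0 0 (2 * n)}) := by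
    rw [Set.image_pair, monomial_ex, monomial_ex]
    simp [JJ]
  rw [h1, mem_ideal_span_monomial_image]
  constructor
  · intro h m hm1 hm2
    by_contra hne
    obtain ⟨si, hsi, hle⟩ := h m (mem_support_iff.mpr hne)
    rw [le3] at hle
    rcases hsi with rfl | rfl
    · simp at hle; omega
    · simp at hle; omega
  · intro h m hm
    by_cases h1 : 2 * n ≤ m 1
    · exact ⟨ex 0 (2 * n) 0, by simp, by rw [le3]; simpa using h1⟩
    · by_cases h2 : 2 * n ≤ m 2
      · exact ⟨ex 0 0 (2 * n), by simp, by rw [le3]; simpa using h2⟩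
      · exact absurd (h m (by omega) (by omega)) (mem_support_iff.mp hm)

lemma mem_J0 (n : ℕ) (f : PP k) : f ∈ Ideal.span {X 0 ^ n, X 1 ^ (2 * n), X 2 ^ (2 * n)} ↔
    ∀ m : Fin 3 →₀ ℕ, m 0 < n → m 1 < 2 * n → m 2 < 2 * n → coeff m f = 0 := by
  have h1 : (Ideal.span {X 0 ^ n, X 1 ^ (2 * n), X 2 ^ (2 * n)} : Ideal (PP k)) =
      Ideal.span ((fun s => monomial s (1 : k)) '' {ex n 0 0, ex 0 (2 * n) 0, ex 0 0 (2 * n)}) := by
    rw [Set.image_insert_eq, Set.image_pair, monomial_ex, monomial_ex, monomial_ex]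
    simp
  rw [h1, mem_ideal_span_monomial_image]
  constructor
  · intro h m hm0 hm1 hm2
    by_contra hne
    obtain ⟨si, hsi, hle⟩ := h m (mem_support_iff.mpr hne)
    rw [le3] at hle
    rcases hsi with rfl | rfl | rfl
    · simp at hle; omega
    · simp at hle; omega
    · simp at hle; omega
  · intro h m hm
    by_cases h0 : n ≤ m 0
    · exact ⟨ex n 0 0, by simp, by rw [le3]; simpa using h0⟩
    · by_cases h1 : 2 * n ≤ m 1
      · exact ⟨ex 0 (2 * n) 0, by simp, by rw [le3]; simpa using h1⟩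
      · by_cases h2 : 2 * n ≤ m 2
        · exact ⟨ex 0 0 (2 * n), by simp, by rw [le3]; simpa using h2⟩
        · exact absurd (h m (by omega) (by omega) (by omega)) (mem_support_iff.mp hm)

lemma mem_JJ_some [CharP k 2] (c : k) (n : ℕ) (f : PP k) : f ∈ JJ (some c) n ↔
    ∀ m : Fin 3 →₀ ℕ, m 0 < n → m 1 < 2 * n → m 2 < 2 * n → coeff m (theta c f) = 0 := by
  rw [← mem_J0]
  constructor
  · intro h
    have := Ideal.mem_map_of_mem (theta c) h
    rw [JJ, Ideal.map_span] at this
    simpa [Set.image_insert_eq, Set.image_pair, add_assoc, ← C_add, CharTwo.add_self_eq_zero] using this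
  · intro h
    have := Ideal.mem_map_of_mem (theta c) h
    rw [Ideal.map_span, theta_theta] at this
    simpa [Set.image_insert_eq, Set.image_pair, JJ] using this

lemma EE_mul {g : PP k} (hg : IsWeightedHomogeneous wt g 0) (f : PP k) :
    EE (g * f) = EE g * EE f := by
  apply Subtype.ext
  change iota (cmp 0 (g * f)) = iota (cmp 0 g) * iota (cmp 0 f)
  rw [cmp_mul hg, hg.weightedHomogeneousComponent_same, map_mul, add_zero]

lemma OO_mul {g : PP k} (hg : IsWeightedHomogeneous wt g 0) (f : PP k) :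
    OO (g * f) = EE g * OO f := by
  apply Subtype.ext
  change (OO (g * f) : AA k) = iota (cmp 0 g) * (OO f : AA k)
  rw [coe_OO, coe_OO, cmp_mul hg, hg.weightedHomogeneousComponent_same, map_mul, add_zero, mul_assoc]

lemma EE_pow {g : PP k} (hg : IsWeightedHomogeneous wt g 0) (n : ℕ) :
    EE (g ^ n) = EE g ^ n := by
  apply Subtype.ext
  have h : IsWeightedHomogeneous wt (g ^ n) 0 := by
    have := hg.pow n
    rwa [smul_zero] at this
  change iota (cmp 0 (g ^ n)) = iota (cmp 0 g) ^ n
  rw [h.weightedHomogeneousComponent_same, hg.weightedHomogeneousComponent_same, map_pow]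

lemma isWH_U : IsWeightedHomogeneous wt (X 1 ^ 2 : PP k) 0 := (gU k).2.1
lemma isWH_V : IsWeightedHomogeneous wt (X 2 ^ 2 : PP k) 0 := (gV k).2.1
lemma isWH_T (c : k) : IsWeightedHomogeneous wt (X 0 + C c : PP k) 0 :=
  isWH_X0.add (isWeightedHomogeneous_C wt c)

lemma EE_U : EE (X 1 ^ 2) = gU k := by
  apply Subtype.ext
  rw [coe_EE, isWH_U.weightedHomogeneousComponent_same]
  rfl

lemma EE_V : EE (X 2 ^ 2) = gV k := by
  apply Subtype.ext
  rw [coe_EE, isWH_V.weightedHomogeneousComponent_same]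
  rfl

lemma EE_T (c : k) : EE (X 0 + C c) = gT k + algebraMap k (RR k) c := by
  apply Subtype.ext
  rw [coe_EE, (isWH_T c).weightedHomogeneousComponent_same, map_add]
  rfl

lemma coe_EE_of {g : PP k} (hg : IsWeightedHomogeneous wt g 0) : (EE g : AA k) = iota g := by
  rw [coe_EE, hg.weightedHomogeneousComponent_same]

lemma pow_isWH {g : PP k} (hg : IsWeightedHomogeneous wt g 0) (n : ℕ) :
    IsWeightedHomogeneous wt (g ^ n) 0 := by
  have := hg.pow n
  rwa [smul_zero] at this

/-- the polynomials corresponding to the parameters -/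
noncomputable def ysl : Option k → List (PP k)
  | none => [X 1 ^ 2, X 2 ^ 2]
  | some c => [X 1 ^ 2, X 2 ^ 2, X 0 + C c]

lemma ysl_isWH (o : Option k) : ∀ g ∈ ysl o, IsWeightedHomogeneous wt g 0 := by
  cases o with
  | none =>
    intro g hg
    simp only [ysl, List.mem_cons, List.not_mem_nil, or_false] at hg
    rcases hg with rfl | rfl
    · exact isWH_U
    · exact isWH_V
  | some c =>
    intro g hg
    simp only [ysl, List.mem_cons, List.not_mem_nil, or_false] at hg
    rcases hg with rfl | rfl | rfl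
    · exact isWH_U
    · exact isWH_V
    · exact isWH_T c

lemma xsl_eq (o : Option k) : xsl o = (ysl o).map EE := by
  cases o with
  | none => simp [xsl, ysl, EE_U, EE_V]
  | some c => simp [xsl, ysl, EE_U, EE_V, EE_T]

lemma JJ_eq (o : Option k) (n : ℕ) : JJ o n = Ideal.ofList ((ysl o).map (· ^ n)) := by
  cases o with
  | none =>
    simp only [JJ, ysl, Ideal.ofList, List.map_cons, List.map_nil, ← pow_mul]
    congr 1
    ext y
    simp
  | some c =>
    simp only [JJ, ysl, Ideal.ofList, List.map_cons, List.map_nil, ← pow_mul]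
    congr 1
    ext y
    simp
    tauto

/-- membership in ideals generated by even polynomials -/
lemma mem_ofList_EE (ys : List (PP k)) (hys : ∀ g ∈ ys, IsWeightedHomogeneous wt g 0) (a : RR k) :
    a ∈ Ideal.ofList (ys.map EE) ↔
      (a : AA k).re ∈ Ideal.ofList ys ∧ (a : AA k).im ∈ Ideal.ofList ys := by
  constructor
  · intro h
    refine Submodule.span_induction (p := fun (a : RR k) _ => (a : AA k).re ∈ Ideal.ofList ys ∧
      (a : AA k).im ∈ Ideal.ofList ys) ?_ ?_ ?_ ?_ h
    · intro x hx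
      obtain ⟨g, hg, rfl⟩ := List.mem_map.mp hx
      rw [coe_EE_of (hys g hg)]
      exact ⟨Ideal.subset_span hg, zero_mem _⟩
    · exact ⟨zero_mem _, zero_mem _⟩
    · rintro x y - - ⟨hx, hx'⟩ ⟨hy, hy'⟩
      exact ⟨add_mem hx hy, add_mem hx' hy'⟩
    · rintro b x - ⟨hx, hx'⟩
      constructor
      · change (b : AA k).re * (x : AA k).re + hh k * X 1 * (b : AA k).im * (x : AA k).im ∈ _
        exact add_mem (Ideal.mul_mem_left _ _ hx) (Ideal.mul_mem_left _ _ hx')
      · change (b : AA k).re * (x : AA k).im + (b : AA k).im * (x : AA k).re +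
          hh k * (b : AA k).im * (x : AA k).im ∈ _
        exact add_mem (add_mem (Ideal.mul_mem_left _ _ hx') (Ideal.mul_mem_left _ _ hx))
          (Ideal.mul_mem_left _ _ hx')
  · rintro ⟨h, h'⟩
    have key : ∀ f ∈ Ideal.ofList ys, EE f ∈ Ideal.ofList (ys.map EE) ∧
        OO f ∈ Ideal.ofList (ys.map EE) := by
      intro f hf
      refine Submodule.closure_induction (p := fun f _ => EE f ∈ Ideal.ofList (ys.map EE) ∧
        OO f ∈ Ideal.ofList (ys.map EE)) ?_ ?_ ?_ hf
      · rw [map_zero, map_zero]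
        exact ⟨zero_mem _, zero_mem _⟩
      · rintro x y - - ⟨hx, hx'⟩ ⟨hy, hy'⟩
        rw [map_add, map_add]
        exact ⟨add_mem hx hy, add_mem hx' hy'⟩
      · intro r g hg
        have hg' : EE g ∈ Ideal.ofList (ys.map EE) :=
          Ideal.subset_span (List.mem_map.mpr ⟨g, hg, rfl⟩)
        rw [smul_eq_mul, mul_comm r g, EE_mul (hys g hg), OO_mul (hys g hg)]
        exact ⟨Ideal.mul_mem_right _ _ hg', Ideal.mul_mem_right _ _ hg'⟩
    rw [eq_EE_add_OO a]
    exact add_mem (key _ h).1 (key _ h').2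

lemma map_pow_EE (o : Option k) (n : ℕ) :
    (xsl o).map (· ^ n) = ((ysl o).map (· ^ n)).map EE := by
  rw [xsl_eq, List.map_map, List.map_map]
  apply List.map_congr_left
  intro g hg
  exact (EE_pow (ysl_isWH o g hg) n).symm

lemma mem_ofList_iff (o : Option k) (n : ℕ) (a : RR k) :
    a ∈ Ideal.ofList ((xsl o).map (· ^ n)) ↔ (a : AA k).re ∈ JJ o n ∧ (a : AA k).im ∈ JJ o n := by
  rw [map_pow_EE, mem_ofList_EE _ _ a, JJ_eq]
  intro g hg
  obtain ⟨y, hy, rfl⟩ := List.mem_map.mp hg
  exact pow_isWH (ysl_isWH o y hy) n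

/-- The ideals generated by powers of the parameters are Frobenius closed, in a strong sense. -/
theorem closed_xsl [CharP k 2] (o : Option k) (n : ℕ) (a : RR k)
    (ha : a ^ 2 ∈ Ideal.ofList ((xsl o).map (· ^ ((n + 1) * 2)))) :
    a ∈ Ideal.ofList ((xsl o).map (· ^ (n + 1))) := by
  rw [mem_ofList_iff] at ha ⊢
  have hre : ((a ^ 2 : RR k) : AA k).re = (a : AA k).re ^ 2 + (a : AA k).im ^ 2 * hh k * X 1 := by
    change ((a : AA k) ^ 2).re = _
    rw [sq, QuadraticAlgebra.re_mul]
    ring
  have him : ((a ^ 2 : RR k) : AA k).im = (a : AA k).im ^ 2 * hh k := by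
    change ((a : AA k) ^ 2).im = _
    rw [sq, QuadraticAlgebra.im_mul]
    have h2 : (2 : PP k) = 0 := CharTwo.two_eq_zero
    linear_combination ((a : AA k).re * (a : AA k).im) * h2
  rw [hre, him] at ha
  obtain ⟨h1, h2⟩ := ha
  cases o with
  | none =>
    rw [mem_JJ_none] at h1 h2
    rw [mem_JJ_none, mem_JJ_none]
    have e : hc (0 : k) = hh k := by simp [hc, hh]
    constructor
    · intro m hm1 hm2
      exact core_alpha 0 (fun _ => True) (fun _ => True) (by simp) (n + 1) (a : AA k).re (a : AA k).im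
        (fun m _ hm1 hm2 => by rw [e]; exact h1 m (by omega) (by omega)) m trivial hm1 hm2
    · intro m hm1 hm2
      exact core_beta 0 (fun _ => True) (fun _ => True) (by simp) (n + 1) _ a.2.2
        (fun m _ hm1 hm2 => by rw [e]; exact h2 m (by omega) (by omega)) m trivial hm1 hm2
  | some c =>
    rw [mem_JJ_some] at h1 h2
    rw [mem_JJ_some, mem_JJ_some]
    simp only [map_add, map_mul, map_pow, theta_hh, theta_X1] at h1 h2
    constructor
    · intro m hm0 hm1 hm2
      exact core_alpha c (fun i => i < n + 1) (fun i => i < (n + 1) * 2) (by intro i hi; omega)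
        (n + 1) _ _ (fun m hm0 hm1 hm2 => h1 m hm0 (by omega) (by omega)) m hm0 hm1 hm2
    · intro m hm0 hm1 hm2
      exact core_beta c (fun i => i < n + 1) (fun i => i < (n + 1) * 2) (by intro i hi; omega)
        (n + 1) _ (theta_isWH c 1 _ a.2.2)
        (fun m hm0 hm1 hm2 => h2 m hm0 (by omega) (by omega)) m hm0 hm1 hm2

end
end Pool.Agent.H91
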