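import Mathlib
import Pool.Agent.helper91.Ring1
set_option autoImplicit false
universe u
open MvPolynomial

namespace Pool.Agent.H91
section
variable (k : Type u) [Field k]

/-- the fraction field of `k[t, x, z]` -/
abbrev KK : Type u := FractionRing (PP k)

/-- the quadratic extension of the fraction field -/
abbrev FF : Type u := QuadraticAlgebra (KK k) (algebraMap (PP k) (KK k) (hh k * X 1))
  (algebraMap (PP k) (KK k) (hh k))

variable {k}

lemma not_X2_dvd_X1 : ¬ (X 2 : PP k) ∣ X 1 := by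
  rw [MvPolynomial.X_dvd_X]
  simp

lemma prime_XX (i j : Fin 3) (hij : i ≠ j) : Prime (X i : PP k) :=
  ⟨X_ne_zero i, fun h => hij ((MvPolynomial.X_dvd_X).mp h.dvd), fun _ _ h => X_dvd_mul_iff.mp h⟩

lemma prime_X2 : Prime (X 2 : PP k) := prime_XX 2 1 (by decide)

lemma not_X2_dvd_e : ¬ (X 2 : PP k) ∣ (X 1 ^ 2 + X 0 * X 2 ^ 2) := by
  intro h
  have h1 : (X 2 : PP k) ∣ X 0 * X 2 ^ 2 := ⟨X 0 * X 2, by ring⟩
  have h2 := (dvd_add_left h1).mp h
  exact not_X2_dvd_X1 (prime_X2.dvd_of_dvd_pow h2)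

lemma no_root (r : KK k) : r ^ 2 ≠ algebraMap (PP k) (KK k) (hh k * X 1) +
    algebraMap (PP k) (KK k) (hh k) * r := by
  intro hr
  have hint : IsIntegral (PP k) r := by
    refine ⟨Polynomial.X ^ 2 - Polynomial.C (hh k) * Polynomial.X - Polynomial.C (hh k * X 1), ?_, ?_⟩
    · monicity!
    · simp [hr]
  obtain ⟨p, rfl⟩ := IsIntegrallyClosed.isIntegral_iff.mp hint
  have hp : p ^ 2 = hh k * X 1 + hh k * p := by
    apply IsFractionRing.injective (PP k) (KK k)
    rw [map_pow, hr, map_add, map_mul, map_mul]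
  have h1 : (X 2 : PP k) ∣ p ^ 2 := by
    rw [hp, ← mul_add, hh, mul_assoc]
    exact dvd_mul_right _ _
  obtain ⟨q, rfl⟩ := prime_X2.dvd_of_dvd_pow h1
  have h2 : (X 2 : PP k) * (X 2 * q ^ 2) = X 2 * ((X 1 ^ 2 + X 0 * X 2 ^ 2) * (X 1 + X 2 * q)) := by
    calc (X 2 : PP k) * (X 2 * q ^ 2) = (X 2 * q) ^ 2 := by ring
      _ = _ := by rw [hp, hh]; ring
  have h3 := mul_left_cancel₀ (prime_X2 (k := k)).ne_zero h2
  have h4 : (X 2 : PP k) ∣ (X 1 ^ 2 + X 0 * X 2 ^ 2) * (X 1 + X 2 * q) := ⟨q ^ 2, h3.symm⟩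
  rcases prime_X2.dvd_or_dvd h4 with h5 | h5
  · exact not_X2_dvd_e h5
  · exact not_X2_dvd_X1 ((dvd_add_left ⟨q, rfl⟩).mp h5)

instance fact_no_root : Fact (∀ r : KK k, r ^ 2 ≠ algebraMap (PP k) (KK k) (hh k * X 1) +
    algebraMap (PP k) (KK k) (hh k) * r) := ⟨no_root⟩

noncomputable example : Field (FF k) := inferInstance

/-- base change of quadratic algebras -/
def qmap {R S : Type*} [CommRing R] [CommRing S] (f : R →+* S) (a b : R) :
    QuadraticAlgebra R a b →+* QuadraticAlgebra S (f a) (f b) where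
  toFun z := ⟨f z.re, f z.im⟩
  map_one' := QuadraticAlgebra.ext (map_one f) (map_zero f)
  map_mul' x y := by ext <;> simp
  map_zero' := QuadraticAlgebra.ext (map_zero f) (map_zero f)
  map_add' x y := by ext <;> simp

/-- the inclusion of `AA` in the field `FF` -/
noncomputable def toFF : AA k →+* FF k := qmap (algebraMap (PP k) (KK k)) _ _

lemma toFF_injective : Function.Injective (toFF (k := k)) := by
  intro a b hab
  have h1 := congrArg QuadraticAlgebra.re hab
  have h2 := congrArg QuadraticAlgebra.im hab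
  exact QuadraticAlgebra.ext (IsFractionRing.injective (PP k) (KK k) h1)
    (IsFractionRing.injective (PP k) (KK k) h2)

instance : IsDomain (AA k) := toFF_injective.isDomain toFF

instance : IsDomain (RR k) := inferInstance

lemma star_integral (ξ : FF k) (h : IsIntegral (PP k) ξ) : IsIntegral (PP k) (star ξ) := by
  refine IsIntegral.map_of_comp_eq (RingHom.id (PP k)) (starRingEnd (FF k)) ?_ h
  refine RingHom.ext fun p => ?_
  refine QuadraticAlgebra.ext ?_ ?_
  · change algebraMap (PP k) (KK k) p = algebraMap (PP k) (KK k) p + _ * 0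
    rw [mul_zero, add_zero]
  · change (0 : KK k) = - 0
    rw [neg_zero]

lemma trace_mem [CharP k 2] (ξ : FF k) (h : IsIntegral (PP k) ξ) :
    ∃ c : PP k, algebraMap (PP k) (KK k) c = algebraMap (PP k) (KK k) (hh k) * ξ.im := by
  have h1 := h.add (star_integral ξ h)
  have : CharP (KK k) 2 := inferInstance
  have h3 : ξ + star ξ = algebraMap (KK k) (FF k) (algebraMap (PP k) (KK k) (hh k) * ξ.im) := by
    refine QuadraticAlgebra.ext ?_ ?_
    · change ξ.re + (ξ.re + algebraMap (PP k) (KK k) (hh k) * ξ.im) = _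
      rw [← add_assoc, CharTwo.add_self_eq_zero, zero_add]
      rfl
    · change ξ.im + - ξ.im = 0
      rw [add_neg_cancel]
  rw [h3] at h1
  have h2 := (isIntegral_algebraMap_iff (FaithfulSMul.algebraMap_injective (KK k) (FF k))).mp h1
  exact IsIntegrallyClosed.isIntegral_iff.mp h2

lemma norm_mem (ξ : FF k) (h : IsIntegral (PP k) ξ) :
    ∃ c : PP k, algebraMap (PP k) (KK k) c = ξ.norm := by
  have h1 := h.mul (star_integral ξ h)
  rw [← QuadraticAlgebra.algebraMap_norm_eq_mul_star] at h1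
  have h2 := (isIntegral_algebraMap_iff (FaithfulSMul.algebraMap_injective (KK k) (FF k))).mp h1
  exact IsIntegrallyClosed.isIntegral_iff.mp h2

lemma pderiv0_hh : pderiv 0 (hh k) = (X 2 : PP k) ^ 3 := by
  have h10 : pderiv (0 : Fin 3) (X 1 : PP k) = 0 := pderiv_X_of_ne (by decide)
  have h20 : pderiv (0 : Fin 3) (X 2 : PP k) = 0 := pderiv_X_of_ne (by decide)
  simp only [hh, Derivation.leibniz, Derivation.leibniz_pow, map_add, pderiv_X_self, h10, h20,
    smul_eq_mul, mul_zero, smul_zero, zero_add, add_zero, mul_one]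
  ring

lemma pderiv2_hh : pderiv 2 (hh k) = (X 1 : PP k) ^ 2 + 3 * X 0 * X 2 ^ 2 := by
  have h10 : pderiv (2 : Fin 3) (X 1 : PP k) = 0 := pderiv_X_of_ne (by decide)
  have h20 : pderiv (2 : Fin 3) (X 0 : PP k) = 0 := pderiv_X_of_ne (by decide)
  simp only [hh, Derivation.leibniz, Derivation.leibniz_pow, map_add, pderiv_X_self, h10, h20,
    smul_eq_mul, mul_zero, smul_zero, zero_add, add_zero, mul_one, nsmul_eq_mul]
  push_cast
  ring

lemma squarefree_hh : Squarefree (hh k) := by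
  rintro d ⟨q, hq⟩
  have hd : ∀ i, d ∣ pderiv i (hh k) := by
    intro i
    rw [hq]
    simp only [Derivation.leibniz, smul_eq_mul]
    exact ⟨d * pderiv i q + 2 * q * pderiv i d, by ring⟩
  have h0 := hd 0
  have h2 := hd 2
  rw [pderiv0_hh] at h0
  rw [pderiv2_hh] at h2
  obtain ⟨i, -, hi⟩ := (dvd_prime_pow prime_X2 3).mp h0
  rcases Nat.eq_zero_or_pos i with rfl | hpos
  · rw [pow_zero, associated_one_iff_isUnit] at hi
    exact hi
  · exfalso
    have h3 : (X 2 : PP k) ∣ d := (dvd_pow_self _ hpos.ne').trans hi.dvd'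
    have h4 := h3.trans h2
    have h5 : (X 2 : PP k) ∣ 3 * X 0 * X 2 ^ 2 := ⟨3 * X 0 * X 2, by ring⟩
    exact not_X2_dvd_X1 (prime_X2.dvd_of_dvd_pow ((dvd_add_left h5).mp h4))

lemma not_X1_dvd_hh : ¬ (X 1 : PP k) ∣ hh k := by
  intro h
  have p1 : Prime (X 1 : PP k) := prime_XX 1 0 (by decide)
  rcases p1.dvd_or_dvd h with h1 | h1
  · rw [MvPolynomial.X_dvd_X] at h1
    simp at h1
  · have h2 : (X 1 : PP k) ∣ X 1 ^ 2 := dvd_pow_self _ two_ne_zero
    rcases p1.dvd_or_dvd ((dvd_add_right h2).mp h1) with h3 | h3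
    · rw [MvPolynomial.X_dvd_X] at h3
      simp at h3
    · have := p1.dvd_of_dvd_pow h3
      rw [MvPolynomial.X_dvd_X] at this
      simp at this

/-- `AA` is integrally closed in `FF`. -/
lemma exists_of_integral [CharP k 2] (ξ : FF k) (h : IsIntegral (PP k) ξ) :
    ∃ a : AA k, toFF a = ξ := by
  obtain ⟨c, hc⟩ := trace_mem ξ h
  obtain ⟨n, hn⟩ := norm_mem ξ h
  obtain ⟨p, ⟨q, hqm⟩, hpq, hα⟩ := IsFractionRing.exists_reduced_fraction (A := PP k) ξ.re
  have hqne : q ≠ 0 := nonZeroDivisors.ne_zero hqm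
  simp only at hpq
  have hq0 : (algebraMap (PP k) (KK k) q) ≠ 0 := by
    rw [Ne, IsFractionRing.to_map_eq_zero_iff]
    exact hqne
  have hα' : ξ.re * algebraMap (PP k) (KK k) q = algebraMap (PP k) (KK k) p := by
    rw [← hα]
    exact IsLocalization.mk'_spec _ _ _
  rw [QuadraticAlgebra.norm_def] at hn
  set f := algebraMap (PP k) (KK k) with hf
  have hinj : Function.Injective f := IsFractionRing.injective (PP k) (KK k)
  have hmm : f (hh k * X 1) = f (hh k) * f (X 1) := map_mul f _ _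
  -- the equation in `P`
  have e1 : hh k * p ^ 2 + hh k * p * c * q = q ^ 2 * (hh k * n + X 1 * c ^ 2) := by
    apply hinj
    simp only [map_add, map_mul, map_pow]
    rw [← hα', hc, hn]
    linear_combination (f q ^ 2 * f (hh k) * ξ.im ^ 2) * hmm
  have hcop : ∀ a : PP k, q ∣ a * p ^ 2 → q ∣ a := by
    intro a ha
    have : IsRelPrime q (p ^ 2) := (IsRelPrime.pow_right hpq.symm)
    exact this.dvd_of_dvd_mul_right ha
  have hq1 : q ∣ hh k := by
    apply hcop
    have : hh k * p ^ 2 = q * (q * (hh k * n + X 1 * c ^ 2) - hh k * p * c) := by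
      linear_combination e1
    exact ⟨_, this⟩
  obtain ⟨h1, hh1⟩ := hq1
  have e2 : h1 * p ^ 2 = q * ((hh k * n + X 1 * c ^ 2) - h1 * p * c) := by
    apply mul_left_cancel₀ hqne
    linear_combination e1 - (p ^ 2 + p * c * q) * hh1
  have hq2 : q ∣ h1 := hcop h1 ⟨_, e2⟩
  have hunit : IsUnit q := by
    apply squarefree_hh (k := k)
    rw [hh1]
    exact mul_dvd_mul_left _ hq2
  obtain ⟨q', hq'⟩ := hunit
  let α : PP k := p * (q'⁻¹ : (PP k)ˣ)
  have hα2 : f α = ξ.re := by
    have hq'' : f q * f ((q'⁻¹ : (PP k)ˣ) : PP k) = 1 := by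
      rw [← map_mul, ← hq', Units.mul_inv, map_one]
    simp only [α, map_mul]
    rw [← hα', mul_assoc, hq'', mul_one]
  have e3 : hh k * (α ^ 2 + α * c - n) = X 1 * c ^ 2 := by
    apply hinj
    simp only [map_add, map_sub, map_mul, map_pow]
    rw [hα2, hc, hn]
    linear_combination (f (hh k) * ξ.im ^ 2) * hmm
  have p1 : Prime (X 1 : PP k) := prime_XX 1 0 (by decide)
  have h5 : (X 1 : PP k) ∣ (α ^ 2 + α * c - n) := by
    have : (X 1 : PP k) ∣ hh k * (α ^ 2 + α * c - n) := ⟨_, e3⟩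
    exact (p1.dvd_or_dvd this).resolve_left not_X1_dvd_hh
  obtain ⟨m, hm⟩ := h5
  have e4 : hh k * m = c ^ 2 := by
    apply mul_left_cancel₀ p1.ne_zero
    rw [← e3, hm]
    ring
  have h6 : hh k ∣ c := (squarefree_hh.dvd_pow_iff_dvd two_ne_zero).mp ⟨m, e4.symm⟩
  obtain ⟨b, hb⟩ := h6
  have hne : f (hh k) ≠ 0 := by
    rw [Ne, IsFractionRing.to_map_eq_zero_iff]
    exact squarefree_hh.ne_zero
  refine ⟨⟨α, b⟩, QuadraticAlgebra.ext hα2 ?_⟩
  apply mul_left_cancel₀ hne
  change f (hh k) * f b = f (hh k) * ξ.im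
  rw [← hc, ← map_mul, hb]

/-- The ring `RR` is normal. -/
theorem RR_isIntegrallyClosed [CharP k 2] : IsIntegrallyClosed (RR k) := by
  rw [isIntegrallyClosed_iff (FractionRing (RR k))]
  intro x hx
  let _ : Algebra (AA k) (FF k) := (toFF (k := k)).toAlgebra
  have htower : IsScalarTower (PP k) (AA k) (FF k) := by
    refine IsScalarTower.of_algebraMap_eq fun p => ?_
    refine QuadraticAlgebra.ext rfl ?_
    exact (map_zero (algebraMap (PP k) (KK k))).symm
  let g : RR k →+* FF k := (toFF (k := k)).comp (RR k).subtype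
  have hg : Function.Injective g := toFF_injective.comp Subtype.val_injective
  let ι : FractionRing (RR k) →+* FF k := IsFractionRing.lift hg
  have hι : ∀ r, ι (algebraMap (RR k) (FractionRing (RR k)) r) = g r := fun r =>
    IsFractionRing.lift_algebraMap hg r
  have h1 : IsIntegral (AA k) (ι x) := by
    refine IsIntegral.map_of_comp_eq (RR k).subtype ι ?_ hx
    refine RingHom.ext fun r => ?_
    exact (hι r).symm
  have h2 : IsIntegral (PP k) (ι x) := isIntegral_trans (ι x) h1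
  obtain ⟨a, ha⟩ := exists_of_integral (ι x) h2
  obtain ⟨⟨r, ⟨s, hs⟩⟩, hrs⟩ := IsLocalization.surj (nonZeroDivisors (RR k)) x
  have hs0 : s ≠ 0 := nonZeroDivisors.ne_zero hs
  simp only at hrs
  have h3 : (s : AA k) * a = r := by
    apply toFF_injective
    rw [map_mul, ha, mul_comm]
    have := congrArg ι hrs
    rw [map_mul, hι, hι] at this
    exact this
  have h4 : a ∈ RR k := by
    refine mem_RR_of_mul_mem s.2 ?_ (by rw [h3]; exact r.2)
    intro h0
    exact hs0 (Subtype.ext h0)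
  refine ⟨⟨a, h4⟩, ?_⟩
  have h5 : s * (⟨a, h4⟩ : RR k) = r := Subtype.ext h3
  have h6 : algebraMap (RR k) (FractionRing (RR k)) s ≠ 0 := by
    rw [Ne, IsFractionRing.to_map_eq_zero_iff]
    exact hs0
  apply mul_left_cancel₀ h6
  rw [← map_mul, h5, ← hrs]
  exact mul_comm _ _

end
end Pool.Agent.H91
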