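import Mathlib
import Pool.Agent.helper91.Idl
import Pool.Agent.helper91.Ring2
set_option autoImplicit false
universe u
open MvPolynomial RingTheory.Sequence

namespace Pool.Agent.H91

lemma isWeaklyRegular_of_mem {R : Type u} [CommRing R] (rs : List R)
    (H : ∀ (i : ℕ) (hi : i < rs.length) (x : R), rs[i] * x ∈ Ideal.ofList (rs.take i) →
      x ∈ Ideal.ofList (rs.take i)) : IsWeaklyRegular R rs := by
  rw [isWeaklyRegular_iff]
  intro i hi
  rw [isSMulRegular_quotient_iff_mem_of_smul_mem]
  intro x hx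
  have h0 : (Ideal.ofList (rs.take i) • (⊤ : Submodule R R)) = Ideal.ofList (rs.take i) := by
    rw [smul_eq_mul, Ideal.mul_top]
  rw [h0] at hx ⊢
  exact H i hi x hx

section
variable {k : Type u} [Field k] [CharP k 2]

lemma theta_mem_JJ_none (c : k) (n : ℕ) (f : PP k) (hf : f ∈ JJ none n) :
    theta c f ∈ JJ (none : Option k) n := by
  have := Ideal.mem_map_of_mem (theta c) hf
  rw [JJ, Ideal.map_span] at this
  simpa [Set.image_pair, JJ] using this

lemma regular_PP (o : Option k) (n : ℕ) (i : ℕ) (hi : i < ((ysl o).map (· ^ (n + 1))).length)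
    (x : PP k) (hx : ((ysl o).map (· ^ (n + 1)))[i] * x ∈
      Ideal.ofList (((ysl o).map (· ^ (n + 1))).take i)) :
    x ∈ Ideal.ofList (((ysl o).map (· ^ (n + 1))).take i) := by
  have p1 : Prime (X 1 : PP k) := prime_XX 1 0 (by decide)
  have p2 : Prime (X 2 : PP k) := prime_XX 2 0 (by decide)
  have case0 : ∀ (g x : PP k), g ≠ 0 → g * x ∈ Ideal.ofList ([] : List (PP k)) →
      x ∈ Ideal.ofList ([] : List (PP k)) := by
    intro g x hg hx
    simp only [Ideal.ofList_nil, Ideal.mem_bot] at hx ⊢
    exact (mul_eq_zero.mp hx).resolve_left hg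
  have case1 : ∀ x : PP k, (X 2 ^ 2) ^ (n + 1) * x ∈ Ideal.ofList [((X 1 : PP k) ^ 2) ^ (n + 1)] →
      x ∈ Ideal.ofList [((X 1 : PP k) ^ 2) ^ (n + 1)] := by
    intro x hx
    simp only [Ideal.ofList_singleton, Ideal.mem_span_singleton] at hx ⊢
    have hrel : IsRelPrime (((X 1 : PP k) ^ 2) ^ (n + 1)) ((X 2 ^ 2) ^ (n + 1)) := by
      apply IsRelPrime.pow
      apply IsRelPrime.pow
      rw [p1.irreducible.isRelPrime_iff_not_dvd, MvPolynomial.X_dvd_X]
      simp
    exact hrel.dvd_of_dvd_mul_left hx
  cases o with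
  | none =>
    simp only [ysl, List.map_cons, List.map_nil, List.length_cons, List.length_nil] at hi
    obtain rfl | rfl : i = 0 ∨ i = 1 := by omega
    · exact case0 _ x (pow_ne_zero _ (pow_ne_zero _ p1.ne_zero)) hx
    · exact case1 x hx
  | some c =>
    simp only [ysl, List.map_cons, List.map_nil, List.length_cons, List.length_nil] at hi
    obtain rfl | rfl | rfl : i = 0 ∨ i = 1 ∨ i = 2 := by omega
    · exact case0 _ x (pow_ne_zero _ (pow_ne_zero _ p1.ne_zero)) hx
    · exact case1 x hx
    · have e : Ideal.ofList (((ysl (some c)).map (· ^ (n + 1))).take 2) = JJ (none : Option k) (n + 1) := by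
        rw [JJ_eq]
        rfl
      rw [e] at hx ⊢
      have hx' : (X 0 + C c : PP k) ^ (n + 1) * x ∈ JJ (none : Option k) (n + 1) := hx
      have h2 := theta_mem_JJ_none c (n + 1) _ hx'
      rw [map_mul, map_pow, map_add, theta_X0, theta_C, add_assoc, ← C_add,
        CharTwo.add_self_eq_zero, C_0, add_zero, mem_JJ_none] at h2
      have h3 : theta c x ∈ JJ (none : Option k) (n + 1) := by
        rw [mem_JJ_none]
        intro m hm1 hm2
        have h4 := h2 (m + ex (n + 1) 0 0) (by simpa using hm1) (by simpa using hm2)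
        have h5 : (X 0 ^ (n + 1) * theta c x : PP k) = theta c x * monomial (ex (n + 1) 0 0) 1 := by
          rw [monomial_ex]
          ring
        rw [h5, coeff_mul_monomial, mul_one] at h4
        exact h4
      have := theta_mem_JJ_none c (n + 1) _ h3
      rwa [theta_theta] at this

theorem weaklyRegular_xsl (o : Option k) (n : ℕ) :
    IsWeaklyRegular (RR k) ((xsl o).map (· ^ (n + 1))) := by
  apply isWeaklyRegular_of_mem
  intro i hi x hx
  have hys : ∀ g ∈ ((ysl o).map (· ^ (n + 1))), IsWeightedHomogeneous wt g 0 := by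
    intro g hg
    obtain ⟨y, hy, rfl⟩ := List.mem_map.mp hg
    exact pow_isWH (ysl_isWH o y hy) _
  have hi' : i < ((ysl o).map (· ^ (n + 1))).length := by
    rw [map_pow_EE, List.length_map] at hi
    exact hi
  have e1 : ((xsl o).map (· ^ (n + 1))).take i = (((ysl o).map (· ^ (n + 1))).take i).map EE := by
    rw [map_pow_EE, List.map_take]
  have e2 : ((xsl o).map (· ^ (n + 1)))[i] = EE (((ysl o).map (· ^ (n + 1)))[i]) := by
    simp only [map_pow_EE, List.getElem_map]
  have hys' : ∀ g ∈ ((ysl o).map (· ^ (n + 1))).take i, IsWeightedHomogeneous wt g 0 :=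
    fun g hg => hys g (List.mem_of_mem_take hg)
  have hg := hys _ (List.getElem_mem hi')
  rw [e1, e2, mem_ofList_EE _ hys'] at hx
  rw [e1, mem_ofList_EE _ hys']
  have h1 : ∀ g : PP k, IsWeightedHomogeneous wt g 0 → ((EE g * x : RR k) : AA k).re = g * (x : AA k).re ∧
      ((EE g * x : RR k) : AA k).im = g * (x : AA k).im := by
    intro g hg
    have : ((EE g * x : RR k) : AA k) = iota g * x := by
      change (EE g : AA k) * x = _
      rw [coe_EE_of hg]
    rw [this]
    constructor
    · change g * (x : AA k).re + hh k * X 1 * 0 * (x : AA k).im = _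
      ring
    · change g * (x : AA k).im + 0 * (x : AA k).re + hh k * 0 * (x : AA k).im = _
      ring
  rw [(h1 _ hg).1, (h1 _ hg).2] at hx
  exact ⟨regular_PP o n i hi' _ hx.1, regular_PP o n i hi' _ hx.2⟩

end
end Pool.Agent.H91
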