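import Mathlib
import Pool.Agent.helper91.Loc
import Pool.Agent.helper91.WReg
set_option autoImplicit false
universe u
open IsLocalRing RingTheory.Sequence

namespace Pool.Agent.H91

variable {R : Type u} [CommRing R]

lemma mem_of_isWeaklyRegular (rs : List R) (H : IsWeaklyRegular R rs) (i : ℕ) (hi : i < rs.length)
    (x : R) (hx : rs[i] * x ∈ Ideal.ofList (rs.take i)) : x ∈ Ideal.ofList (rs.take i) := by
  rw [isWeaklyRegular_iff] at H
  have := H i hi
  rw [isSMulRegular_quotient_iff_mem_of_smul_mem] at this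
  have h0 : (Ideal.ofList (rs.take i) • (⊤ : Submodule R R)) = Ideal.ofList (rs.take i) := by
    rw [smul_eq_mul, Ideal.mul_top]
  rw [h0] at this
  exact this x hx

lemma mk'_mem_map_iff (𝔭 : Ideal R) [𝔭.IsPrime] (L : Type u) [CommRing L] [Algebra R L]
    [IsLocalization.AtPrime L 𝔭] (I : Ideal R) (a : R) (s : 𝔭.primeCompl) :
    IsLocalization.mk' L a s ∈ I.map (algebraMap R L) ↔ ∃ t : 𝔭.primeCompl, (t : R) * a ∈ I := by
  rw [IsLocalization.mem_map_algebraMap_iff 𝔭.primeCompl]
  constructor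
  · rintro ⟨⟨⟨b, hb⟩, t⟩, hbt⟩
    simp only at hbt
    have h1 : algebraMap R L (a * t) = algebraMap R L (b * s) := by
      have h2 := IsLocalization.mk'_spec L a s
      rw [map_mul, map_mul, ← h2, ← hbt]
      ring
    obtain ⟨c, hc⟩ := (IsLocalization.eq_iff_exists 𝔭.primeCompl L).mp h1
    refine ⟨c * t, ?_⟩
    have : ((c * t : 𝔭.primeCompl) : R) * a = c * s * b := by
      rw [Submonoid.coe_mul]
      linear_combination hc
    rw [this]
    exact Ideal.mul_mem_left _ _ hb
  · rintro ⟨t, ht⟩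
    refine ⟨⟨⟨_, ht⟩, t * s⟩, ?_⟩
    simp only [Submonoid.coe_mul, map_mul]
    have h2 := IsLocalization.mk'_spec L a s
    linear_combination (algebraMap R L t) * h2

lemma algebraMap_mem_map_iff (𝔭 : Ideal R) [𝔭.IsPrime] (L : Type u) [CommRing L] [Algebra R L]
    [IsLocalization.AtPrime L 𝔭] (I : Ideal R) (a : R) :
    algebraMap R L a ∈ I.map (algebraMap R L) ↔ ∃ t : 𝔭.primeCompl, (t : R) * a ∈ I := by
  rw [← mk'_mem_map_iff 𝔭 L I a 1, IsLocalization.mk'_one]

/-- regularity of a sequence in the localization, elementwise -/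
lemma isWeaklyRegular_loc_iff (𝔭 : Ideal R) [𝔭.IsPrime] (L : Type u) [CommRing L] [Algebra R L]
    [IsLocalization.AtPrime L 𝔭] (rs : List R) :
    IsWeaklyRegular L (rs.map (algebraMap R L)) ↔
      ∀ (i : ℕ) (hi : i < rs.length) (x : R), (∃ t : 𝔭.primeCompl, (t : R) * (rs[i] * x) ∈
        Ideal.ofList (rs.take i)) → ∃ t : 𝔭.primeCompl, (t : R) * x ∈ Ideal.ofList (rs.take i) := by
  have e : ∀ i, Ideal.ofList ((rs.map (algebraMap R L)).take i) =
      (Ideal.ofList (rs.take i)).map (algebraMap R L) := by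
    intro i
    rw [← List.map_take, ofList_map_map]
  constructor
  · intro H i hi x hx
    rw [← algebraMap_mem_map_iff 𝔭 L] at hx ⊢
    rw [← e] at hx ⊢
    refine mem_of_isWeaklyRegular _ H i (by simpa using hi) _ ?_
    rw [List.getElem_map, ← map_mul]
    exact hx
  · intro H
    apply isWeaklyRegular_of_mem
    intro i hi x hx
    obtain ⟨a, s, rfl⟩ := IsLocalization.exists_mk'_eq 𝔭.primeCompl x
    rw [List.getElem_map, e, ← IsLocalization.mk'_one (M := 𝔭.primeCompl) L (rs[i]'(by simpa using hi)),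
      ← IsLocalization.mk'_mul, mk'_mem_map_iff] at hx
    rw [e, mk'_mem_map_iff]
    exact H i (by simpa using hi) a hx

/-- Failure of F-injectivity for the localization of a hypersurface section. -/
theorem not_isFInjective_section [IsNoetherianRing R] (p : ℕ) [ExpChar R p]
    (𝔪 : Ideal R) [𝔪.IsPrime] (l : R) (hl : l ∈ 𝔪) (us : List R) (hne : us ≠ [])
    (hus : ∀ x ∈ us, x ∈ 𝔪)
    (hreg : ∀ n : ℕ, IsWeaklyRegular R (us.map (· ^ (n + 1)) ++ [l]))
    (hrad : 𝔪 ≤ (Ideal.ofList (l :: us)).radical)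
    (g : R) (hg : ∀ s, s ∉ 𝔪 → s * g ∉ Ideal.ofList (l :: us))
    (hgp : g ^ p ∈ Ideal.ofList (l :: us.map (· ^ p)))
    {R' : Type u} [CommRing R'] (π : R →+* R') (hπ : Function.Surjective π)
    (hker : RingHom.ker π = Ideal.span {l})
    (𝔪' : Ideal R') [𝔪'.IsPrime] (hm : 𝔪'.comap π = 𝔪)
    (L : Type u) [CommRing L] [Algebra R' L] [IsLocalization.AtPrime L 𝔪']
    [IsLocalRing L] [ExpChar L p] : ¬ IsFInjectiveLocalRing L p := by
  have hN' : IsNoetherianRing R' := isNoetherianRing_of_surjective R R' π hπ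
  have hN : IsNoetherianRing L := IsLocalization.isNoetherianRing 𝔪'.primeCompl L inferInstance
  have hp : 0 < p := expChar_pos R p
  -- ideals
  have key : ∀ (rs : List R) (a : R), π a ∈ Ideal.ofList (rs.map π) ↔ a ∈ Ideal.ofList (l :: rs) := by
    intro rs a
    rw [ofList_map_map, Ideal.mem_map_iff_of_surjective π hπ, Ideal.ofList_cons]
    constructor
    · rintro ⟨b, hb, hab⟩
      have h1 : a - b ∈ RingHom.ker π := by
        rw [RingHom.mem_ker, map_sub, hab, sub_self]
      rw [hker] at h1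
      have : a = (a - b) + b := by ring
      rw [this]
      exact Submodule.add_mem_sup h1 hb
    · intro ha
      obtain ⟨c, hc, b, hb, rfl⟩ := Submodule.mem_sup.mp ha
      refine ⟨b, hb, ?_⟩
      have : π c = 0 := by
        rw [← hker] at hc
        exact hc
      rw [map_add, this, zero_add]
  have hmem : ∀ s : R, π s ∈ 𝔪' ↔ s ∈ 𝔪 := by
    intro s
    rw [← hm, Ideal.mem_comap]
  have hpow : ∀ (n : ℕ), ((us.map π).map (algebraMap R' L)).map (· ^ n) =
      (((us.map (· ^ n)).map π).map (algebraMap R' L)) := by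
    intro n
    simp only [List.map_map]
    congr 1
    funext x
    simp
  refine not_isFInjective_of p ((us.map π).map (algebraMap R' L)) ?_ ?_ ?_ ?_
    (algebraMap R' L (π g)) ?_ ?_
  · intro h
    rw [List.map_map] at h
    exact hne (List.map_eq_nil_iff.mp h)
  · intro x hx
    obtain ⟨y, hy, rfl⟩ := List.mem_map.mp hx
    obtain ⟨z, hz, rfl⟩ := List.mem_map.mp hy
    rw [IsLocalization.AtPrime.to_map_mem_maximal_iff L 𝔪', hmem]
    exact hus z hz
  · intro y hy
    obtain ⟨a', s', rfl⟩ := IsLocalization.exists_mk'_eq 𝔪'.primeCompl y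
    have ha : a' ∈ 𝔪' := (IsLocalization.AtPrime.mk'_mem_maximal_iff L 𝔪' a' s').mp hy
    obtain ⟨a, rfl⟩ := hπ a'
    rw [hmem] at ha
    obtain ⟨n, hn⟩ := hrad ha
    refine ⟨n, ?_⟩
    rw [ofList_map_map, ← IsLocalization.mk'_pow, mk'_mem_map_iff]
    refine ⟨1, ?_⟩
    rw [Submonoid.coe_one, one_mul, ← map_pow, key]
    exact hn
  · intro n
    rw [hpow, isWeaklyRegular_loc_iff 𝔪' L]
    -- regularity of the permuted sequence
    have h1 : IsWeaklyRegular (Localization.AtPrime 𝔪)
        ((us.map (· ^ (n + 1)) ++ [l]).map (algebraMap R (Localization.AtPrime 𝔪))) :=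
      IsWeaklyRegular.of_isLocalization (Localization.AtPrime 𝔪) 𝔪.primeCompl (hreg n)
    have h2 : IsWeaklyRegular (Localization.AtPrime 𝔪)
        ((l :: us.map (· ^ (n + 1))).map (algebraMap R (Localization.AtPrime 𝔪))) := by
      refine IsLocalRing.isWeaklyRegular_of_perm_of_subset_maximalIdeal h1 ?_ ?_
      · exact (List.perm_append_singleton l _).map _
      · intro r hr
        obtain ⟨y, hy, rfl⟩ := List.mem_map.mp hr
        rw [IsLocalization.AtPrime.to_map_mem_maximal_iff _ 𝔪]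
        rw [List.mem_append, List.mem_singleton] at hy
        rcases hy with hy | rfl
        · obtain ⟨z, hz, rfl⟩ := List.mem_map.mp hy
          exact Ideal.pow_mem_of_mem _ (hus z hz) _ (Nat.succ_pos n)
        · exact hl
    rw [isWeaklyRegular_loc_iff 𝔪 (Localization.AtPrime 𝔪)] at h2
    intro i hi x' hx'
    obtain ⟨x, rfl⟩ := hπ x'
    obtain ⟨⟨t', ht'⟩, hx'⟩ := hx'
    obtain ⟨t, rfl⟩ := hπ t'
    have hi' : i < (us.map (· ^ (n + 1))).length := by simpa using hi
    have ht : t ∉ 𝔪 := fun h => ht' ((hmem t).mpr h)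
    simp only [List.getElem_map, ← map_mul, ← List.map_take] at hx'
    rw [key] at hx'
    obtain ⟨⟨t2, ht2⟩, h3⟩ := h2 (i + 1) (by simpa using hi') x ⟨⟨t, ht⟩, by
      simpa [List.getElem_cons_succ, List.take_succ_cons] using hx'⟩
    refine ⟨⟨π t2, fun h => ht2 ((hmem t2).mp h)⟩, ?_⟩
    simp only [← map_mul, ← List.map_take]
    rw [key]
    simpa [List.take_succ_cons] using h3
  · rw [ofList_map_map, algebraMap_mem_map_iff 𝔪' L]
    rintro ⟨⟨t', ht'⟩, h1⟩
    obtain ⟨t, rfl⟩ := hπ t'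
    rw [← map_mul, key] at h1
    exact hg t (fun h => ht' ((hmem t).mpr h)) h1
  · rw [hpow, ofList_map_map, ← map_pow, algebraMap_mem_map_iff 𝔪' L]
    refine ⟨1, ?_⟩
    rw [Submonoid.coe_one, one_mul, ← map_pow, key]
    exact hgp

end Pool.Agent.H91
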