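import Mathlib
import Pool.Agent.helper91.WReg
import Pool.Agent.helper91.Loc
set_option autoImplicit false
universe u
open MvPolynomial RingTheory.Sequence

namespace Pool.Agent.H91

section
variable {k : Type u} [Field k]

/-- restriction to the line `x = z = 0` -/
noncomputable def ev0 : PP k →ₐ[k] Polynomial k := aeval ![Polynomial.X, 0, 0]

lemma ev0_X1 : ev0 (X 1 : PP k) = 0 := by simp [ev0]
lemma ev0_X2 : ev0 (X 2 : PP k) = 0 := by simp [ev0]
lemma ev0_X0 : ev0 (X 0 : PP k) = Polynomial.X := by simp [ev0]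
lemma ev0_C (c : k) : ev0 (C c : PP k) = Polynomial.C c := by simp [ev0]
lemma ev0_hh : ev0 (hh k) = 0 := by
  rw [hh, map_mul, ev0_X2, zero_mul]

lemma coeff_ev0 (f : PP k) (j : ℕ) : (ev0 f).coeff j = coeff (ex j 0 0) f := by
  induction f using MvPolynomial.induction_on' with
  | monomial m c =>
    rw [monomial_eq3]
    simp only [map_mul, map_pow, ev0_X0, ev0_X1, ev0_X2, ev0_C]
    rw [← monomial_eq3, coeff_monomial]
    by_cases h1 : m 1 = 0
    · by_cases h2 : m 2 = 0
      · rw [h1, h2, pow_zero, mul_one, mul_one, Polynomial.coeff_C_mul_X_pow]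
        have : m = ex j 0 0 ↔ j = m 0 := by
          constructor
          · intro h
            rw [h]
            rfl
          · rintro rfl
            exact ext3 rfl h1 h2
        by_cases h : j = m 0
        · rw [if_pos h, if_pos (this.mpr h)]
        · rw [if_neg h, if_neg (fun h' => h (this.mp h'))]
      · rw [zero_pow h2, mul_zero, Polynomial.coeff_zero, if_neg]
        rintro rfl
        exact h2 rfl
    · rw [zero_pow h1, mul_zero, zero_mul, Polynomial.coeff_zero, if_neg]
      rintro rfl
      exact h1 rfl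
  | add p q hp hq => rw [map_add, Polynomial.coeff_add, hp, hq, coeff_add]

/-- the evaluation at the vertices -/
noncomputable def evR : RR k →+* Polynomial k where
  toFun a := ev0 (a : AA k).re
  map_one' := map_one _
  map_zero' := map_zero _
  map_add' a b := map_add _ _ _
  map_mul' a b := by
    change ev0 ((a : AA k).re * (b : AA k).re + hh k * X 1 * (a : AA k).im * (b : AA k).im) = _
    simp [ev0_hh]

lemma evR_gT : evR (gT k) = Polynomial.X := ev0_X0
lemma evR_algebraMap (c : k) : evR (algebraMap k (RR k) c) = Polynomial.C c := ev0_C c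

/-- polynomials in `t` -/
noncomputable def inT : Polynomial k →ₐ[k] RR k := Polynomial.aeval (gT k)

lemma evR_inT (p : Polynomial k) : evR (inT p) = p := by
  have : (evR.comp (inT (k := k)).toRingHom) = RingHom.id _ := by
    apply Polynomial.ringHom_ext
    · intro a
      change evR (inT (Polynomial.C a)) = _
      rw [inT, Polynomial.aeval_C, evR_algebraMap]
      rfl
    · change evR (inT Polynomial.X) = _
      rw [inT, Polynomial.aeval_X, evR_gT]
      rfl
  exact RingHom.congr_fun this p

lemma evR_surjective : Function.Surjective (evR (k := k)) := fun p => ⟨inT p, evR_inT p⟩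

instance charP_RR [CharP k 2] : CharP (RR k) 2 :=
  charP_of_injective_algebraMap (algebraMap k (RR k)).injective 2

lemma hh_mem : hh k ∈ JJ (none : Option k) 1 := by
  have e : hh k = X 2 * X 1 ^ (2 * 1) + (X 0 * X 2) * X 2 ^ (2 * 1) := by
    rw [hh]; ring
  rw [e, JJ]
  exact add_mem (Ideal.mul_mem_left _ _ (Ideal.subset_span (by simp)))
    (Ideal.mul_mem_left _ _ (Ideal.subset_span (by simp)))

lemma sq_mem_of_ev0 [CharP k 2] (f : PP k) (hf : ev0 f = 0) : f ^ 2 ∈ JJ (none : Option k) 1 := by
  rw [mem_JJ_none]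
  intro m hm1 hm2
  by_cases h0 : m 0 % 2 = 1
  · exact coeff_sq_odd f m 0 h0
  by_cases h1 : m 1 % 2 = 1
  · exact coeff_sq_odd f m 1 h1
  by_cases h2 : m 2 % 2 = 1
  · exact coeff_sq_odd f m 2 h2
  have e : m = 2 • ex (m 0 / 2) 0 0 := by
    apply ext3
    · simp; omega
    · simp; omega
    · simp; omega
  rw [e, coeff_sq_two, ← coeff_ev0, hf]
  simp

lemma xsl_eq_pow (o : Option k) : xsl o = (xsl o).map (· ^ 1) := by
  simp

lemma sq_re [CharP k 2] (a : RR k) : ((a ^ 2 : RR k) : AA k).re =
    (a : AA k).re ^ 2 + (a : AA k).im ^ 2 * hh k * X 1 := by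
  change ((a : AA k) ^ 2).re = _
  rw [sq, QuadraticAlgebra.re_mul]
  ring

lemma sq_im [CharP k 2] (a : RR k) : ((a ^ 2 : RR k) : AA k).im = (a : AA k).im ^ 2 * hh k := by
  change ((a : AA k) ^ 2).im = _
  rw [sq, QuadraticAlgebra.im_mul]
  have h2 : (2 : PP k) = 0 := CharTwo.two_eq_zero
  linear_combination ((a : AA k).re * (a : AA k).im) * h2

lemma sq_mem_of_evR [CharP k 2] (a : RR k) (ha : evR a = 0) :
    a ^ 2 ∈ Ideal.ofList (xsl (none : Option k)) := by
  rw [xsl_eq_pow, mem_ofList_iff, sq_re, sq_im]
  constructor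
  · exact add_mem (sq_mem_of_ev0 _ ha)
      (Ideal.mul_mem_right _ _ (Ideal.mul_mem_left _ _ hh_mem))
  · exact Ideal.mul_mem_left _ _ hh_mem

/-- the vertex primes -/
noncomputable def vert : Option k → Ideal (RR k)
  | none => RingHom.ker evR
  | some c => Ideal.comap evR (Ideal.span {Polynomial.X + Polynomial.C c})

lemma ofList_none_le (o : Option k) : Ideal.ofList (xsl (none : Option k)) ≤ Ideal.ofList (xsl o) := by
  cases o with
  | none => exact le_refl _
  | some c =>
    apply Ideal.span_mono
    intro x hx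
    simp only [xsl, List.mem_cons, List.not_mem_nil, or_false, Set.mem_ofPred_eq] at hx ⊢
    tauto

lemma sq_mem_of_vert [CharP k 2] (o : Option k) (a : RR k) (ha : a ∈ vert o) :
    a ^ 2 ∈ Ideal.ofList (xsl o) := by
  cases o with
  | none => exact sq_mem_of_evR a ha
  | some c =>
    obtain ⟨q, hq⟩ := Ideal.mem_span_singleton'.mp (Ideal.mem_comap.mp ha)
    have h1 : evR (a + inT q * (gT k + algebraMap k (RR k) c)) = 0 := by
      rw [map_add, map_mul, map_add, evR_inT, evR_gT, evR_algebraMap, hq,
        CharTwo.add_self_eq_zero]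
    have h2 := ofList_none_le (some c) (sq_mem_of_evR _ h1)
    rw [CharTwo.add_sq] at h2
    have h3 : (inT q * (gT k + algebraMap k (RR k) c)) ^ 2 ∈ Ideal.ofList (xsl (some c)) := by
      rw [sq]
      refine Ideal.mul_mem_left _ _ (Ideal.mul_mem_left _ _ (Ideal.subset_span ?_))
      simp [xsl]
    exact (Ideal.add_mem_iff_left _ h3).mp h2

lemma evR_gU : evR (gU k) = 0 := by
  change ev0 (X 1 ^ 2) = 0
  rw [map_pow, ev0_X1]
  simp

lemma evR_gV : evR (gV k) = 0 := by
  change ev0 (X 2 ^ 2) = 0
  rw [map_pow, ev0_X2]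
  simp

lemma xsl_mem_vert (o : Option k) : ∀ x ∈ xsl o, x ∈ vert o := by
  cases o with
  | none =>
    intro x hx
    simp only [xsl, List.mem_cons, List.not_mem_nil, or_false] at hx
    rcases hx with rfl | rfl
    · exact evR_gU
    · exact evR_gV
  | some c =>
    intro x hx
    simp only [xsl, List.mem_cons, List.not_mem_nil, or_false] at hx
    rw [vert, Ideal.mem_comap]
    rcases hx with rfl | rfl | rfl
    · rw [evR_gU]; exact zero_mem _
    · rw [evR_gV]; exact zero_mem _
    · rw [map_add, evR_gT, evR_algebraMap]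
      exact Ideal.subset_span rfl

lemma exists_vert [CharP k 2] [IsAlgClosed k] (P : Ideal (RR k)) [hP : P.IsPrime] (hU : gU k ∈ P)
    (hV : gV k ∈ P) : ∃ o : Option k, P = vert o := by
  have hker : RingHom.ker (evR (k := k)) ≤ P := by
    intro a ha
    have h1 := sq_mem_of_evR a ha
    have h2 : Ideal.ofList (xsl (none : Option k)) ≤ P := by
      rw [Ideal.ofList, Ideal.span_le]
      intro x hx
      simp only [xsl, List.mem_cons, List.not_mem_nil, or_false, Set.mem_ofPred_eq] at hx
      rcases hx with rfl | rfl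
      · exact hU
      · exact hV
    exact hP.mem_of_pow_mem _ (h2 h1)
  set q := P.map (evR (k := k)) with hq
  have hqP : q.comap evR = P := by
    rw [hq, Ideal.comap_map_of_surjective evR evR_surjective, sup_eq_left]
    exact hker
  have hqprime : q.IsPrime := Ideal.map_isPrime_of_surjective evR_surjective hker
  by_cases hbot : q = ⊥
  · refine ⟨none, ?_⟩
    rw [← hqP, hbot]
    rfl
  · obtain ⟨g, hg⟩ := IsPrincipalIdealRing.principal q
    have hg' : q = Ideal.span {g} := hg
    have hg0 : g ≠ 0 := by
      rintro rfl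
      apply hbot
      rw [hg']
      simp
    have hgp : Prime g := (Ideal.span_singleton_prime hg0).mp (hg' ▸ hqprime)
    have hdeg : g.degree ≠ 0 := by
      intro h
      exact hgp.not_isUnit (Polynomial.isUnit_iff_degree_eq_zero.mpr h)
    obtain ⟨c, hc⟩ := IsAlgClosed.exists_root g hdeg
    have h3 : Polynomial.X - Polynomial.C c ∣ g := Polynomial.dvd_iff_isRoot.mpr hc
    have h4 : Associated (Polynomial.X - Polynomial.C c) g :=
      (Polynomial.irreducible_X_sub_C c).associated_of_dvd hgp.irreducible h3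
    refine ⟨some c, ?_⟩
    rw [← hqP, hg', ← Ideal.span_singleton_eq_span_singleton.mpr h4, vert,
      CharTwo.sub_eq_add]

instance finiteType_RR : Algebra.FiniteType k (RR k) := by
  refine ⟨Subalgebra.fg_def.mpr ⟨{gT k, gU k, gW k, gV k, gR k, gS k}, ?_, adjoin_eq_top⟩⟩
  exact Set.toFinite _

instance isNoetherianRing_RR : IsNoetherianRing (RR k) :=
  Algebra.FiniteType.isNoetherianRing k (RR k)

/-- Positive part: all the localizations of `RR` at primes are F-injective. -/
theorem isFInjective_RR [CharP k 2] [IsAlgClosed k] (P : Ideal (RR k)) [P.IsPrime]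
    (L : Type u) [CommRing L] [Algebra (RR k) L] [IsLocalization.AtPrime L P]
    [IsLocalRing L] [ExpChar L 2] : IsFInjectiveLocalRing L 2 := by
  by_cases hU : gU k ∈ P
  · by_cases hV : gV k ∈ P
    · obtain ⟨o, rfl⟩ := exists_vert P hU hV
      refine isFInjective_localization 2 (vert o) L (xsl o) ?_ (xsl_mem_vert o) ?_
        (weaklyRegular_xsl o) (closed_xsl o)
      · cases o <;> simp [xsl]
      · intro a ha
        exact ⟨2, sq_mem_of_vert o a ha⟩
    · refine isFInjective_localization_of_map 2 P L (sig (X 2) (X 1)) (sig_add _ _) (sig_mul _ _) ?_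
      rw [sig_one_V]
      exact hV
  · refine isFInjective_localization_of_map 2 P L (sig (X 1) (X 0 * X 1)) (sig_add _ _) (sig_mul _ _) ?_
    rw [sig_one_U]
    exact hU

end
end Pool.Agent.H91
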