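import Mathlib
import Pool.Agent.helper91.Primes
import Pool.Agent.helper91.Neg
set_option autoImplicit false
universe u
open MvPolynomial RingTheory.Sequence

namespace Pool.Agent.H91

section
variable {k : Type u} [Field k]

/-- the restriction to `RR` of the linear form with coefficients `α` -/
noncomputable def ell (α : Fin 7 → k) : RR k :=
  algebraMap k (RR k) (α 0) + algebraMap k (RR k) (α 1) * gT k + algebraMap k (RR k) (α 2) * gU k +
    algebraMap k (RR k) (α 3) * gW k + algebraMap k (RR k) (α 4) * gV k +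
    algebraMap k (RR k) (α 5) * gR k + algebraMap k (RR k) (α 6) * gS k

/-- the part of the linear form vanishing on the line of vertices -/
noncomputable def ell' (α : Fin 7 → k) : RR k :=
  algebraMap k (RR k) (α 2) * gU k +
    algebraMap k (RR k) (α 3) * gW k + algebraMap k (RR k) (α 4) * gV k +
    algebraMap k (RR k) (α 5) * gR k + algebraMap k (RR k) (α 6) * gS k

lemma evR_gW : evR (gW k) = 0 := by
  change ev0 (X 1 * X 2) = 0
  rw [map_mul, ev0_X1, zero_mul]

lemma evR_gR : evR (gR k) = 0 := by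
  change ev0 0 = 0
  exact map_zero _

lemma evR_gS : evR (gS k) = 0 := by
  change ev0 0 = 0
  exact map_zero _

lemma evR_ell' (α : Fin 7 → k) : evR (ell' α) = 0 := by
  simp [ell', evR_gU, evR_gV, evR_gW, evR_gR, evR_gS]

lemma ell_eq (α : Fin 7 → k) (h1 : α 1 ≠ 0) : ell α =
    algebraMap k (RR k) (α 1) * (gT k + algebraMap k (RR k) (α 0 / α 1)) + ell' α := by
  have h2 : algebraMap k (RR k) (α 1) * algebraMap k (RR k) (α 0 / α 1) = algebraMap k (RR k) (α 0) := by
    rw [← map_mul, mul_div_cancel₀ _ h1]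
  rw [mul_add, h2, ell, ell']
  ring

lemma evR_ell (α : Fin 7 → k) (h1 : α 1 ≠ 0) : evR (ell α) =
    Polynomial.C (α 1) * (Polynomial.X + Polynomial.C (α 0 / α 1)) := by
  rw [ell_eq α h1, map_add, evR_ell', add_zero, map_mul, map_add, evR_gT, evR_algebraMap,
    evR_algebraMap]

instance vert_isPrime (c : k) : (vert (some c)).IsPrime := by
  rw [vert]
  have : (Ideal.span {Polynomial.X + Polynomial.C c}).IsPrime := by
    rw [Ideal.span_singleton_prime (Polynomial.X_add_C_ne_zero c)]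
    have := Polynomial.irreducible_X_sub_C (-c)
    rw [map_neg, sub_neg_eq_add] at this
    exact this.prime
  exact Ideal.comap_isPrime _ _

lemma ell_mem_vert (α : Fin 7 → k) (h1 : α 1 ≠ 0) : ell α ∈ vert (some (α 0 / α 1)) := by
  rw [vert, Ideal.mem_comap, evR_ell α h1]
  exact Ideal.mul_mem_left _ _ (Ideal.subset_span rfl)

variable [CharP k 2]

lemma pow_two_pow_mem (xs : List (RR k)) (e : ℕ) (a : RR k) (ha : a ∈ Ideal.ofList xs) :
    a ^ 2 ^ e ∈ Ideal.ofList (xs.map (· ^ 2 ^ e)) := by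
  refine Submodule.span_induction (p := fun a _ => a ^ 2 ^ e ∈ Ideal.ofList (xs.map (· ^ 2 ^ e)))
    ?_ ?_ ?_ ?_ ha
  · intro x hx
    exact Ideal.subset_span (List.mem_map.mpr ⟨x, hx, rfl⟩)
  · rw [zero_pow (by positivity)]
    exact zero_mem _
  · intro x y _ _ hx hy
    rw [add_pow_char_pow]
    exact add_mem hx hy
  · intro b x _ hx
    rw [smul_eq_mul, mul_pow]
    exact Ideal.mul_mem_left _ _ hx

lemma reg_T (c : k) (n j : ℕ) (x : RR k)
    (hx : (gT k + algebraMap k (RR k) c) ^ j * x ∈ Ideal.ofList ((xsl (none : Option k)).map (· ^ (n + 1)))) :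
    x ∈ Ideal.ofList ((xsl (none : Option k)).map (· ^ (n + 1))) := by
  induction j with
  | zero => simpa using hx
  | succ j ih =>
    apply ih
    have h := mem_of_isWeaklyRegular _ (weaklyRegular_xsl (some c) n) 2 (by simp [xsl])
      ((gT k + algebraMap k (RR k) c) ^ j * x)
    have e1 : Ideal.ofList (((xsl (some c)).map (· ^ (n + 1))).take 2) =
        Ideal.ofList ((xsl (none : Option k)).map (· ^ (n + 1))) := rfl
    rw [e1] at h
    apply h
    change (gT k + algebraMap k (RR k) c) ^ (n + 1) * _ ∈ _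
    have e2 : (gT k + algebraMap k (RR k) c) ^ (n + 1) * ((gT k + algebraMap k (RR k) c) ^ j * x) =
      (gT k + algebraMap k (RR k) c) ^ n * ((gT k + algebraMap k (RR k) c) ^ (j + 1) * x) := by ring
    rw [e2]
    exact Ideal.mul_mem_left _ _ hx

/-- (N2) -/
lemma reg_section (α : Fin 7 → k) (h1 : α 1 ≠ 0) (n : ℕ) :
    IsWeaklyRegular (RR k) ((xsl (none : Option k)).map (· ^ (n + 1)) ++ [ell α]) := by
  apply isWeaklyRegular_of_mem
  intro i hi x hx
  have hlen : ((xsl (none : Option k)).map (· ^ (n + 1)) ++ [ell α]).length = 3 := by simp [xsl]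
  rw [hlen] at hi
  obtain rfl | rfl | rfl : i = 0 ∨ i = 1 ∨ i = 2 := by omega
  · exact mem_of_isWeaklyRegular _ (weaklyRegular_xsl none n) 0 (by simp [xsl]) x hx
  · exact mem_of_isWeaklyRegular _ (weaklyRegular_xsl none n) 1 (by simp [xsl]) x hx
  · have e1 : Ideal.ofList (((xsl (none : Option k)).map (· ^ (n + 1)) ++ [ell α]).take 2) =
        Ideal.ofList ((xsl (none : Option k)).map (· ^ (n + 1))) := rfl
    rw [e1] at hx ⊢
    have hx' : ell α * x ∈ Ideal.ofList ((xsl (none : Option k)).map (· ^ (n + 1))) := hx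
    set c := α 0 / α 1 with hc
    set e := n + 1 with he
    have hle : n + 1 ≤ 2 ^ e := (Nat.lt_two_pow_self (n := n + 1)).le
    have h2 : ell' α ^ 2 ^ (e + 1) ∈ Ideal.ofList ((xsl (none : Option k)).map (· ^ (n + 1))) := by
      have h3 := pow_two_pow_mem _ e _ (sq_mem_of_evR _ (evR_ell' α))
      rw [← pow_mul, ← pow_succ'] at h3
      exact ofList_pow_le _ hle h3
    have h3 : ell α ^ 2 ^ (e + 1) * x ∈ Ideal.ofList ((xsl (none : Option k)).map (· ^ (n + 1))) := by
      obtain ⟨q, hq⟩ : ∃ q, 2 ^ (e + 1) = q + 1 := ⟨2 ^ (e + 1) - 1, (Nat.sub_add_cancel (Nat.one_le_two_pow)).symm⟩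
      rw [hq, pow_succ, mul_assoc]
      exact Ideal.mul_mem_left _ _ hx'
    rw [ell_eq α h1, add_pow_char_pow, add_mul] at h3
    have h4 := (Ideal.add_mem_iff_left _ (Ideal.mul_mem_right x _ h2)).mp h3
    rw [mul_pow] at h4
    have h5 : (gT k + algebraMap k (RR k) c) ^ 2 ^ (e + 1) * x ∈
        Ideal.ofList ((xsl (none : Option k)).map (· ^ (n + 1))) := by
      have h6 : algebraMap k (RR k) ((α 1)⁻¹) ^ 2 ^ (e + 1) * (algebraMap k (RR k) (α 1) ^ 2 ^ (e + 1) *
        (gT k + algebraMap k (RR k) c) ^ 2 ^ (e + 1) * x) =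
          (gT k + algebraMap k (RR k) c) ^ 2 ^ (e + 1) * x := by
        rw [← mul_assoc, ← mul_assoc, ← mul_pow, ← map_mul, inv_mul_cancel₀ h1, map_one, one_pow,
          one_mul]
      rw [← h6]
      exact Ideal.mul_mem_left _ _ h4
    exact reg_T c n _ x h5

/-- (N5) -/
lemma rad_section (α : Fin 7 → k) (h1 : α 1 ≠ 0) :
    vert (some (α 0 / α 1)) ≤ (Ideal.ofList (ell α :: xsl (none : Option k))).radical := by
  set c := α 0 / α 1 with hc
  have hsub : Ideal.ofList (xsl (none : Option k)) ≤ Ideal.ofList (ell α :: xsl (none : Option k)) := by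
    apply Ideal.span_mono
    intro x hx
    exact List.mem_cons_of_mem _ hx
  have hl : ell α ∈ Ideal.ofList (ell α :: xsl (none : Option k)) :=
    Ideal.subset_span List.mem_cons_self
  have hT : gT k + algebraMap k (RR k) c ∈ (Ideal.ofList (ell α :: xsl (none : Option k))).radical := by
    refine ⟨2, ?_⟩
    have e1 : gT k + algebraMap k (RR k) c = algebraMap k (RR k) ((α 1)⁻¹) * (ell α - ell' α) := by
      rw [ell_eq α h1, add_sub_cancel_right, ← mul_assoc, ← map_mul, inv_mul_cancel₀ h1, map_one,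
        one_mul]
    rw [e1, mul_pow, CharTwo.sub_eq_add, CharTwo.add_sq]
    refine Ideal.mul_mem_left _ _ (add_mem ?_ ?_)
    · rw [sq]
      exact Ideal.mul_mem_left _ _ hl
    · exact hsub (sq_mem_of_evR _ (evR_ell' α))
  intro a ha
  have h2 := sq_mem_of_vert (some c) a ha
  have h3 : Ideal.ofList (xsl (some c)) ≤ (Ideal.ofList (ell α :: xsl (none : Option k))).radical := by
    rw [Ideal.ofList, Ideal.span_le]
    intro x hx
    simp only [xsl, List.mem_cons, List.not_mem_nil, or_false, Set.mem_ofPred_eq] at hx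
    rcases hx with rfl | rfl | rfl
    · exact Ideal.le_radical (hsub (Ideal.subset_span (by simp [xsl])))
    · exact Ideal.le_radical (hsub (Ideal.subset_span (by simp [xsl])))
    · exact hT
  exact Ideal.mem_radical_of_pow_mem (h3 h2)

/-- the coefficient of `x` as a polynomial in `t` -/
noncomputable def D1 (f : PP k) : Polynomial k := ev0 (pderiv 1 f)

omit [CharP k 2] in
lemma D1_mul (f g : PP k) : D1 (f * g) = ev0 f * D1 g + ev0 g * D1 f := by
  rw [D1, Derivation.leibniz, smul_eq_mul, smul_eq_mul, map_add, map_mul, map_mul]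
  rfl

omit [CharP k 2] in
lemma D1_add (f g : PP k) : D1 (f + g) = D1 f + D1 g := by
  rw [D1, map_add, map_add]
  rfl

omit [CharP k 2] in
lemma D1_mem (f : PP k) (hf : f ∈ JJ (none : Option k) 1) : ev0 f = 0 ∧ D1 f = 0 := by
  rw [JJ, Ideal.mem_span_pair] at hf
  obtain ⟨a, b, rfl⟩ := hf
  have e1 : ev0 (X 1 ^ (2 * 1) : PP k) = 0 := by rw [map_pow, ev0_X1]; simp
  have e2 : ev0 (X 2 ^ (2 * 1) : PP k) = 0 := by rw [map_pow, ev0_X2]; simp
  have d1 : D1 (X 1 ^ (2 * 1) : PP k) = 0 := by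
    rw [mul_one, sq, D1_mul, ev0_X1]; simp
  have d2 : D1 (X 2 ^ (2 * 1) : PP k) = 0 := by
    rw [mul_one, sq, D1_mul, ev0_X2]; simp
  constructor
  · rw [map_add, map_mul, map_mul, e1, e2]; simp
  · rw [D1_add, D1_mul, D1_mul, e1, e2, d1, d2]; simp

/-- the class which is not F-closed -/
noncomputable def gG (γ : k) : RR k := gR k + algebraMap k (RR k) γ * gS k

omit [CharP k 2] in
lemma coe_gG (γ : k) : (gG γ : AA k) = ⟨0, X 1 + C γ * X 2⟩ := by
  have : (gG γ : AA k) = ⟨0, X 1⟩ + iota (C γ) * ⟨0, X 2⟩ := rfl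
  rw [this, ← iota_mul_yy, ← iota_mul_yy, ← mul_assoc, ← map_mul, ← add_mul, ← map_add, iota_mul_yy]

omit [CharP k 2] in
lemma coe_ell (α : Fin 7 → k) : (ell α : AA k) =
    ⟨C (α 0) + C (α 1) * X 0 + C (α 2) * X 1 ^ 2 + C (α 3) * (X 1 * X 2) + C (α 4) * X 2 ^ 2,
      C (α 5) * X 1 + C (α 6) * X 2⟩ := by
  have : (ell α : AA k) = iota (C (α 0)) + iota (C (α 1)) * iota (X 0) +
      iota (C (α 2)) * iota (X 1 ^ 2) + iota (C (α 3)) * iota (X 1 * X 2) +
      iota (C (α 4)) * iota (X 2 ^ 2) + iota (C (α 5)) * ⟨0, X 1⟩ + iota (C (α 6)) * ⟨0, X 2⟩ := rfl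
  rw [this, ← iota_mul_yy, ← iota_mul_yy]
  ext1
  · simp only [iota_apply, yy, QuadraticAlgebra.re_add, QuadraticAlgebra.re_mul]
    ring
  · simp only [iota_apply, yy, QuadraticAlgebra.im_add, QuadraticAlgebra.im_mul,
      QuadraticAlgebra.re_mul]
    ring

/-- (N3) -/
lemma not_mem_section (α : Fin 7 → k) (h1 : α 1 ≠ 0) (γ : k) (s : RR k)
    (hs : s ∉ vert (some (α 0 / α 1))) :
    s * gG γ ∉ Ideal.ofList (ell α :: xsl (none : Option k)) := by
  intro h
  rw [Ideal.ofList_cons] at h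
  obtain ⟨b, hb, d, hd, hbd⟩ := Submodule.mem_sup.mp h
  obtain ⟨a, rfl⟩ := Ideal.mem_span_singleton'.mp hb
  have hd' : s * gG γ + a * ell α ∈ Ideal.ofList (xsl (none : Option k)) := by
    have : s * gG γ + a * ell α = d := by
      rw [← hbd, add_right_comm, CharTwo.add_self_eq_zero, zero_add]
    rwa [this]
  rw [xsl_eq_pow, mem_ofList_iff] at hd'
  obtain ⟨h2, h3⟩ := hd'
  apply hs
  rw [vert, Ideal.mem_comap]
  have hre : ((s * gG γ + a * ell α : RR k) : AA k).re = (s : AA k).re * 0 +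
      hh k * X 1 * (s : AA k).im * (X 1 + C γ * X 2) + ((a : AA k).re * (ell α : AA k).re +
      hh k * X 1 * (a : AA k).im * (ell α : AA k).im) := by
    change ((s : AA k) * (gG γ : AA k) + (a : AA k) * (ell α : AA k)).re = _
    rw [coe_gG]
    rfl
  have him : ((s * gG γ + a * ell α : RR k) : AA k).im = (s : AA k).re * (X 1 + C γ * X 2) +
      (s : AA k).im * 0 + hh k * (s : AA k).im * (X 1 + C γ * X 2) +
      ((a : AA k).re * (ell α : AA k).im + (a : AA k).im * (ell α : AA k).re +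
      hh k * (a : AA k).im * (ell α : AA k).im) := by
    change ((s : AA k) * (gG γ : AA k) + (a : AA k) * (ell α : AA k)).im = _
    rw [coe_gG]
    rfl
  rw [hre] at h2
  rw [him] at h3
  have evl0 : ev0 (ell α : AA k).re = Polynomial.C (α 1) * (Polynomial.X + Polynomial.C (α 0 / α 1)) :=
    evR_ell α h1
  have evl1 : ev0 (ell α : AA k).im = 0 := by
    rw [coe_ell]
    simp [ev0_X1, ev0_X2]
  have dl1 : D1 (hh k) = 0 := by
    rw [hh, D1_mul, ev0_X2, zero_mul, zero_add]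
    simp [ev0_X1, ev0_X2]
  have eva : ev0 (a : AA k).re = 0 := by
    have h4 := (D1_mem _ h2).1
    simp only [map_add, map_mul, ev0_hh, mul_zero, zero_mul, add_zero, zero_add, evl0] at h4
    rcases mul_eq_zero.mp h4 with h5 | h5
    · exact h5
    · exfalso
      rcases mul_eq_zero.mp h5 with h6 | h6
      · exact h1 (Polynomial.C_eq_zero.mp h6)
      · exact Polynomial.X_add_C_ne_zero _ h6
  have evs : ev0 (a : AA k).im = 0 := by
    have := a.2.2
    ext j
    rw [coeff_ev0, Polynomial.coeff_zero]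
    by_contra hne
    have h5 := this hne
    rw [weight_eq] at h5
    simp at h5
  have h4 := (D1_mem _ h3).2
  have dX : D1 (X 1 + C γ * X 2 : PP k) = 1 := by
    rw [D1_add, D1_mul, ev0_X2]
    simp [D1]
  have eX : ev0 (X 1 + C γ * X 2 : PP k) = 0 := by
    simp [ev0_X1, ev0_X2]
  simp only [D1_add, D1_mul, dX, eX, evs, eva, evl1, evl0, ev0_hh, dl1, map_mul, mul_zero, zero_mul,
    add_zero, zero_add, mul_one] at h4
  change ev0 (s : AA k).re ∈ _
  have h5 : ev0 (s : AA k).re = (Polynomial.C (α 1) * D1 (a : AA k).im) *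
      (Polynomial.X + Polynomial.C (α 0 / α 1)) := by
    rw [CharTwo.add_eq_zero] at h4
    rw [h4]
    ring
  rw [h5]
  exact Ideal.mul_mem_left _ _ (Ideal.subset_span rfl)

omit [CharP k 2] in
lemma rel_ww : gW k * gW k = gU k * gV k := by
  apply Subtype.ext
  change (⟨X 1 * X 2, 0⟩ : AA k) * ⟨X 1 * X 2, 0⟩ = ⟨X 1 ^ 2, 0⟩ * ⟨X 2 ^ 2, 0⟩
  ext1 <;> simp only [QuadraticAlgebra.re_mul, QuadraticAlgebra.im_mul] <;> ring

omit [CharP k 2] in
lemma rel_wr : gW k * gR k = gU k * gS k := by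
  apply Subtype.ext
  change (⟨X 1 * X 2, 0⟩ : AA k) * ⟨0, X 1⟩ = ⟨X 1 ^ 2, 0⟩ * ⟨0, X 2⟩
  ext1 <;> simp only [QuadraticAlgebra.re_mul, QuadraticAlgebra.im_mul] <;> ring

omit [CharP k 2] in
lemma rel_ws : gW k * gS k = gV k * gR k := by
  apply Subtype.ext
  change (⟨X 1 * X 2, 0⟩ : AA k) * ⟨0, X 2⟩ = ⟨X 2 ^ 2, 0⟩ * ⟨0, X 1⟩
  ext1 <;> simp only [QuadraticAlgebra.re_mul, QuadraticAlgebra.im_mul] <;> ring

omit [CharP k 2] in
lemma rel_rr : gR k * gR k = gU k * (gU k + gT k * gV k) * (gS k + gW k) := by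
  apply Subtype.ext
  change (⟨0, X 1⟩ : AA k) * ⟨0, X 1⟩ = ⟨X 1 ^ 2, 0⟩ * (⟨X 1 ^ 2, 0⟩ + ⟨X 0, 0⟩ * ⟨X 2 ^ 2, 0⟩) *
    (⟨0, X 2⟩ + ⟨X 1 * X 2, 0⟩)
  ext1 <;> simp only [QuadraticAlgebra.re_mul, QuadraticAlgebra.im_mul, QuadraticAlgebra.re_add,
    QuadraticAlgebra.im_add] <;> rw [hh] <;> ring

omit [CharP k 2] in
lemma rel_ss : gS k * gS k = gV k * (gU k + gT k * gV k) * (gS k + gW k) := by
  apply Subtype.ext
  change (⟨0, X 2⟩ : AA k) * ⟨0, X 2⟩ = ⟨X 2 ^ 2, 0⟩ * (⟨X 1 ^ 2, 0⟩ + ⟨X 0, 0⟩ * ⟨X 2 ^ 2, 0⟩) *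
    (⟨0, X 2⟩ + ⟨X 1 * X 2, 0⟩)
  ext1 <;> simp only [QuadraticAlgebra.re_mul, QuadraticAlgebra.im_mul, QuadraticAlgebra.re_add,
    QuadraticAlgebra.im_add] <;> rw [hh] <;> ring

omit [CharP k 2] in
lemma rel_rs : gR k * gS k = gV k * (gU k + gT k * gV k) * (gR k + gU k) := by
  apply Subtype.ext
  change (⟨0, X 1⟩ : AA k) * ⟨0, X 2⟩ = ⟨X 2 ^ 2, 0⟩ * (⟨X 1 ^ 2, 0⟩ + ⟨X 0, 0⟩ * ⟨X 2 ^ 2, 0⟩) *
    (⟨0, X 1⟩ + ⟨X 1 ^ 2, 0⟩)
  ext1 <;> simp only [QuadraticAlgebra.re_mul, QuadraticAlgebra.im_mul, QuadraticAlgebra.re_add,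
    QuadraticAlgebra.im_add] <;> rw [hh] <;> ring

/-- (N4) -/
lemma gG_sq_mem (α : Fin 7 → k) (h1 : α 1 ≠ 0) (γ : k) (hγ : γ ^ 2 = α 0 / α 1) :
    (gG γ) ^ 2 ∈ Ideal.ofList (ell α :: (xsl (none : Option k)).map (· ^ 2)) := by
  have hl : ell α ∈ Ideal.ofList (ell α :: (xsl (none : Option k)).map (· ^ 2)) :=
    Ideal.subset_span List.mem_cons_self
  have hu : gU k ^ 2 ∈ Ideal.ofList (ell α :: (xsl (none : Option k)).map (· ^ 2)) :=
    Ideal.subset_span (by simp [xsl])
  have hv : gV k ^ 2 ∈ Ideal.ofList (ell α :: (xsl (none : Option k)).map (· ^ 2)) :=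
    Ideal.subset_span (by simp [xsl])
  have h2 : (2 : RR k) = 0 := CharTwo.two_eq_zero
  have hG : (algebraMap k (RR k) γ) ^ 2 = algebraMap k (RR k) (α 0 / α 1) := by
    rw [← map_pow, hγ]
  have hab : algebraMap k (RR k) (α 1) * algebraMap k (RR k) ((α 1)⁻¹) = 1 := by
    rw [← map_mul, mul_inv_cancel₀ h1, map_one]
  have ha0 : algebraMap k (RR k) (α 0) = algebraMap k (RR k) (α 1) * algebraMap k (RR k) (α 0 / α 1) := by
    rw [← map_mul, mul_div_cancel₀ _ h1]
  have ww := rel_ww (k := k)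
  have wr := rel_wr (k := k)
  have ws := rel_ws (k := k)
  have rr := rel_rr (k := k)
  have ss := rel_ss (k := k)
  have rs := rel_rs (k := k)
  have key : (gG γ) ^ 2 =
      ((gS k + gW k) + algebraMap k (RR k) ((α 1)⁻¹) * (algebraMap k (RR k) (α 2) * gV k * (gS k + gW k)
        + algebraMap k (RR k) (α 5) * gV k * gS k)) * gU k ^ 2 +
      ((algebraMap k (RR k) (α 0 / α 1) ^ 2 + algebraMap k (RR k) (α 0 / α 1) *
        (gT k + algebraMap k (RR k) (α 0 / α 1))) * (gS k + gW k) + algebraMap k (RR k) ((α 1)⁻¹) *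
        (algebraMap k (RR k) (α 4) * gU k * (gS k + gW k) + algebraMap k (RR k) (α 3) * gU k * (gR k + gU k)
        + algebraMap k (RR k) (α 5) * gU k * (gU k + gT k * gV k) * (gR k + gU k) +
        algebraMap k (RR k) (α 6) * (gU k * (gU k + gT k * gV k) * (gS k + gW k) + gU k * gR k))) *
        gV k ^ 2 +
      (algebraMap k (RR k) ((α 1)⁻¹) * gU k * gV k * (gS k + gW k)) * ell α := by
    rw [gG, ell]
    generalize gU k = u at *
    generalize gV k = v at *
    generalize gW k = w at *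
    generalize gT k = t at *
    generalize gR k = r at *
    generalize gS k = s at *
    generalize algebraMap k (RR k) (α 0 / α 1) = c at *
    generalize algebraMap k (RR k) ((α 1)⁻¹) = b at *
    generalize algebraMap k (RR k) (α 0) = a0 at *
    generalize algebraMap k (RR k) (α 1) = a1 at *
    generalize algebraMap k (RR k) (α 2) = a2 at *
    generalize algebraMap k (RR k) (α 3) = a3 at *
    generalize algebraMap k (RR k) (α 4) = a4 at *
    generalize algebraMap k (RR k) (α 5) = a5 at *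
    generalize algebraMap k (RR k) (α 6) = a6 at *
    generalize algebraMap k (RR k) γ = G at *
    linear_combination rr + s ^ 2 * hG + c * ss - b * u * v * (s + w) * ha0 -
      u * v * (s + w) * (c + t) * hab - b * a3 * u * v * (ws + ww) - b * a5 * u * v * (rs + wr) -
      b * a6 * u * v * (ss + ws) + (G * r * s - c ^ 2 * v ^ 2 * (s + w) -
      b * (a2 * u ^ 2 * v * (s + w) + a4 * u * v ^ 2 * (s + w) + a3 * u * v ^ 2 * (r + u) +
      a5 * (u ^ 2 * v * s + u * v ^ 2 * (u + t * v) * (r + u)) +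
      a6 * (u * v ^ 2 * (u + t * v) * (s + w) + u * v ^ 2 * r))) * h2
  rw [key]
  exact add_mem (add_mem (Ideal.mul_mem_left _ _ hu) (Ideal.mul_mem_left _ _ hv))
    (Ideal.mul_mem_left _ _ hl)

/-- Negative part: the section by a linear form with nonzero coefficient of `t` has a
localization that is not F-injective. -/
theorem not_isFInjective_RR [IsAlgClosed k] (α : Fin 7 → k) (h1 : α 1 ≠ 0)
    {R' : Type u} [CommRing R'] (π : RR k →+* R') (hπ : Function.Surjective π)
    (hker : RingHom.ker π = Ideal.span {ell α}) :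
    ∃ 𝔪' : Ideal R', ∃ _ : 𝔪'.IsPrime, ∀ (L : Type u) [CommRing L] [Algebra R' L]
      [IsLocalization.AtPrime L 𝔪'] [IsLocalRing L] [ExpChar L 2], ¬ IsFInjectiveLocalRing L 2 := by
  obtain ⟨γ, hγ⟩ := IsAlgClosed.exists_pow_nat_eq (α 0 / α 1) (n := 2) (by norm_num)
  have hle : RingHom.ker π ≤ vert (some (α 0 / α 1)) := by
    rw [hker, Ideal.span_le, Set.singleton_subset_iff]
    exact ell_mem_vert α h1
  have hm : ((vert (some (α 0 / α 1))).map π).comap π = vert (some (α 0 / α 1)) := by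
    rw [Ideal.comap_map_of_surjective π hπ, sup_eq_left]
    exact hle
  refine ⟨(vert (some (α 0 / α 1))).map π, Ideal.map_isPrime_of_surjective hπ hle, ?_⟩
  intro L _ _ _ _ _
  have := Ideal.map_isPrime_of_surjective hπ hle
  exact not_isFInjective_section 2 (vert (some (α 0 / α 1))) (ell α) (ell_mem_vert α h1)
    (xsl none) (by simp [xsl])
    (fun x hx => xsl_mem_vert (some (α 0 / α 1)) x (by
      simp only [xsl, List.mem_cons, List.not_mem_nil, or_false] at hx ⊢
      tauto))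
    (reg_section α h1) (rad_section α h1) (gG γ) (not_mem_section α h1 γ) (gG_sq_mem α h1 γ hγ)
    π hπ hker _ hm L

end
end Pool.Agent.H91
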