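import Mathlib
import Pool.Agent.helper91.Section
import Pool.Agent.helper91.Chart
import Pool.Agent.helper91.SchemeLem
set_option autoImplicit false
universe u
open AlgebraicGeometry CategoryTheory Limits TopologicalSpace Opposite MvPolynomial

attribute [local instance] MvPolynomial.gradedAlgebra

namespace Pool.Agent.H91

section
variable (k : Type u) [Field k]

/-- the chart `X₀ ≠ 0` of projective space -/
noncomputable def chart (n : ℕ) : Spec (CommRingCat.of (BB k n)) ⟶ projSpace n k :=
  Proj.awayι (homogeneousSubmodule (Fin (n + 1)) k) (X 0) (X_mem_grd 0) one_pos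

instance (n : ℕ) : IsOpenImmersion (chart k n) :=
  inferInstanceAs (IsOpenImmersion
    (Proj.awayι (homogeneousSubmodule (Fin (n + 1)) k) (X 0) (X_mem_grd 0) one_pos))

lemma chart_str (n : ℕ) : chart k n ≫ projSpaceToSpec n k =
    Spec.map (CommRingCat.ofHom (constBB k n)) := by
  change Proj.awayι (homogeneousSubmodule (Fin (n + 1)) k) (X 0) (X_mem_grd 0) one_pos ≫
    Proj.toSpecZero (homogeneousSubmodule (Fin (n + 1)) k) ≫
    Spec.map (CommRingCat.ofHom (algebraMap k (homogeneousSubmodule (Fin (n + 1)) k 0))) = _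
  rw [Proj.awayι_toSpecZero_assoc, ← Spec.map_comp]
  rfl

lemma chart_preimage (n : ℕ) (a : Fin (n + 1) → k) :
    chart k n ⁻¹ᵁ (Proj.basicOpen (homogeneousSubmodule (Fin (n + 1)) k) (linearForm a)) =
      PrimeSpectrum.basicOpen (evBB k n (linearForm a)) := by
  have h1 := Proj.awayι_preimage_basicOpen (homogeneousSubmodule (Fin (n + 1)) k)
    (X_mem_grd (k := k) (n := n) 0) one_pos (linearForm_isHomogeneous a) one_pos
  have h2 : HomogeneousLocalization.Away.isLocalizationElem (X_mem_grd (k := k) (n := n) 0)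
      (linearForm_isHomogeneous a) = evBB k n (linearForm a) := by
    rw [← frac_eq_evBB 1 _ (linearForm_isHomogeneous a)]
    apply HomogeneousLocalization.val_injective
    rw [val_frac, HomogeneousLocalization.Away.val_mk]
    congr 1
    exact pow_one _
  rw [← h2]
  exact h1

/-- the affine coordinates -/
noncomputable def gens : Fin (6 + 1) → RR k := ![1, gT k, gU k, gW k, gV k, gR k, gS k]

/-- evaluation at the affine coordinates -/
noncomputable def evRR : MvPolynomial (Fin (6 + 1)) k →+* RR k := (aeval (gens k)).toRingHom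

lemma evRR_X (i : Fin (6 + 1)) : evRR k (X i) = gens k i := aeval_X (gens k) i

lemma evRR_C (c : k) : evRR k (C c) = algebraMap k (RR k) c := aeval_C (gens k) c

lemma evRR_X0 : evRR k (X 0) = 1 := evRR_X k 0

/-- the homomorphism from the coordinate ring of the chart `X₀ ≠ 0` -/
noncomputable def psi : BB k 6 →+* RR k := awayHom (evRR k) (evRR_X0 k)

lemma psi_evBB (x : MvPolynomial (Fin (6 + 1)) k) : psi k (evBB k 6 x) = evRR k x :=
  congrArg (fun g => g x) (awayHom_comp_evBB (evRR k) (evRR_X0 k))

lemma psi_surjective : Function.Surjective (psi k) := by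
  have h1 : (aeval (R := k) (gens k)).range = ⊤ := by
    rw [eq_top_iff, ← adjoin_eq_top, Algebra.adjoin_le_iff]
    rintro x (rfl | rfl | rfl | rfl | rfl | rfl)
    · exact ⟨X 1, aeval_X (gens k) 1⟩
    · exact ⟨X 2, aeval_X (gens k) 2⟩
    · exact ⟨X 3, aeval_X (gens k) 3⟩
    · exact ⟨X 4, aeval_X (gens k) 4⟩
    · exact ⟨X 5, aeval_X (gens k) 5⟩
    · exact ⟨X 6, aeval_X (gens k) 6⟩
  intro r
  have h2 : r ∈ (aeval (R := k) (gens k)).range := h1 ▸ Algebra.mem_top
  obtain ⟨x, rfl⟩ := h2
  exact ⟨evBB k 6 x, psi_evBB k x⟩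

lemma psi_linearForm (a : Fin (6 + 1) → k) : psi k (evBB k 6 (linearForm a)) = ell a := by
  rw [psi_evBB, linearForm, map_sum]
  simp only [map_mul, evRR_X, evRR_C]
  rw [Fin.sum_univ_seven, ell]
  simp [gens]

lemma psi_constBB (c : k) : psi k (constBB k 6 c) = algebraMap k (RR k) c := by
  have h : constBB k 6 c = evBB k 6 (C c) := (eval₂Hom_C _ _ _).symm
  rw [h, psi_evBB, evRR_C]

/-- the affine scheme `Spec RR` in `ℙ⁶` -/
noncomputable def theMap : Spec (CommRingCat.of (RR k)) ⟶ projSpace 6 k :=
  Spec.map (CommRingCat.ofHom (psi k)) ≫ chart k 6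

/-- the structure morphism -/
noncomputable def theStr : Spec (CommRingCat.of (RR k)) ⟶ Spec (CommRingCat.of k) :=
  Spec.map (CommRingCat.ofHom (algebraMap k (RR k)))

lemma theMap_str : theMap k ≫ projSpaceToSpec 6 k = theStr k := by
  rw [theMap, Category.assoc, chart_str, ← Spec.map_comp, theStr]
  exact congrArg Spec.map (CommRingCat.hom_ext (RingHom.ext fun c => psi_constBB k c))

instance : IsClosedImmersion (Spec.map (CommRingCat.ofHom (psi k))) :=
  IsClosedImmersion.spec_of_surjective _ (psi_surjective k)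

instance : IsImmersion (theMap k) :=
  inferInstanceAs (IsImmersion (Spec.map (CommRingCat.ofHom (psi k)) ≫ chart k 6))

lemma theStr_isVariety : IsVariety (theStr k) where
  isIntegral := by
    infer_instance
  isSeparated := by
    rw [theStr]; infer_instance
  locallyOfFiniteType := by
    rw [theStr, HasRingHomProperty.Spec_iff (P := @LocallyOfFiniteType)]
    exact RingHom.finiteType_algebraMap.mpr inferInstance
  quasiCompact := by
    rw [theStr]; infer_instance

omit [Field k] in
lemma exists_prime_of_point {R : Type u} [CommRing R] (x : Spec (CommRingCat.of R)) :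
    ∃ (P : Ideal R) (_ : P.IsPrime) (_ : Algebra R ((Spec (CommRingCat.of R)).presheaf.stalk x)),
      IsLocalization.AtPrime ((Spec (CommRingCat.of R)).presheaf.stalk x) P :=
  ⟨x.asIdeal, x.isPrime, StructureSheaf.stalkAlgebra R x, StructureSheaf.IsLocalization.to_stalk R x⟩

lemma isNormal_Spec [CharP k 2] : IsNormalScheme (Spec (CommRingCat.of (RR k))) := by
  intro x
  obtain ⟨P, hP, hA, h1⟩ := exists_prime_of_point x
  have h2 : IsIntegrallyClosed (RR k) := RR_isIntegrallyClosed
  have h3 : P.primeCompl ≤ nonZeroDivisors (RR k) := P.primeCompl_le_nonZeroDivisors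
  exact ⟨IsLocalization.isDomain_of_le_nonZeroDivisors _ h3,
    isIntegrallyClosed_of_isLocalization _ P.primeCompl h3⟩

lemma expChar_of_hom {A : Type u} [CommRing A] [Nontrivial A] [CharP k 2] (f : k →+* A) :
    ExpChar A 2 := by
  have := charP_of_injective_ringHom f.injective 2
  exact ExpChar.prime Nat.prime_two

lemma isFInjective_Spec [CharP k 2] [IsAlgClosed k] :
    IsFInjectiveScheme (Spec (CommRingCat.of (RR k))) 2 := by
  intro x
  obtain ⟨P, hP, hA, h1⟩ := exists_prime_of_point x
  have h2 : ExpChar ((Spec (CommRingCat.of (RR k))).presheaf.stalk x) 2 :=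
    expChar_of_hom k ((algebraMap (RR k) _).comp (algebraMap k (RR k)))
  exact ⟨h2, isFInjective_RR P _⟩

/-- The hyperplane sections which are not F-injective -/
lemma not_isFInjective_hyperplaneSection [IsAlgClosed k] [CharP k 2] (a : Fin (6 + 1) → k) (h1 : a 1 ≠ 0) :
    ¬ IsFInjectiveScheme (hyperplaneSection (theMap k) a) 2 := by
  obtain ⟨hY, π, hπ, hker⟩ := exists_sections (chart k 6)
    (Proj.basicOpen (homogeneousSubmodule (Fin (6 + 1)) k) (linearForm a))
    (evBB k 6 (linearForm a)) (chart_preimage k 6 a)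
    (span_evBB_linearForm_isPrime a 1 (by decide) h1).isRadical
    (CommRingCat.ofHom (psi k))
  change IsAffine (hyperplaneSection (theMap k) a) at hY
  change RR k →+* Γ(hyperplaneSection (theMap k) a, ⊤) at π
  have hker' : RingHom.ker π = Ideal.span {ell a} := by
    rw [← psi_linearForm]
    exact hker
  obtain ⟨𝔪, hm, hL⟩ := not_isFInjective_RR a h1 π hπ hker'
  obtain ⟨y, hA, hloc⟩ := exists_point (Y := hyperplaneSection (theMap k) a) 𝔪
  intro hF
  obtain ⟨he, hy⟩ := hF y
  exact hL _ hy

lemma general_not [IsAlgClosed k] [CharP k 2] : HoldsForGeneralHyperplane 6 k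
    fun a => ¬ IsFInjectiveScheme (hyperplaneSection (theMap k) a) 2 := by
  refine ⟨1, X 1, isHomogeneous_X k 1, X_ne_zero 1, fun a _ ha => ?_⟩
  rw [eval_X] at ha
  exact not_isFInjective_hyperplaneSection k a ha

lemma not_general [IsAlgClosed k] [CharP k 2] : ¬ HoldsForGeneralHyperplane 6 k
    fun a => IsFInjectiveScheme (hyperplaneSection (theMap k) a) 2 := by
  rintro ⟨d, G, -, hG, h⟩
  have h1 : G * X 1 ≠ 0 := mul_ne_zero hG (X_ne_zero 1)
  have : Infinite k := IsAlgClosed.instInfinite
  obtain ⟨a, ha⟩ : ∃ a, eval a (G * X 1) ≠ 0 := by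
    by_contra hcon
    push Not at hcon
    exact h1 (MvPolynomial.funext fun a => by rw [hcon a, map_zero])
  rw [map_mul, eval_X] at ha
  have ha1 : a 1 ≠ 0 := right_ne_zero_of_mul ha
  refine not_isFInjective_hyperplaneSection k a ha1 (h a ?_ (left_ne_zero_of_mul ha))
  intro h0
  exact ha1 (by rw [h0]; rfl)

omit [Field k] in
lemma isSeparablyGenerated_of_surjective {K L : Type u} [Field K] [Field L] [Algebra K L]
    (h : Function.Surjective (algebraMap K L)) : IsSeparablyGenerated K L := by
  refine ⟨∅, ?_, ?_⟩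
  · have h1 : AlgebraicIndependent K ((↑) : (∅ : Set L) → L) :=
      (algebraicIndependent_empty_iff K L).mpr (algebraMap K L).injective
    rw [h1.isTranscendenceBasis_iff_isAlgebraic]
    constructor
    intro x
    obtain ⟨y, rfl⟩ := h x
    rw [IsScalarTower.algebraMap_apply K
      (Algebra.adjoin K (Set.range ((↑) : (∅ : Set L) → L))) L]
    exact isAlgebraic_algebraMap _
  · constructor
    intro x
    obtain ⟨y, rfl⟩ := h x
    rw [IsScalarTower.algebraMap_apply K (IntermediateField.adjoin K (∅ : Set L)) L]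
    exact isSeparable_algebraMap _

omit [Field k] in
lemma hasSeparably_of_isImmersion {X Y : Scheme.{u}} (φ : X ⟶ Y) [IsImmersion φ] :
    HasSeparablyGeneratedResidueFieldExtensions φ := by
  intro x
  let := (φ.residueFieldMap x).hom.toAlgebra
  apply isSeparablyGenerated_of_surjective
  change Function.Surjective (φ.residueFieldMap x)
  intro z
  obtain ⟨w, rfl⟩ := X.residue_surjective x z
  obtain ⟨v, rfl⟩ := φ.stalkMap_surjective x w
  refine ⟨Y.residue (φ x) v, ?_⟩
  exact congrArg (fun g => g.hom v) (Scheme.residue_residueFieldMap φ x)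

/-- The second theorem of Bertini fails for normal F-injective varieties in characteristic two. -/
theorem bertini_fails [IsAlgClosed k] [CharP k 2] :
    ∃ (X : Scheme.{u}) (f : X ⟶ Spec (CommRingCat.of k)) (φ : X ⟶ projSpace 6 k),
      IsVariety f ∧ IsNormalScheme X ∧ IsFInjectiveScheme X 2 ∧
      φ ≫ projSpaceToSpec 6 k = f ∧ IsImmersion φ ∧
      HasSeparablyGeneratedResidueFieldExtensions φ ∧
      (HoldsForGeneralHyperplane 6 k fun a => ¬ IsFInjectiveScheme (hyperplaneSection φ a) 2) ∧
      ¬ HoldsForGeneralHyperplane 6 k fun a => IsFInjectiveScheme (hyperplaneSection φ a) 2 :=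
  ⟨Spec (CommRingCat.of (RR k)), theStr k, theMap k, theStr_isVariety k, isNormal_Spec k,
    isFInjective_Spec k, theMap_str k, inferInstance, hasSeparably_of_isImmersion _,
    general_not k, not_general k⟩

end
end Pool.Agent.H91
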