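import Mathlib
import Pool.Agent.helper65.GCA.Defs

set_option autoImplicit false

/-!
# Zeros of the Wronskian are critical points
-/

namespace Pool.Agent.helper65.GCA

open Set Topology Polynomial

namespace A12a

/-- a function which vanishes to order `e ≥ 2` is not locally injective -/
lemma not_inj_of_pow {e : ℕ} (he : 2 ≤ e) {z : ℂ} (H D : ℂ[X]) (hH : H.eval z ≠ 0)
    (hD : D.eval z ≠ 0) {V : Set ℂ} (hV : V ∈ 𝓝 z) :
    ∃ w₁ ∈ V, ∃ w₂ ∈ V, w₁ ≠ w₂ ∧ D.eval w₁ ≠ 0 ∧ D.eval w₂ ≠ 0 ∧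
      (w₁ - z) ^ e * H.eval w₁ / D.eval w₁ = (w₂ - z) ^ e * H.eval w₂ / D.eval w₂ := by
  have he0 : (e : ℂ) ≠ 0 := by
    have : e ≠ 0 := by omega
    exact_mod_cast this
  set h : ℂ → ℂ := fun w => H.eval w / D.eval w with hh
  have hz : h z ≠ 0 := div_ne_zero hH hD
  obtain ⟨r, hr⟩ : ∃ r : ℂ, r ^ e = h z := IsAlgClosed.exists_pow_nat_eq (h z) (by omega)
  have hr0 : r ≠ 0 := by
    rintro rfl
    rw [zero_pow (by omega)] at hr
    exact hz hr.symm
  set φ : ℂ → ℂ := fun w => (w - z) * (r * Complex.exp (Complex.log (h w / h z) / e)) with hφ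
  have hd : ∃ h', HasStrictDerivAt h h' z :=
    ⟨_, (H.hasStrictDerivAt z).div (D.hasStrictDerivAt z) hD⟩
  obtain ⟨h', hd⟩ := hd
  have h1 : h z / h z ∈ Complex.slitPlane := by
    rw [div_self hz]; exact Complex.one_mem_slitPlane
  have hφd : HasStrictDerivAt φ r z := by
    have e1 : HasStrictDerivAt (fun w : ℂ => w - z) 1 z := (hasStrictDerivAt_id z).sub_const z
    have e2 := (((hd.div_const (h z)).clog h1).div_const (e : ℂ)).cexp.const_mul r
    have e3 := e1.mul e2
    refine e3.congr_deriv ?_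
    simp [div_self hz]
  have hφz : φ z = 0 := by simp [hφ]
  -- good neighbourhood
  have hcont : ContinuousAt h z := hd.hasDerivAt.continuousAt
  have hA : {w | w ∈ V ∧ D.eval w ≠ 0 ∧ h w ≠ 0} ∈ 𝓝 z := by
    refine Filter.Eventually.and hV ?_
    exact (D.continuous.continuousAt.eventually_ne hD).and (hcont.eventually_ne hz)
  have hB : φ '' {w | w ∈ V ∧ D.eval w ≠ 0 ∧ h w ≠ 0} ∈ 𝓝 (0 : ℂ) := by
    have h3 := Filter.image_mem_map (m := φ) hA
    rwa [hφd.map_nhds_eq hr0, hφz] at h3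
  obtain ⟨δ, hδ, hball⟩ := Metric.mem_nhds_iff.1 hB
  -- a nontrivial root of unity
  set ζ : ℂ := Complex.exp (2 * Real.pi * Complex.I / e) with hζ
  have hprim : IsPrimitiveRoot ζ e := Complex.isPrimitiveRoot_exp e (by omega)
  have hζ1 : ζ ≠ 1 := hprim.ne_one (by omega)
  have hζe : ζ ^ e = 1 := hprim.pow_eq_one
  have hnorm : ‖ζ‖ = 1 := hprim.norm'_eq_one (by omega)
  set u : ℂ := ((δ / 2 : ℝ) : ℂ) with hu
  have hun : ‖u‖ = δ / 2 := by
    rw [hu, Complex.norm_real, Real.norm_eq_abs, abs_of_pos (by positivity)]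
  have hu0 : u ≠ 0 := by
    rw [← norm_ne_zero_iff, hun]; positivity
  obtain ⟨w₁, ⟨hV1, hD1, hh1⟩, hw1⟩ := hball (show u ∈ Metric.ball (0 : ℂ) δ by
    rw [mem_ball_zero_iff, hun]; linarith)
  obtain ⟨w₂, ⟨hV2, hD2, hh2⟩, hw2⟩ := hball (show ζ * u ∈ Metric.ball (0 : ℂ) δ by
    rw [mem_ball_zero_iff, norm_mul, hnorm, hun]; linarith)
  have key : ∀ w, h w ≠ 0 → (w - z) ^ e * H.eval w / D.eval w = φ w ^ e := by
    intro w h3
    have e2 : φ w ^ e = (w - z) ^ e * h w := by
      simp only [hφ]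
      rw [mul_pow, mul_pow, hr, ← Complex.exp_nat_mul, mul_div_cancel₀ _ he0,
        Complex.exp_log (div_ne_zero h3 hz), mul_div_cancel₀ _ hz]
    rw [e2, mul_div_assoc]
  refine ⟨w₁, hV1, w₂, hV2, ?_, hD1, hD2, ?_⟩
  · rintro rfl
    rw [hw1] at hw2
    refine hζ1 ?_
    have h4 : (ζ - 1) * u = 0 := by rw [sub_mul, one_mul, ← hw2, sub_self]
    rcases mul_eq_zero.1 h4 with h5 | h5
    · exact sub_eq_zero.1 h5
    · exact absurd h5 hu0
  · rw [key _ hh1, key _ hh2, hw1, hw2, mul_pow, hζe, one_mul]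

lemma two_le_rootMultiplicity {T : ℂ[X]} (hT : T ≠ 0) {z : ℂ} (h0 : T.IsRoot z)
    (h1 : (derivative T).IsRoot z) : 2 ≤ T.rootMultiplicity z := by
  have := (Polynomial.one_lt_rootMultiplicity_iff_isRoot hT).2 ⟨h0, h1⟩
  omega

/-- version for a polynomial with a multiple root -/
lemma not_inj {z : ℂ} (T D : ℂ[X]) (hT : T ≠ 0) (h0 : T.IsRoot z) (h1 : (derivative T).IsRoot z)
    (hD : D.eval z ≠ 0) {V : Set ℂ} (hV : V ∈ 𝓝 z) :
    ∃ w₁ ∈ V, ∃ w₂ ∈ V, w₁ ≠ w₂ ∧ D.eval w₁ ≠ 0 ∧ D.eval w₂ ≠ 0 ∧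
      T.eval w₁ / D.eval w₁ = T.eval w₂ / D.eval w₂ := by
  obtain ⟨H, hH, hndvd⟩ := Polynomial.exists_eq_pow_rootMultiplicity_mul_and_not_dvd T hT z
  have hHz : H.eval z ≠ 0 := by
    intro h
    exact hndvd (Polynomial.dvd_iff_isRoot.2 h)
  obtain ⟨w₁, hw₁, w₂, hw₂, hne, hD₁, hD₂, heq⟩ :=
    not_inj_of_pow (two_le_rootMultiplicity hT h0 h1) H D hHz hD hV
  refine ⟨w₁, hw₁, w₂, hw₂, hne, hD₁, hD₂, ?_⟩
  have e : ∀ w, T.eval w = (w - z) ^ (T.rootMultiplicity z) * H.eval w := by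
    intro w
    conv_lhs => rw [hH]
    simp
  rw [e, e]
  exact heq

end A12a

/-- mod:A12a. Zeros of the Wronskian are critical points. -/
theorem mem_crit_of_wronskian {d : ℕ} {A B : ℂ[X]} (hAB : IsCoprime A B)
    (hd : max A.natDegree B.natDegree = d) (hW : derivative A * B - A * derivative B ≠ 0)
    {z : ℂ} (hz : (derivative A * B - A * derivative B).IsRoot z) :
    (z : S2) ∈ crit (ratMap d A B) := by
  rintro ⟨U, hU, hinj⟩
  have hV : (fun w : ℂ => (w : S2)) ⁻¹' U ∈ 𝓝 z :=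
    (OnePoint.continuous_coe (X := ℂ)).continuousAt.preimage_mem_nhds hU
  have hz' : (derivative A).eval z * B.eval z - A.eval z * (derivative B).eval z = 0 := by
    simpa using hz
  by_cases hB : B.eval z = 0
  · have hA : A.eval z ≠ 0 := by
      intro hA
      obtain ⟨a, b, hab⟩ := hAB
      have := congrArg (Polynomial.eval z) hab
      simp [hA, hB] at this
    have hB' : (derivative B).IsRoot z := by
      rw [hB, mul_zero, zero_sub, neg_eq_zero] at hz'
      exact (mul_eq_zero.1 hz').resolve_left hA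
    have hB0 : B ≠ 0 := by
      rintro rfl
      simp at hW
    obtain ⟨w₁, hw₁, w₂, hw₂, hne, hD₁, hD₂, heq⟩ := A12a.not_inj B A hB0 hB hB' hA hV
    refine hne ?_
    have := hinj hw₁ hw₂ (show toSphere _ _ = toSphere _ _ from ?_)
    · exact OnePoint.coe_injective this
    · unfold toSphere
      by_cases h1 : B.eval w₁ = 0
      · have h2 : B.eval w₂ = 0 := by
          rw [h1, zero_div] at heq
          exact (div_eq_zero_iff.1 heq.symm).resolve_right hD₂
        simp [h1, h2]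
      · have h2 : B.eval w₂ ≠ 0 := by
          intro h2
          rw [h2, zero_div] at heq
          exact h1 ((div_eq_zero_iff.1 heq).resolve_right hD₁)
        rw [if_neg h1, if_neg h2]
        congr 1
        have := congrArg (·⁻¹) heq
        simpa using this
  · set c := A.eval z / B.eval z with hc
    have hT0 : (A - C c * B).IsRoot z := by
      simp [hc, div_mul_cancel₀ _ hB]
    have hT1 : (derivative (A - C c * B)).IsRoot z := by
      have : B.eval z * (derivative (A - C c * B)).eval z = 0 := by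
        simp only [derivative_sub, derivative_mul, derivative_C, zero_mul, zero_add, eval_sub,
          eval_mul, eval_C]
        have h3 : c * B.eval z = A.eval z := div_mul_cancel₀ _ hB
        linear_combination hz' - (derivative B).eval z * h3
      exact (mul_eq_zero.1 this).resolve_left hB
    have hT : A - C c * B ≠ 0 := by
      intro h
      rw [sub_eq_zero] at h
      apply hW
      rw [h]
      simp only [derivative_mul, derivative_C, zero_mul, zero_add]
      ring
    obtain ⟨w₁, hw₁, w₂, hw₂, hne, hD₁, hD₂, heq⟩ := A12a.not_inj _ B hT hT0 hT1 hB hV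
    refine hne ?_
    have := hinj hw₁ hw₂ (show toSphere _ _ = toSphere _ _ from ?_)
    · exact OnePoint.coe_injective this
    · unfold toSphere
      rw [if_neg hD₁, if_neg hD₂]
      congr 1
      simp only [eval_sub, eval_mul, eval_C] at heq
      rw [sub_div, sub_div, mul_div_cancel_right₀ _ hD₁, mul_div_cancel_right₀ _ hD₂] at heq
      exact sub_left_injective heq

end Pool.Agent.helper65.GCA
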