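import Mathlib
import Pool.Agent.helper65.GCA.Defs
import Pool.Agent.helper91.GCA_A12a

set_option autoImplicit false

/-!
# Parametrisation of marked rational maps
-/

namespace Pool.Agent.helper65.GCA

open Set Topology Polynomial

namespace A12b

lemma rootMultiplicity_pow_mul {g : ℂ[X]} {q : ℂ} (hg : g.eval q ≠ 0) (k : ℕ) :
    ((X - C q) ^ k * g).rootMultiplicity q = k := by
  have hg0 : g ≠ 0 := by rintro rfl; simp at hg
  rw [mul_comm, Polynomial.rootMultiplicity_mul_X_sub_C_pow hg0,
    Polynomial.rootMultiplicity_eq_zero (by simpa using hg), zero_add]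

/-- multiplicity of the Wronskian -/
lemma rootMultiplicity_wronskian {T D : ℂ[X]} (hT : T ≠ 0) {q : ℂ} (hq : T.IsRoot q)
    (hD : D.eval q ≠ 0) :
    (derivative T * D - T * derivative D).rootMultiplicity q = T.rootMultiplicity q - 1 := by
  obtain ⟨g, hg, hndvd⟩ := Polynomial.exists_eq_pow_rootMultiplicity_mul_and_not_dvd T hT q
  have hgq : g.eval q ≠ 0 := fun h => hndvd (Polynomial.dvd_iff_isRoot.2 h)
  have he : 0 < T.rootMultiplicity q := (Polynomial.rootMultiplicity_pos hT).2 hq
  obtain ⟨k, hk⟩ : ∃ k, T.rootMultiplicity q = k + 1 := ⟨T.rootMultiplicity q - 1, by omega⟩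
  rw [hk] at hg ⊢
  have e1 : derivative T * D - T * derivative D = (X - C q) ^ k *
      (((k + 1 : ℂ[X]) * g + (X - C q) * derivative g) * D - (X - C q) * g * derivative D) := by
    rw [hg]
    simp only [derivative_mul, derivative_X_sub_C_pow, Nat.add_sub_cancel, Nat.cast_add,
      Nat.cast_one, map_add, map_natCast, map_one]
    ring
  rw [e1, rootMultiplicity_pow_mul, Nat.add_sub_cancel]
  simp only [eval_sub, eval_mul, eval_add, eval_natCast, eval_one, eval_X, eval_C, sub_self,
    zero_mul, add_zero, sub_zero]
  refine mul_ne_zero (mul_ne_zero ?_ hgq) hD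
  exact_mod_cast Nat.succ_ne_zero k

/-- factorisation over a finite set containing the roots -/
lemma eq_prod {T : ℂ[X]} {s : Finset ℂ} (hs : ∀ z, T.IsRoot z → z ∈ s) :
    T = C T.leadingCoeff * ∏ z ∈ s, (X - C z) ^ T.rootMultiplicity z := by
  by_cases hT : T = 0
  · simp [hT]
  have h1 := (IsAlgClosed.splits T).eq_prod_roots
  conv_lhs => rw [h1]
  congr 1
  rw [Finset.prod_multiset_map_count]
  have hsub : T.roots.toFinset ⊆ s := by
    intro z hz
    rw [Multiset.mem_toFinset, Polynomial.mem_roots hT] at hz
    exact hs z hz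
  rw [← Finset.prod_subset hsub]
  · refine Finset.prod_congr rfl fun z _ => ?_
    rw [Polynomial.count_roots]
  · intro z _ hz
    rw [Multiset.mem_toFinset, Polynomial.mem_roots hT] at hz
    rw [Polynomial.rootMultiplicity_eq_zero hz, pow_zero]

lemma sum_coeff {A : ℂ[X]} {d : ℕ} (h : A.natDegree ≤ d) :
    ∑ k : Fin (d + 1), C (A.coeff k) * X ^ (k : ℕ) = A := by
  conv_rhs => rw [A.as_sum_range_C_mul_X_pow' (n := d + 1) (by omega)]
  rw [Finset.sum_range]

lemma wronskian_ne_zero {A B : ℂ[X]} (hAB : IsCoprime A B) {d : ℕ} (hd : 1 ≤ d)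
    (h : max A.natDegree B.natDegree = d) : derivative A * B - A * derivative B ≠ 0 := by
  intro hW
  rw [sub_eq_zero] at hW
  have h1 : A ∣ derivative A := by
    refine hAB.dvd_of_dvd_mul_right ?_
    exact ⟨derivative B, hW⟩
  have h2 : B ∣ derivative B := by
    refine hAB.symm.dvd_of_dvd_mul_left ?_
    exact ⟨derivative A, by rw [← hW]; ring⟩
  have key : ∀ Q : ℂ[X], Q ∣ derivative Q → Q.natDegree = 0 := by
    intro Q hQ
    by_contra hne
    have h3 : derivative Q ≠ 0 := by
      intro h0
      exact hne (Polynomial.derivative_eq_zero.1 h0)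
    have h4 := Polynomial.natDegree_le_of_dvd hQ h3
    have h5 := Polynomial.natDegree_derivative_lt hne
    omega
  have := key A h1
  have := key B h2
  omega

/-- the polynomials whose zeros are the preimages of marked points -/
noncomputable def TT {n : ℕ} (A B : ℂ[X]) (p : Fin n → ℂ) : Option (Fin n) → ℂ[X]
  | none => B
  | some i => A - C (p i) * B

end A12b

open A12b in
/-- mod:A12b (from A12a). -/
theorem exists_good {d n : ℕ} (hd : 1 ≤ d) {R : S2 → S2} {P : Set S2}
    (h : RatPair d (n + 1) R P) (hP : OnePoint.infty ∈ P) :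
    ∃ N ≤ (n + 1) * d, ∃ (D : Data d n N) (x : Idx d n N → ℂ),
      Good D x ∧ pMap x = R ∧ marked x = P := by
  classical
  obtain ⟨⟨A, B, hAB, hdeg, rfl⟩, hfin, hcard, hPP, hcrit⟩ := h
  have hWne := wronskian_ne_zero hAB hd hdeg
  have hAd : A.natDegree ≤ d := by rw [← hdeg]; exact le_max_left _ _
  have hBd : B.natDegree ≤ d := by rw [← hdeg]; exact le_max_right _ _
  -- the finite marked points
  obtain ⟨p, hpinj, hprange⟩ : ∃ p : Fin n → ℂ, Function.Injective p ∧
      range p = (fun w : ℂ => (w : S2)) ⁻¹' P := by
    have h1 : P = insert OnePoint.infty ((fun w : ℂ => (w : S2)) '' ((fun w : ℂ => (w : S2)) ⁻¹' P)) := by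
      ext y
      induction y using OnePoint.rec with
      | infty => simp [hP]
      | coe w =>
        simp only [mem_insert_iff, OnePoint.coe_ne_infty, false_or, mem_image, mem_preimage]
        constructor
        · intro hw; exact ⟨w, hw, rfl⟩
        · rintro ⟨w', hw', he⟩
          rwa [← OnePoint.coe_injective he]
    have hf' : ((fun w : ℂ => (w : S2)) ⁻¹' P).Finite :=
      hfin.preimage (OnePoint.coe_injective.injOn)
    have h2 : ((fun w : ℂ => (w : S2)) ⁻¹' P).ncard = n := by
      have h3 : OnePoint.infty ∉ ((fun w : ℂ => (w : S2)) '' ((fun w : ℂ => (w : S2)) ⁻¹' P)) := by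
        rintro ⟨w, _, hw⟩
        exact OnePoint.coe_ne_infty w hw
      have h4 := Set.ncard_insert_of_notMem h3 (hf'.image _)
      rw [← h1, hcard, Set.ncard_image_of_injective _ OnePoint.coe_injective] at h4
      omega
    have : Fintype ((fun w : ℂ => (w : S2)) ⁻¹' P : Set ℂ) := hf'.fintype
    have h5 : Fintype.card ((fun w : ℂ => (w : S2)) ⁻¹' P : Set ℂ) = n := by
      rw [← h2, Set.ncard_eq_toFinset_card', Set.toFinset_card]
    let e := (Fintype.equivFinOfCardEq h5).symm
    refine ⟨fun i => (e i : ℂ), fun i j hij => e.injective (Subtype.ext hij), ?_⟩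
    ext w
    constructor
    · rintro ⟨i, rfl⟩
      exact (e i).2
    · intro hw
      exact ⟨e.symm ⟨w, hw⟩, by simp⟩
  have hpP : ∀ i, ((p i : ℂ) : S2) ∈ P := by
    intro i
    have : p i ∈ range p := ⟨i, rfl⟩
    rw [hprange] at this
    exact this
  set T := TT A B p with hT
  have hTne : ∀ i, T i ≠ 0 := by
    have key : ∀ c : ℂ, A - C c * B ≠ 0 := by
      intro c h0
      rw [sub_eq_zero] at h0
      apply hWne
      rw [h0]
      simp only [derivative_mul, derivative_C, zero_mul, zero_add]
      ring
    intro i
    cases i with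
    | none =>
      intro h0
      have h0' : B = 0 := h0
      apply hWne
      simp [h0']
    | some i => exact key (p i)
  have hTdeg : ∀ i, (T i).natDegree ≤ d := by
    intro i
    cases i with
    | none => exact hBd
    | some i =>
      refine (Polynomial.natDegree_sub_le _ _).trans (max_le hAd ?_)
      exact (Polynomial.natDegree_C_mul_le _ _).trans hBd
  have hcop : ∀ w, A.eval w = 0 → B.eval w = 0 → False := by
    intro w h1 h2
    obtain ⟨a, b, hab⟩ := hAB
    have := congrArg (Polynomial.eval w) hab
    simp [h1, h2] at this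
  -- values
  have hval : ∀ w : ℂ, ratMap d A B (w : S2) ∈ P ↔ ∃ i, (T i).IsRoot w := by
    intro w
    show toSphere (A.eval w) (B.eval w) ∈ P ↔ _
    unfold toSphere
    by_cases hB0 : B.eval w = 0
    · rw [if_pos hB0]
      exact ⟨fun _ => ⟨none, hB0⟩, fun _ => hP⟩
    · rw [if_neg hB0]
      constructor
      · intro hw
        have hw' : A.eval w / B.eval w ∈ range p := by rw [hprange]; exact hw
        obtain ⟨i, hi⟩ := hw'
        refine ⟨some i, ?_⟩
        show (A - C (p i) * B).eval w = 0
        simp [hi, div_mul_cancel₀ _ hB0]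
      · rintro ⟨i, hi⟩
        cases i with
        | none => exact absurd hi hB0
        | some i =>
          have hi' : (A - C (p i) * B).eval w = 0 := hi
          simp only [eval_sub, eval_mul, eval_C, sub_eq_zero] at hi'
          rw [hi', mul_div_cancel_right₀ _ hB0]
          exact hpP i
  have huniq : ∀ w i j, (T i).IsRoot w → (T j).IsRoot w → i = j := by
    intro w i j hi hj
    cases i with
    | none =>
      cases j with
      | none => rfl
      | some j =>
        exfalso
        have hi' : B.eval w = 0 := hi
        have hj' : (A - C (p j) * B).eval w = 0 := hj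
        simp only [eval_sub, eval_mul, eval_C, hi', mul_zero, sub_zero] at hj'
        exact hcop w hj' hi'
    | some i =>
      cases j with
      | none =>
        exfalso
        have hi' : B.eval w = 0 := hj
        have hj' : (A - C (p i) * B).eval w = 0 := hi
        simp only [eval_sub, eval_mul, eval_C, hi', mul_zero, sub_zero] at hj'
        exact hcop w hj' hi'
      | some j =>
        have h1 : (A - C (p i) * B).eval w = 0 := hi
        have h2 : (A - C (p j) * B).eval w = 0 := hj
        simp only [eval_sub, eval_mul, eval_C] at h1 h2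
        have h3 : (p i - p j) * B.eval w = 0 := by linear_combination h2 - h1
        rcases mul_eq_zero.1 h3 with h4 | h4
        · rw [hpinj (sub_eq_zero.1 h4)]
        · exfalso
          rw [h4, mul_zero, sub_zero] at h1
          exact hcop w h1 h4
  -- the finite preimages
  set Qf : Finset ℂ := Finset.univ.biUnion fun i => (T i).roots.toFinset with hQf
  have hmemQ : ∀ w, w ∈ Qf ↔ ∃ i, (T i).IsRoot w := by
    intro w
    simp only [hQf, Finset.mem_biUnion, Finset.mem_univ, true_and, Multiset.mem_toFinset]
    exact exists_congr fun i => Polynomial.mem_roots (hTne i)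
  have hN : Qf.card ≤ (n + 1) * d := by
    refine Finset.card_biUnion_le.trans ?_
    calc ∑ i : Option (Fin n), (T i).roots.toFinset.card ≤ ∑ _i : Option (Fin n), d := by
          refine Finset.sum_le_sum fun i _ => ?_
          exact (Multiset.toFinset_card_le _).trans ((Polynomial.card_roots' _).trans (hTdeg i))
      _ = (n + 1) * d := by simp
  let q : Fin Qf.card → ℂ := fun l => (Qf.equivFin.symm l : ℂ)
  have hqinj : Function.Injective q := fun l m hlm => Qf.equivFin.symm.injective (Subtype.ext hlm)
  have hqmem : ∀ l, q l ∈ Qf := fun l => (Qf.equivFin.symm l).2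
  have hqsurj : ∀ w ∈ Qf, ∃ l, q l = w := fun w hw => ⟨Qf.equivFin ⟨w, hw⟩, by simp [q]⟩
  have hLex : ∀ l, ∃ i, (T i).IsRoot (q l) := fun l => (hmemQ _).1 (hqmem l)
  choose L hL using hLex
  have hmul : ∀ l, (T (L l)).rootMultiplicity (q l) < d + 1 := by
    intro l
    have : (T (L l)).rootMultiplicity (q l) ≤ (T (L l)).natDegree := by
      rw [← Polynomial.count_roots]
      exact (Multiset.count_le_card _ _).trans (Polynomial.card_roots' _)
    have := hTdeg (L l)
    omega
  have hsex : ∀ i, ∃ l, q l = p i := by
    intro i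
    refine hqsurj _ ((hmemQ _).2 ((hval _).1 (hPP (hpP i))))
  choose s hs using hsex
  obtain ⟨k, hk⟩ : ∃ k, (T k).coeff d = 0 := by
    have h1 : toSphere (A.coeff d) (B.coeff d) ∈ P := hPP hP
    unfold toSphere at h1
    by_cases hB0 : B.coeff d = 0
    · exact ⟨none, hB0⟩
    · rw [if_neg hB0] at h1
      have hw' : A.coeff d / B.coeff d ∈ range p := by rw [hprange]; exact h1
      obtain ⟨i, hi⟩ := hw'
      refine ⟨some i, ?_⟩
      show (A - C (p i) * B).coeff d = 0
      simp [hi, div_mul_cancel₀ _ hB0]
  set W := derivative A * B - A * derivative B with hW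
  let D : Data d n Qf.card := ⟨L, fun l => ⟨(T (L l)).rootMultiplicity (q l), hmul l⟩, s, k⟩
  let x : Idx d n Qf.card → ℂ := fun j => match j with
    | .A k => A.coeff k
    | .B k => B.coeff k
    | .p i => p i
    | .q l => q l
    | .a i => (T i).leadingCoeff
    | .w => W.leadingCoeff
  have hxA : polyA x = A := sum_coeff hAd
  have hxB : polyB x = B := sum_coeff hBd
  have hxT : ∀ i, polyT x i = T i := by
    intro i
    cases i with
    | none => exact hxB
    | some i =>
      show polyA x - C (p i) * polyB x = A - C (p i) * B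
      rw [hxA, hxB]
  have hWmul : ∀ l, W.rootMultiplicity (q l) = (T (L l)).rootMultiplicity (q l) - 1 := by
    intro l
    have hl := hL l
    cases hLl : L l with
    | none =>
      rw [hLl] at hl
      have hB0 : B.IsRoot (q l) := hl
      have hA0 : A.eval (q l) ≠ 0 := fun h0 => hcop _ h0 hB0
      have e1 : W = -(derivative B * A - B * derivative A) := by rw [hW]; ring
      rw [e1, ← Polynomial.count_roots, Polynomial.roots_neg, Polynomial.count_roots]
      exact rootMultiplicity_wronskian (hTne none) hB0 hA0
    | some i =>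
      rw [hLl] at hl
      have h0 : (A - C (p i) * B).IsRoot (q l) := hl
      have hB0 : B.eval (q l) ≠ 0 := by
        intro hB0
        refine hcop _ ?_ hB0
        have h0' : (A - C (p i) * B).eval (q l) = 0 := h0
        simpa [hB0] using h0'
      have e1 : W = derivative (A - C (p i) * B) * B - (A - C (p i) * B) * derivative B := by
        rw [hW]
        simp only [derivative_sub, derivative_mul, derivative_C, zero_mul, zero_add]
        ring
      rw [e1]
      exact rootMultiplicity_wronskian (hTne (some i)) h0 hB0
  have himg : ∀ f : ℂ → ℂ[X], ∏ z ∈ Qf, f z = ∏ l, f (q l) := by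
    intro f
    rw [← Finset.prod_coe_sort Qf, ← Equiv.prod_comp Qf.equivFin.symm]
  refine ⟨Qf.card, hN, D, x, ?_, ?_, ?_⟩
  · constructor
    · intro i
      rw [hxT i]
      have h1 := eq_prod (T := T i) (s := Qf) (fun z hz => (hmemQ z).2 ⟨i, hz⟩)
      rw [himg] at h1
      conv_lhs => rw [h1]
      show C (T i).leadingCoeff * _ = C (T i).leadingCoeff * _
      congr 1
      rw [Finset.prod_filter]
      refine Finset.prod_congr rfl fun l _ => ?_
      by_cases hl : L l = i
      · rw [if_pos hl]
        show _ = (X - C (q l)) ^ ((T (L l)).rootMultiplicity (q l))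
        rw [hl]
      · rw [if_neg hl]
        have : ¬ (T i).IsRoot (q l) := fun h0 => hl (huniq _ _ _ (hL l) h0)
        rw [Polynomial.rootMultiplicity_eq_zero this, pow_zero]
    · rw [hxA, hxB]
      have h1 := eq_prod (T := W) (s := Qf) (fun z hz => (hmemQ z).2 ((hval z).1
        (hcrit (mem_crit_of_wronskian hAB hdeg hWne hz))))
      rw [himg] at h1
      show W = C W.leadingCoeff * ∏ l, (X - C (q l)) ^ ((T (L l)).rootMultiplicity (q l) - 1)
      conv_lhs => rw [h1]
      congr 1
      refine Finset.prod_congr rfl fun l _ => ?_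
      rw [hWmul]
    · intro i
      exact (hs i).symm
    · show (polyT x k).coeff d = 0
      rw [hxT]
      exact hk
    · intro i
      exact Polynomial.leadingCoeff_ne_zero.2 (hTne i)
    · exact Polynomial.leadingCoeff_ne_zero.2 hWne
    · intro i j hij h0
      exact hij (hpinj h0)
    · intro l m hlm h0
      exact hlm (hqinj h0)
    · intro l
      exact (Polynomial.rootMultiplicity_pos (hTne (L l))).2 (hL l)
    · show A.coeff d ≠ 0 ∨ B.coeff d ≠ 0
      rcases le_total A.natDegree B.natDegree with hle | hle
      · right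
        rw [max_eq_right hle] at hdeg
        rw [← hdeg]
        intro h0
        rw [Polynomial.coeff_natDegree, Polynomial.leadingCoeff_eq_zero] at h0
        rw [h0] at hdeg
        simp at hdeg
        omega
      · left
        rw [max_eq_left hle] at hdeg
        rw [← hdeg]
        intro h0
        rw [Polynomial.coeff_natDegree, Polynomial.leadingCoeff_eq_zero] at h0
        rw [h0] at hdeg
        simp at hdeg
        omega
  · unfold pMap
    rw [hxA, hxB]
  · unfold marked
    ext y
    induction y using OnePoint.rec with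
    | infty => exact ⟨fun _ => hP, fun _ => ⟨none, rfl⟩⟩
    | coe w =>
      constructor
      · rintro ⟨i, hi⟩
        cases i with
        | none => exact absurd hi.symm (OnePoint.coe_ne_infty w)
        | some i =>
          rw [← hi]
          exact hpP i
      · intro hw
        have : w ∈ range p := by rw [hprange]; exact hw
        obtain ⟨i, rfl⟩ := this
        exact ⟨some i, rfl⟩

end Pool.Agent.helper65.GCA
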