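import Mathlib
import Pool.Agent.helper91.Final
set_option autoImplicit false

/-!
# Sanity checks for the definitions
-/

universe u

open AlgebraicGeometry CategoryTheory Limits MvPolynomial

namespace Pool.Agent.H91

/-- The local rings of a scheme over a field of characteristic `p` have characteristic `p`: the
condition on the characteristic in `IsFInjectiveScheme` is automatic. -/
theorem expChar_stalk {k : Type u} [Field k] (p : ℕ) [hp : Fact p.Prime] [CharP k p]
    {X : Scheme.{u}} (f : X ⟶ Spec (CommRingCat.of k)) (x : X) :
    ExpChar (X.presheaf.stalk x) p := by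
  let g : CommRingCat.of k ⟶ X.presheaf.stalk x :=
    (Scheme.ΓSpecIso (CommRingCat.of k)).inv ≫ f.appTop ≫ X.presheaf.germ ⊤ x trivial
  have := charP_of_injective_ringHom (show Function.Injective g.hom from g.hom.injective) p
  exact ExpChar.prime hp.out

theorem isFInjectiveScheme_iff {k : Type u} [Field k] (p : ℕ) [Fact p.Prime] [CharP k p]
    {X : Scheme.{u}} (f : X ⟶ Spec (CommRingCat.of k)) :
    IsFInjectiveScheme X p ↔ ∀ (x : X) [ExpChar (X.presheaf.stalk x) p],
      IsFInjectiveLocalRing (X.presheaf.stalk x) p := by
  constructor
  · intro h x _
    exact (h x).2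
  · intro h x
    have := expChar_stalk p f x
    exact ⟨this, h x⟩

/-- A field of characteristic `p` is F-injective if it is perfect (it is always true, but this is
the quickest case). -/
theorem isFInjectiveLocalRing_of_perfect (K : Type u) [Field K] (p : ℕ) [Fact p.Prime] [CharP K p]
    [ExpChar K p] [PerfectRing K p] : IsFInjectiveLocalRing K p := by
  refine isFInjective_of_splitting p (fun a => (frobeniusEquiv K p).symm a) ?_ ?_ ?_
  · intro a b
    exact map_add _ a b
  · intro a b
    rw [map_mul]
    congr 1
    exact (frobeniusEquiv K p).symm_apply_apply a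
  · exact map_one _

end Pool.Agent.H91
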